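import Mathlib

/-!
# Non-vanishing of L(1/2+it, ψ) for a third of the ray class characters modulo 𝔮: statements, part 0

Owner helper773.  This file only needs Mathlib.
-/

set_option autoImplicit false

open Complex MeasureTheory

namespace Pool.Agent.Y773.NV

/-! ## line integrals with Gaussian weight -/

/-- the point `c + iv` -/
noncomputable def pt (c v : ℝ) : ℂ := (c : ℂ) + (v : ℂ) * I

/-- the open vertical strip `a < Re w < b` -/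
def strip (a b : ℝ) : Set ℂ := {w | a < w.re ∧ w.re < b}

/-- (at most) exponential growth on the closed strip `a ≤ Re w ≤ b` -/
def Grow (H : ℂ → ℂ) (a b C A : ℝ) : Prop :=
  ∀ w : ℂ, a ≤ w.re → w.re ≤ b → ‖H w‖ ≤ C * Real.exp (A * |w.im|)

/-- `∫ H(c+iv) exp((c+iv)²) / (c+iv)^k dv` -/
noncomputable def JJ (k : ℕ) (H : ℂ → ℂ) (c : ℝ) : ℂ :=
  ∫ v : ℝ, H (pt c v) * cexp (pt c v ^ 2) / pt c v ^ k

/-- `∫ exp(A|v| + c² - v²) / |c|^k dv` -/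
noncomputable def GI (k : ℕ) (c A : ℝ) : ℝ :=
  ∫ v : ℝ, Real.exp (A * |v| + c ^ 2 - v ^ 2) / |c| ^ k

/-- integrability and the trivial bound on one line -/
def St_INT : Prop := ∀ (k : ℕ) (H : ℂ → ℂ) (c C A : ℝ), c ≠ 0 → 0 ≤ C →
  Continuous (fun v : ℝ => H (pt c v)) → (∀ v : ℝ, ‖H (pt c v)‖ ≤ C * Real.exp (A * |v|)) →
  Integrable (fun v : ℝ => H (pt c v) * cexp (pt c v ^ 2) / pt c v ^ k) ∧
  ‖JJ k H c‖ ≤ C * GI k c A

/-- residues at `0` (simple and double pole) -/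
def St_RES : Prop := ∀ (a b l r C A : ℝ) (H : ℂ → ℂ), a < l → l < 0 → 0 < r → r < b →
  DifferentiableOn ℂ H (strip a b) → Grow H l r C A →
  JJ 1 H r - JJ 1 H l = 2 * Real.pi * H 0 ∧ JJ 2 H r - JJ 2 H l = 2 * Real.pi * deriv H 0

/-- no pole between the lines -/
def St_SHIFT : Prop := ∀ (k : ℕ) (a b l r C A : ℝ) (H : ℂ → ℂ), a < l → l < r → r < b →
  (0 < l ∨ r < 0) → DifferentiableOn ℂ H (strip a b) → Grow H l r C A → JJ k H r = JJ k H l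

/-! ## Selberg's weights on the subsets of a finite set `P` with norms `N p ≥ 2` -/

section sel

variable {ι : Type}

/-- the norm of a finite set -/
noncomputable def nA (N : ι → ℝ) (A : Finset ι) : ℝ := ∏ p ∈ A, N p

/-- `φ(A) = ∏ (N p - 1)` -/
noncomputable def ph (N : ι → ℝ) (A : Finset ι) : ℝ := ∏ p ∈ A, (N p - 1)

open Classical in
/-- the subsets of `P` of norm `≤ M` -/
noncomputable def SM (P : Finset ι) (N : ι → ℝ) (M : ℝ) : Finset (Finset ι) :=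
  P.powerset.filter (fun A => nA N A ≤ M)

/-- `G = ∑_{N(E) ≤ M} 1/φ(E)` -/
noncomputable def GS (P : Finset ι) (N : ι → ℝ) (M : ℝ) : ℝ := ∑ E ∈ SM P N M, (ph N E)⁻¹

open Classical in
/-- the weights `b(A) = (-1)^|A| N(A)/G ∑_{E ⊇ A, N(E) ≤ M} 1/φ(E)` -/
noncomputable def bS (P : Finset ι) (N : ι → ℝ) (M : ℝ) (A : Finset ι) : ℝ :=
  (-1) ^ A.card * nA N A / GS P N M * ∑ E ∈ (SM P N M).filter (fun E => A ⊆ E), (ph N E)⁻¹

open Classical in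
/-- `B(w) = ∑_{A,B} b(A) b(B) (N(A) N(B))^w N(A ∪ B)^(-1-2w)` -/
noncomputable def BB (P : Finset ι) (N : ι → ℝ) (M : ℝ) (w : ℂ) : ℂ :=
  ∑ A ∈ SM P N M, ∑ B ∈ SM P N M, ((bS P N M A * bS P N M B : ℝ) : ℂ) *
    ((nA N A * nA N B : ℝ) : ℂ) ^ w * ((nA N (A ∪ B) : ℝ) : ℂ) ^ (-1 - 2 * w)

end sel

open Classical in
/-- **Selberg's weights.** -/
def St_SEL : Prop := ∀ (ι : Type) (P : Finset ι) (N : ι → ℝ) (M : ℝ),
  (∀ p ∈ P, 2 ≤ N p) → 1 ≤ M →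
  1 ≤ GS P N M ∧ bS P N M ∅ = 1 ∧ (∀ A ∈ SM P N M, |bS P N M A| ≤ 2 ^ A.card) ∧
  Differentiable ℂ (BB P N M) ∧ BB P N M 0 = ((1 / GS P N M : ℝ) : ℂ) ∧
  ∀ ε C : ℝ, 0 ≤ ε → 0 ≤ C →
    (∀ z : ℝ, 1 ≤ z → ∑ p ∈ P.filter (fun p => N p ≤ z), Real.log (N p) / (N p - 1) ≤
      (1 + ε) * Real.log z + C) →
    ∑ p ∈ P, Real.log (N p) / (N p - 1) ^ 2 ≤ C →
    ∃ b : ℝ, deriv (BB P N M) 0 = (b : ℂ) ∧ b ≤ ((1 + ε) * Real.log M + 3 * C) / GS P N M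

open Classical in
/-- the weights to the left of the line `Re w = 0` -/
def St_SEL2 : Prop := ∀ (ι : Type) (P : Finset ι) (N : ι → ℝ) (M : ℝ),
  (∀ p ∈ P, 2 ≤ N p) → 1 ≤ M → ∀ w : ℂ, -1 / 4 ≤ w.re → w.re ≤ 0 →
  ‖BB P N M w‖ ≤ M ^ (-2 * w.re) * ∑ U ∈ SM P N (M ^ 2), 12 ^ U.card / nA N U

/-! ## bilinear sums over a finite set of characters -/

open Classical in
/-- `P` a finite set of functions `ψ` on a set `α`, of absolute value one on the `x` with `ok x` and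
zero elsewhere; the off-diagonal correlations are small in the mean -/
def St_BIL : Prop := ∀ (α : Type) (P : Finset (α → ℂ)) (nm : α → ℝ) (ok : α → Prop) (C₁ η : ℝ),
  0 ≤ C₁ → (∀ ψ ∈ P, ∀ x, ‖ψ x‖ = if ok x then 1 else 0) → (∀ x, ok x → 1 ≤ nm x) →
  Summable (fun x => if ok x then nm x ^ (-1 - η) else 0) →
  (∀ S : Finset (α × α), (∀ p ∈ S, ok p.1 ∧ ok p.2 ∧ p.1 ≠ p.2) →
    ∑ p ∈ S, ‖∑ ψ ∈ P, ψ p.1 * (starRingEnd ℂ) (ψ p.2)‖ * (nm p.1 * nm p.2) ^ (-1 - η) ≤ C₁) →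
  ∀ (a b : α → ℂ) (Ca Cb : ℝ), 0 ≤ Ca → 0 ≤ Cb → (∀ x, ok x → ‖a x‖ ≤ Ca * nm x ^ (-1 - η)) →
    (∀ x, ok x → ‖b x‖ ≤ Cb * nm x ^ (-1 - η)) →
    ‖∑ ψ ∈ P, (∑' x, ψ x * a x) * (starRingEnd ℂ) (∑' x, ψ x * b x) -
      (P.card : ℂ) * ∑' x, (if ok x then a x * (starRingEnd ℂ) (b x) else 0)‖ ≤ Ca * Cb * C₁

end Pool.Agent.Y773.NV
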