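import Pool.Agent.Y773.NV.St1
import Pool.Agent.Y773.IQ.Ring
import Pool.Agent.Y772.DK.Dir

/-! # Divisor bound and convergence -/

set_option autoImplicit false

open Complex MeasureTheory NumberField

namespace Pool.Agent.Y773.NV

theorem t_div : St_DIV := by
  classical
  intro K _ _ δ hδ
  obtain ⟨C1, hC1, h1⟩ := Pool.Agent.Y773.IQ.divisor_bound K hδ
  have hs := Pool.Agent.Y772.DK.nr_summable (K := K) (σ := 1 + δ) (by linarith)
  refine ⟨max C1 (max 1 (∑' 𝔞, Pool.Agent.Y772.DK.nr K (1 + δ) 𝔞)),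
    le_max_of_le_right (le_max_left _ _), ?_, ?_⟩
  · intro 𝔣 h𝔣
    have h2 := h1 𝔣 h𝔣
    have h3 : (dvs 𝔣).card = (Pool.Agent.Y773.IQ.dv 𝔣).ncard := by
      rw [Set.ncard_eq_toFinset_card _ (Pool.Agent.Y773.IQ.dv_finite h𝔣)]
      congr 1
      ext 𝔢
      rw [mem_dvs h𝔣, Set.Finite.mem_toFinset]
      rfl
    rw [h3]
    refine h2.trans (mul_le_mul_of_nonneg_right (le_max_left _ _) ?_)
    exact Real.rpow_nonneg (Nat.cast_nonneg _) _
  · intro S _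
    refine le_trans ?_ (le_max_of_le_right (le_max_right _ _))
    have h2 : ∀ 𝔞 ∈ S, nm 𝔞 ^ (-1 - δ) = Pool.Agent.Y772.DK.nr K (1 + δ) 𝔞 := by
      intro 𝔞 _
      unfold Pool.Agent.Y772.DK.nr nm
      congr 1
      ring
    rw [Finset.sum_congr rfl h2]
    exact hs.sum_le_tsum S (fun 𝔞 _ => Pool.Agent.Y772.DK.nr_nonneg K (1 + δ) 𝔞)

end Pool.Agent.Y773.NV
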