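import Pool.Agent.Y773.NV.Grw
import Pool.Agent.Y773.NV.Div
import Pool.Agent.Y773.IQ.Fam

/-! # Bilinear sums over the primitive characters of conductor `𝔣` -/

set_option autoImplicit false
set_option linter.unusedSectionVars false

open Complex MeasureTheory NumberField Filter Topology

namespace Pool.Agent.Y773.NV

open Pool.Agent.Y773 (LI FEd)
open Pool.Agent.Y767 (Mq Mq_cop Mq_ne_bot)
open Pool.Agent.Y773.IQ (LL LL_eq exists_mem_one tpos_all prim_card ne_zero_of_cop cop_one)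

section

variable {K : Type} [Field K] [NumberField K]

lemma mem_PC [IsTotallyComplex K] {𝔣 : Ideal (𝓞 K)} (hbot : 𝔣 ≠ ⊥) (htop : 𝔣 ≠ ⊤)
    {ψ : Ideal (𝓞 K) →*₀ ℂ} : ψ ∈ PC 𝔣 ↔ Pool.Agent.Y773.G.IsPrimChar K 𝔣 ψ := by
  have h := (prim_card hbot htop (tpos_all (K := K))).1
  unfold PC
  rw [dif_pos h, Set.Finite.mem_toFinset]
  rfl

lemma norm_one_of_cop [IsTotallyComplex K] {𝔣 : Ideal (𝓞 K)} (htop : 𝔣 ≠ ⊤)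
    {ψ : Ideal (𝓞 K) →*₀ ℂ} (h : Pool.Agent.Y773.G.IsPrimChar K 𝔣 ψ) {𝔞 : Ideal (𝓞 K)}
    (h𝔞 : IsCoprime 𝔞 𝔣) : ‖ψ 𝔞‖ = 1 := by
  have hn := h.norm_le_one Pool.Agent.Y772.G.t_sig
  obtain ⟨x, 𝔠, hx1, hx2, hx3⟩ := exists_mem_one h𝔞
  have h1 := h.ray x (ne_zero_of_cop htop (cop_one hx1)) hx1 (tpos_all x)
  rw [hx2, map_mul] at h1
  have h2 := congrArg norm h1
  rw [norm_mul, norm_one] at h2
  have h3 := hn 𝔞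
  have h4 := hn 𝔠
  have h5 := norm_nonneg (ψ 𝔞)
  have h6 := norm_nonneg (ψ 𝔠)
  nlinarith

open Classical in
lemma norm_PC [IsTotallyComplex K] {𝔣 : Ideal (𝓞 K)} (hbot : 𝔣 ≠ ⊥) (htop : 𝔣 ≠ ⊤)
    {ψ : Ideal (𝓞 K) →*₀ ℂ} (hψ : ψ ∈ PC 𝔣) (𝔞 : Ideal (𝓞 K)) :
    ‖ψ 𝔞‖ = if 𝔞 ≠ ⊥ ∧ IsCoprime 𝔞 𝔣 then 1 else 0 := by
  have h := (mem_PC hbot htop).mp hψ
  split_ifs with h1
  · exact norm_one_of_cop htop h h1.2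
  · rw [norm_eq_zero]
    by_cases h0 : 𝔞 = ⊥
    · rw [h0, ← Ideal.zero_eq_bot, map_zero]
    · by_contra h2
      exact h1 ⟨h0, (h.supp 𝔞 h0).mp h2⟩

lemma one_le_nm {𝔞 : Ideal (𝓞 K)} (h : 𝔞 ≠ ⊥) : 1 ≤ nm 𝔞 := by
  unfold nm
  exact_mod_cast Pool.Agent.Y773.IQ.absNorm_pos' h

open Classical in
lemma summ_ok (𝔣 : Ideal (𝓞 K)) {η : ℝ} (hη : 0 < η) :
    Summable (fun x : Ideal (𝓞 K) => if x ≠ ⊥ ∧ IsCoprime x 𝔣 then nm x ^ (-1 - η) else 0) := by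
  have hs := Pool.Agent.Y772.DK.nr_summable (K := K) (σ := 1 + η) (by linarith)
  refine Summable.of_nonneg_of_le (fun x => ?_) (fun x => ?_) hs
  · split_ifs
    · exact Real.rpow_nonneg (Nat.cast_nonneg _) _
    · exact le_rfl
  · split_ifs
    · unfold Pool.Agent.Y772.DK.nr nm
      apply le_of_eq
      congr 1
      ring
    · exact Pool.Agent.Y772.DK.nr_nonneg K _ x

open Classical in
/-- the bilinear estimate for the primitive characters of conductor `𝔣` -/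
theorem bil_K (hbil : St_BIL) [IsTotallyComplex K] {𝔣 : Ideal (𝓞 K)} (hbot : 𝔣 ≠ ⊥)
    (htop : 𝔣 ≠ ⊤) {η C₁ : ℝ} (hη : 0 < η) (hC₁ : 0 ≤ C₁)
    (hod : ∀ S : Finset (Ideal (𝓞 K) × Ideal (𝓞 K)), (∀ p ∈ S, p.1 ≠ ⊥ ∧ p.2 ≠ ⊥ ∧
      IsCoprime p.1 𝔣 ∧ IsCoprime p.2 𝔣 ∧ p.1 ≠ p.2) →
      ∑ p ∈ S, ‖WW 𝔣 p.1 p.2‖ * (nm p.1 * nm p.2) ^ (-1 - η) ≤ C₁)
    (a b : Ideal (𝓞 K) → ℂ) {Ca Cb : ℝ} (hCa : 0 ≤ Ca) (hCb : 0 ≤ Cb)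
    (ha : ∀ 𝔲, 𝔲 ≠ ⊥ → ‖a 𝔲‖ ≤ Ca * nm 𝔲 ^ (-1 - η))
    (hb : ∀ 𝔲, 𝔲 ≠ ⊥ → ‖b 𝔲‖ ≤ Cb * nm 𝔲 ^ (-1 - η)) :
    ‖∑ ψ ∈ PC 𝔣, (∑' 𝔲, ψ 𝔲 * a 𝔲) * (starRingEnd ℂ) (∑' 𝔲, ψ 𝔲 * b 𝔲) -
      ((PC 𝔣).card : ℂ) * ∑' 𝔲 : Ideal (𝓞 K), (if 𝔲 ≠ ⊥ ∧ IsCoprime 𝔲 𝔣 then
        a 𝔲 * (starRingEnd ℂ) (b 𝔲) else 0)‖ ≤ Ca * Cb * C₁ := by
  have hinj : Set.InjOn (fun (ψ : Ideal (𝓞 K) →*₀ ℂ) => (ψ : Ideal (𝓞 K) → ℂ)) (PC 𝔣) :=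
    fun ψ _ ψ' _ h => DFunLike.coe_injective h
  have h := hbil (Ideal (𝓞 K)) ((PC 𝔣).image
    (fun (ψ : Ideal (𝓞 K) →*₀ ℂ) => (ψ : Ideal (𝓞 K) → ℂ))) nm
    (fun 𝔲 => 𝔲 ≠ ⊥ ∧ IsCoprime 𝔲 𝔣) C₁ η hC₁ (by
      intro φ hφ x
      obtain ⟨ψ, hψ, rfl⟩ := Finset.mem_image.mp hφ
      convert norm_PC hbot htop hψ x) (fun x hx => one_le_nm hx.1)
    (by convert summ_ok 𝔣 hη) (by
      intro S hS
      refine le_trans (le_of_eq ?_) (hod S (fun p hp => ?_))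
      · refine Finset.sum_congr rfl fun p _ => ?_
        rw [Finset.sum_image hinj]
        rfl
      · obtain ⟨h1, h2, h3⟩ := hS p hp
        exact ⟨h1.1, h2.1, h1.2, h2.2, h3⟩) a b Ca Cb hCa hCb (fun x hx => ha x hx.1)
      (fun x hx => hb x hx.1)
  rw [Finset.sum_image hinj, Finset.card_image_of_injOn hinj] at h
  convert h using 6
  split_ifs <;> rfl

end

end Pool.Agent.Y773.NV
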