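import Pool.Agent.Y773.NV.St1
import Pool.Agent.Y773.AB.Hfn
import Pool.Agent.H484R2.Zeta

/-! # The Dedekind zeta function: continuation, growth, residue; Euler factors -/

set_option autoImplicit false
set_option linter.unusedSectionVars false

open Complex MeasureTheory NumberField Filter Topology

namespace Pool.Agent.Y773.NV

open Pool.Agent.Y773 (LI)
open Pool.Agent.Y773.AB (res res_cop res_not LI_res Ef Ef_eq Ef_ne Ef_diff fin_pr fac_ne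
  norm_prime_ge m0 m0_top m0_bot base_mod psiC psiC_apply)

section

variable {K : Type} [Field K] [NumberField K]

open Classical in
lemma ch_pos {𝔣 𝔞 : Ideal (𝓞 K)} (h : 𝔞 ≠ ⊥) (h1 : IsCoprime 𝔞 𝔣) : ch 𝔣 𝔞 = 1 := by
  change (if 𝔞 ≠ ⊥ ∧ IsCoprime 𝔞 𝔣 then (1 : ℂ) else 0) = 1
  rw [if_pos ⟨h, h1⟩]

open Classical in
lemma ch_neg {𝔣 𝔞 : Ideal (𝓞 K)} (h : ¬ (𝔞 ≠ ⊥ ∧ IsCoprime 𝔞 𝔣)) : ch 𝔣 𝔞 = 0 := by
  change (if 𝔞 ≠ ⊥ ∧ IsCoprime 𝔞 𝔣 then (1 : ℂ) else 0) = 0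
  rw [if_neg h]

lemma cop_top (𝔞 : Ideal (𝓞 K)) : IsCoprime 𝔞 ⊤ := by
  rw [Ideal.isCoprime_iff_sup_eq]; exact sup_top_eq _

lemma ch_norm (𝔣 𝔞 : Ideal (𝓞 K)) : ‖ch 𝔣 𝔞‖ ≤ 1 := by
  by_cases h : 𝔞 ≠ ⊥ ∧ IsCoprime 𝔞 𝔣
  · rw [ch_pos h.1 h.2, norm_one]
  · rw [ch_neg h, norm_zero]; exact zero_le_one

lemma psiC_one : psiC (1 : ClassGroup (𝓞 K) →* ℂˣ) = ch ⊤ := by
  ext 𝔞
  by_cases h : 𝔞 = ⊥
  · rw [h, ← Ideal.zero_eq_bot, map_zero, map_zero]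
  · rw [psiC_apply _ h, ch_pos h (cop_top _), MonoidHom.one_apply, Units.val_one]

lemma res_ch {𝔣 : Ideal (𝓞 K)} (htop : 𝔣 ≠ ⊤) : res 𝔣 htop (ch ⊤) = ch 𝔣 := by
  ext 𝔞
  by_cases h : IsCoprime 𝔞 𝔣
  · rw [res_cop htop _ h]
    by_cases h0 : 𝔞 = ⊥
    · rw [h0, ← Ideal.zero_eq_bot, map_zero, map_zero]
    · rw [ch_pos h0 (cop_top _), ch_pos h0 h]
  · rw [res_not htop _ h, ch_neg (fun h1 => h h1.2)]

lemma Ef_ch {𝔣 : Ideal (𝓞 K)} (h : 𝔣 ≠ ⊥) (s : ℂ) : Ef 𝔣 (ch ⊤) s =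
    ∏ᶠ 𝔭 ∈ {𝔭 : Ideal (𝓞 K) | Prime 𝔭 ∧ 𝔭 ∣ 𝔣}, (1 - ((nm 𝔭 : ℝ) : ℂ) ^ (-s)) := by
  have hfin : {𝔭 : Ideal (𝓞 K) | Prime 𝔭 ∧ 𝔭 ∣ 𝔣}.Finite :=
    (Pool.Agent.Y772.DK.finite_dvd h).subset fun 𝔭 h1 => h1.2
  rw [Ef_eq h, finprod_mem_eq_finite_toFinset_prod _ hfin]
  refine Finset.prod_bij (fun 𝔭 _ => (𝔭 : Ideal (𝓞 K))) ?_ ?_ ?_ ?_
  · intro 𝔭 h𝔭
    rw [Set.Finite.mem_toFinset] at h𝔭 ⊢
    exact ⟨𝔭.2, h𝔭⟩
  · intro a _ b _ hab
    exact Subtype.ext hab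
  · intro 𝔭 h𝔭
    rw [Set.Finite.mem_toFinset] at h𝔭
    exact ⟨⟨𝔭, h𝔭.1⟩, by rw [Set.Finite.mem_toFinset]; exact h𝔭.2, rfl⟩
  · intro 𝔭 _
    rw [ch_pos 𝔭.2.ne_zero (cop_top _), one_mul]
    unfold nm
    rw [Complex.ofReal_natCast]

theorem t_lir : St_LIR := by
  intro K _ _ 𝔣 s h𝔣 hs
  by_cases htop : 𝔣 = ⊤
  · subst htop
    have : {𝔭 : Ideal (𝓞 K) | Prime 𝔭 ∧ 𝔭 ∣ (⊤ : Ideal (𝓞 K))} = ∅ := by
      rw [Set.eq_empty_iff_forall_notMem]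
      rintro 𝔭 ⟨h1, h2⟩
      rw [← Ideal.one_eq_top] at h2
      exact h1.not_dvd_one h2
    rw [this, finprod_mem_empty, mul_one]
  · rw [← Ef_ch h𝔣, ← LI_res h𝔣 htop (ch_norm ⊤) hs, res_ch htop]

/-- the series over the ideals is the Dedekind zeta function -/
lemma LI_ch_top {s : ℂ} (hs : 1 < s.re) : LI (ch (⊤ : Ideal (𝓞 K))) s = dedekindZeta K s := by
  rw [Pool.Agent.H484R2.zeta_eq K hs, ← (Pool.Agent.H484R2.hasSum_ideals K hs).tsum_eq]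
  unfold LI
  have h2 : Function.support (fun 𝔞 : Ideal (𝓞 K) => ch ⊤ 𝔞 * ((Ideal.absNorm 𝔞 : ℕ) : ℂ) ^ (-s)) ⊆
      {𝔞 | 𝔞 ≠ ⊥} := by
    intro 𝔞 h
    rw [Function.mem_support] at h
    intro h0
    apply h
    rw [h0, ← Ideal.zero_eq_bot, map_zero, zero_mul]
  rw [← tsum_subtype_eq_of_support_subset h2]
  refine tsum_congr fun I => ?_
  rw [ch_pos I.2 (cop_top _), one_mul]

theorem t_zb : St_ZB := by
  classical
  intro K _ _
  obtain ⟨e, he⟩ := base_mod (K := K) 1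
  obtain ⟨H, hH, hHL, M, hM, hst⟩ := G.LI_mero he
  rw [psiC_one] at hHL
  have hE := Ef_diff (m0_bot (K := K)) (ch ⊤)
  have hEne : ∀ s : ℂ, 0 < s.re → Ef (m0 K) (ch ⊤) s ≠ 0 := fun s hs =>
    Ef_ne m0_bot (ch_norm ⊤) hs
  obtain ⟨Z, hZ⟩ : ∃ Z : ℂ → ℂ, ∀ s, Z s = H s / Ef (m0 K) (ch ⊤) s := ⟨_, fun _ => rfl⟩
  have hZd : ∀ s : ℂ, 0 < s.re → DifferentiableAt ℂ Z s := by
    intro s hs
    have : Z = fun s => H s / Ef (m0 K) (ch ⊤) s := funext hZ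
    rw [this]
    exact (hH s).div (hE s) (hEne s hs)
  have hZL : ∀ s : ℂ, 1 < s.re → Z s = (s - 1) * LI (ch (⊤ : Ideal (𝓞 K))) s := by
    intro s hs
    rw [hZ, hHL s hs, LI_res m0_bot m0_top (ch_norm ⊤) hs]
    have := hEne s (by linarith)
    field_simp
  -- lower bound for the Euler factor
  obtain ⟨c0, hc0, hEl⟩ : ∃ c0 : ℝ, 0 < c0 ∧ ∀ s : ℂ, 3 / 4 ≤ s.re → c0 ≤ ‖Ef (m0 K) (ch ⊤) s‖ := by
    have hb : (0 : ℝ) < 1 - 2 ^ (-(3 / 4) : ℝ) := by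
      have : (2 : ℝ) ^ (-(3 / 4) : ℝ) < 1 :=
        Real.rpow_lt_one_of_one_lt_of_neg (by norm_num) (by norm_num)
      linarith
    refine ⟨(1 - 2 ^ (-(3 / 4) : ℝ)) ^ (fin_pr (m0_bot (K := K))).toFinset.card, by positivity, ?_⟩
    intro s hs
    rw [Ef_eq m0_bot, norm_prod]
    rw [← Finset.prod_const]
    refine Finset.prod_le_prod (fun _ _ => hb.le) fun 𝔭 _ => ?_
    have h2 := norm_prime_ge 𝔭.2
    rw [ch_pos 𝔭.2.ne_zero (cop_top _), one_mul]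
    have h3 : ‖((Ideal.absNorm (𝔭 : Ideal (𝓞 K)) : ℕ) : ℂ) ^ (-s)‖ ≤ 2 ^ (-(3 / 4) : ℝ) := by
      rw [Complex.norm_natCast_cpow_of_pos (by omega), neg_re]
      have h4 : (2 : ℝ) ≤ ((Ideal.absNorm (𝔭 : Ideal (𝓞 K)) : ℕ) : ℝ) := by exact_mod_cast h2
      calc ((Ideal.absNorm (𝔭 : Ideal (𝓞 K)) : ℕ) : ℝ) ^ (-s.re)
          ≤ (2 : ℝ) ^ (-s.re) := Real.rpow_le_rpow_of_nonpos (by norm_num) h4 (by linarith)
        _ ≤ 2 ^ (-(3 / 4) : ℝ) := Real.rpow_le_rpow_of_exponent_le (by norm_num) (by linarith)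
    have h5 := norm_sub_norm_le (1 : ℂ) (((Ideal.absNorm (𝔭 : Ideal (𝓞 K)) : ℕ) : ℂ) ^ (-s))
    rw [norm_one] at h5
    linarith
  -- the compact part
  obtain ⟨C1, hC1⟩ : ∃ C1 : ℝ, ∀ s : ℂ, 3 / 4 ≤ s.re → s.re ≤ 3 → |s.im| ≤ 2 → ‖Z s‖ ≤ C1 := by
    have hcomp : IsCompact ((Set.Icc (3 / 4 : ℝ) 3) ×ℂ (Set.Icc (-2 : ℝ) 2)) :=
      isCompact_Icc.reProdIm isCompact_Icc
    obtain ⟨C1, hC1⟩ := hcomp.exists_bound_of_continuousOn (f := Z) (fun s hs =>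
      (hZd s (by
        have := (Complex.mem_reProdIm.mp hs).1.1
        linarith)).continuousAt.continuousWithinAt)
    refine ⟨C1, fun s h1 h2 h3 => hC1 s (Complex.mem_reProdIm.mpr ⟨⟨h1, h2⟩, ?_⟩)⟩
    exact abs_le.mp h3
  -- the part to the right
  have hn0 : ∀ s : ℂ, 3 / 2 ≤ s.re → ‖LI (ch (⊤ : Ideal (𝓞 K))) s‖ ≤
      ∑' 𝔞, Pool.Agent.Y772.DK.nr K (3 / 2) 𝔞 := fun s hs =>
    Pool.Agent.Y772.DK.LA_le (K := K) (a := ch ⊤) (map_zero _) (ch_norm ⊤) (σ := 3 / 2)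
      (by norm_num) hs
  obtain ⟨C2, hC2, hC2'⟩ : ∃ C2 : ℝ, 0 ≤ C2 ∧ ∀ s : ℂ, 3 / 2 ≤ s.re →
      ‖LI (ch (⊤ : Ideal (𝓞 K))) s‖ ≤ C2 := by
    refine ⟨∑' 𝔞, Pool.Agent.Y772.DK.nr K (3 / 2) 𝔞,
      tsum_nonneg fun 𝔞 => Pool.Agent.Y772.DK.nr_nonneg K _ 𝔞, fun s hs => hn0 s hs⟩
  have hexp1 : ∀ x : ℝ, 0 ≤ x → x + 5 ≤ 5 * Real.exp x := by
    intro x hx
    have := Real.add_one_le_exp x
    nlinarith
  set A : ℝ := Fintype.card (K →+* ℂ) * Real.pi + 1 with hA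
  have hA0 : 1 ≤ A := by
    have : (0 : ℝ) ≤ Fintype.card (K →+* ℂ) * Real.pi := by positivity
    linarith
  refine ⟨A, 1 + |C1| + 5 * C2 + 5 * M / c0, Z, by linarith, ?_, fun s hs =>
    (hZd s (by have : 1 / 2 < s.re := hs; linarith)).differentiableWithinAt, hZL, ?_, ?_, ?_⟩
  · have : 0 ≤ 5 * M / c0 := by positivity
    have := abs_nonneg C1
    linarith
  · intro s h1 h2
    have hE1 : 1 ≤ Real.exp (A * |s.im|) := Real.one_le_exp (by positivity)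
    have hp : 0 ≤ 5 * M / c0 := by positivity
    have hs1 : ‖s‖ ≤ 3 + |s.im| := by
      refine (Complex.norm_le_abs_re_add_abs_im s).trans ?_
      rw [abs_of_nonneg (by linarith : 0 ≤ s.re)]
      linarith
    rcases le_or_gt |s.im| 2 with h3 | h3
    · have h4 := (hC1 s h1 h2 h3).trans (le_abs_self C1)
      calc ‖Z s‖ ≤ |C1| * 1 := by linarith
        _ ≤ (1 + |C1| + 5 * C2 + 5 * M / c0) * Real.exp (A * |s.im|) := by
            refine mul_le_mul ?_ hE1 zero_le_one (by positivity)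
            linarith
    · rcases le_or_gt s.re (3 / 2) with h4 | h4
      · have h5 := hst s (by linarith) h4 h3.le
        have h6 := hEl s h1
        have h7 : ‖Z s‖ ≤ M * (‖s‖ + 2) * Real.exp (Fintype.card (K →+* ℂ) * Real.pi * |s.im|) / c0 := by
          rw [hZ, norm_div]
          exact div_le_div₀ (by positivity) h5 hc0 h6
        have h8 : ‖s‖ + 2 ≤ 5 * Real.exp |s.im| := by
          have := hexp1 |s.im| (abs_nonneg _)
          linarith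
        have h9 : M * (‖s‖ + 2) * Real.exp (Fintype.card (K →+* ℂ) * Real.pi * |s.im|) ≤
            M * (5 * Real.exp |s.im|) * Real.exp (Fintype.card (K →+* ℂ) * Real.pi * |s.im|) := by
          gcongr
        have h10 : M * (5 * Real.exp |s.im|) * Real.exp (Fintype.card (K →+* ℂ) * Real.pi * |s.im|) =
            5 * M * Real.exp (A * |s.im|) := by
          rw [hA, add_mul, Real.exp_add, one_mul]
          ring
        calc ‖Z s‖ ≤ _ := h7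
          _ ≤ 5 * M * Real.exp (A * |s.im|) / c0 := by
              rw [← h10]; gcongr
          _ = (5 * M / c0) * Real.exp (A * |s.im|) := by ring
          _ ≤ _ := by
              refine mul_le_mul_of_nonneg_right ?_ (Real.exp_nonneg _)
              have := abs_nonneg C1
              linarith
      · rw [hZL s (by linarith), norm_mul]
        have h5 := hC2' s h4.le
        have h6 : ‖s - 1‖ ≤ 5 * Real.exp (A * |s.im|) := by
          refine (norm_sub_le _ _).trans ?_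
          rw [norm_one]
          have h7 := hexp1 |s.im| (abs_nonneg _)
          have h8 : Real.exp |s.im| ≤ Real.exp (A * |s.im|) := by
            apply Real.exp_le_exp.mpr
            have := abs_nonneg s.im
            nlinarith
          linarith
        calc ‖s - 1‖ * ‖LI (ch (⊤ : Ideal (𝓞 K))) s‖ ≤ 5 * Real.exp (A * |s.im|) * C2 :=
              mul_le_mul h6 h5 (norm_nonneg _) (by positivity)
          _ = (5 * C2) * Real.exp (A * |s.im|) := by ring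
          _ ≤ _ := by
              refine mul_le_mul_of_nonneg_right ?_ (Real.exp_nonneg _)
              have := abs_nonneg C1
              linarith
  · -- the value at 1
    have h1 := NumberField.tendsto_sub_one_mul_dedekindZeta_nhdsGT K
    have h2 : Tendsto (fun x : ℝ => Z (x : ℂ)) (𝓝[>] 1) (𝓝 (Z 1)) := by
      have h3 : ContinuousAt Z ((1 : ℝ) : ℂ) := (hZd _ (by norm_num)).continuousAt
      have h4 : Tendsto (fun x : ℝ => (x : ℂ)) (𝓝[>] 1) (𝓝 ((1 : ℝ) : ℂ)) :=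
        (Complex.continuous_ofReal.tendsto 1).mono_left nhdsWithin_le_nhds
      have h5 := h3.tendsto.comp h4
      rw [Complex.ofReal_one] at h5
      exact h5
    refine tendsto_nhds_unique h2 ?_
    refine Tendsto.congr' ?_ h1
    filter_upwards [self_mem_nhdsWithin] with x hx
    rw [hZL _ (by simpa using hx), LI_ch_top (by simpa using hx)]
  · exact NumberField.dedekindZeta_residue_pos K

end

end Pool.Agent.Y773.NV
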