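import Pool.Agent.Y773.NV.Kap
import Pool.Agent.Y773.NV.Zb
import Pool.Agent.Y773.NV.Div
import Pool.Agent.Y185.NV.Res
import Pool.Agent.Y462.NV.Sel
import Pool.Agent.Y165.NV.Sel2
import Pool.Agent.Y421.NV.Bil
import Pool.Agent.Y279.NV.Gam
import Pool.Agent.Y961.NV.Afe
import Pool.Agent.Y165.NV.Dual
import Pool.Agent.Y960.NV.Ort
import Pool.Agent.Y340.NV.Cnt
import Pool.Agent.Y977.NV.OD
import Pool.Agent.Y888.NV.Mer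
import Pool.Agent.Y419.NV.Har
import Pool.Agent.Y474.NV.Smo
import Pool.Agent.Y210.NV.ZE
import Pool.Agent.Y448.NV.Exp
import Pool.Agent.Y419.NV.Expb
import Pool.Agent.Y871.NV.Diag

/-! # A third of the characters of a given conductor -/

set_option autoImplicit false
set_option linter.unusedSectionVars false

open Complex MeasureTheory NumberField Filter Topology

namespace Pool.Agent.Y773.NV

open Pool.Agent.Y773 (LI FEd)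
open Pool.Agent.Y773.IQ (LL LL_eq)

theorem u_exp : St_EXP := Pool.Agent.Y448.NV.t_exp Pool.Agent.Y462.NV.Sel.t_sel t_div
theorem u_expb : St_EXPB := Pool.Agent.Y419.NV.t_expb Pool.Agent.Y462.NV.Sel.t_sel t_div
theorem u_od : St_OD :=
  Pool.Agent.Y977.NV.t_od Pool.Agent.Y960.NV.t_ort Pool.Agent.Y340.NV.t_cnt t_div
theorem u_zeta : St_ZETA := Pool.Agent.Y210.NV.t_ze t_zb t_lir t_div
theorem u_afe : St_AFE :=
  Pool.Agent.Y961.NV.t_afe Pool.Agent.Y185.NV.t_res Pool.Agent.Y185.NV.t_shift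
    Pool.Agent.Y279.NV.t_gam
theorem u_kap : St_KAP := t_kap Pool.Agent.Y419.NV.t_har Pool.Agent.Y474.NV.t_smo

/-- the first moment -/
theorem fm' (K : Type) [Field K] [NumberField K] [IsTotallyComplex K]
    (h2 : Module.finrank ℚ K = 2) (B d : ℝ) (hd : 0 < d) (hd2 : d ≤ 1 / 8) :
    ∃ C : ℝ, 0 ≤ C ∧ ∀ 𝔣 : Ideal (𝓞 K), 𝔣 ≠ ⊥ → 𝔣 ≠ ⊤ →
      nm 𝔣 ^ (1 - d / 8) ≤ ((PC 𝔣).card : ℝ) → ∀ t : ℝ, |t| ≤ B →
      ‖∑ ψ ∈ PC 𝔣, LL K ψ (hp t) * mol 𝔣 (nm 𝔣 ^ (1 / 2 - d)) t ψ - ((PC 𝔣).card : ℂ)‖ ≤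
        C * nm 𝔣 ^ (-(d / 8)) * ((PC 𝔣).card : ℝ) :=
  fm Pool.Agent.Y185.NV.t_int Pool.Agent.Y185.NV.t_res u_exp Pool.Agent.Y421.NV.t_bil u_expb
    u_od Pool.Agent.Y165.NV.t_dual K h2 B d hd hd2

/-- the second moment -/
theorem sm' (K : Type) [Field K] [NumberField K] [IsTotallyComplex K]
    (h2 : Module.finrank ℚ K = 2) (B d τ : ℝ) (hd : 0 < d) (hd2 : d ≤ 1 / 8) (hτ : 0 < τ) :
    ∃ C N₀ : ℝ, 0 ≤ C ∧ 2 ≤ N₀ ∧ ∀ 𝔣 : Ideal (𝓞 K), 𝔣 ≠ ⊥ → 𝔣 ≠ ⊤ → N₀ ≤ nm 𝔣 →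
      nm 𝔣 ^ (1 - d / 8) ≤ ((PC 𝔣).card : ℝ) → ∀ t : ℝ, |t| ≤ B →
      ∑ ψ ∈ PC 𝔣, ‖LL K ψ (hp t) * mol 𝔣 (nm 𝔣 ^ (1 / 2 - d)) t ψ‖ ^ 2 ≤
        ((1 + τ) * ((1 + 2 * τ) / (1 / 2 - d) + (1 + τ) + C / Real.log (nm 𝔣)) +
          C * nm 𝔣 ^ (-(d / 8))) * ((PC 𝔣).card : ℝ) :=
  sm Pool.Agent.Y185.NV.t_int Pool.Agent.Y185.NV.t_res u_afe u_exp Pool.Agent.Y421.NV.t_bil u_expb
    (Pool.Agent.Y871.NV.t_diag t_div) Pool.Agent.Y462.NV.Sel.t_sel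
    (Pool.Agent.Y165.NV.t_sel2 Pool.Agent.Y462.NV.Sel.t_sel) Pool.Agent.Y279.NV.t_gam u_kap
    (Pool.Agent.Y888.NV.t_mer' t_div) u_zeta u_od K h2 B d τ hd hd2 hτ

/-- Cauchy-Schwarz -/
lemma cs_count {ι : Type} (s : Finset ι) (f g : ι → ℂ) {A : ℝ}
    (hA : ∑ i ∈ s, ‖f i * g i‖ ^ 2 ≤ A) :
    ‖∑ i ∈ s, f i * g i‖ ^ 2 ≤ ({i ∈ s | f i ≠ 0}.card : ℝ) * A := by
  classical
  have h1 : ∑ i ∈ s, f i * g i = ∑ i ∈ s.filter (fun i => f i ≠ 0), f i * g i := by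
    rw [Finset.sum_filter]
    refine Finset.sum_congr rfl fun i _ => ?_
    split_ifs with h
    · rfl
    · push Not at h
      rw [h, zero_mul]
  have h2 : ‖∑ i ∈ s, f i * g i‖ ≤ ∑ i ∈ s.filter (fun i => f i ≠ 0), 1 * ‖f i * g i‖ := by
    rw [h1]
    refine (norm_sum_le _ _).trans (le_of_eq ?_)
    simp only [one_mul]
  have h3 := Finset.sum_mul_sq_le_sq_mul_sq (s.filter (fun i => f i ≠ 0)) (fun _ => (1 : ℝ))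
    (fun i => ‖f i * g i‖)
  have h4 : ‖∑ i ∈ s, f i * g i‖ ^ 2 ≤
      (∑ i ∈ s.filter (fun i => f i ≠ 0), 1 * ‖f i * g i‖) ^ 2 :=
    pow_le_pow_left₀ (norm_nonneg _) h2 2
  refine h4.trans (h3.trans ?_)
  have h5 : ∑ i ∈ s.filter (fun i => f i ≠ 0), (1 : ℝ) ^ 2 =
      ({i ∈ s | f i ≠ 0}.card : ℝ) := by
    simp
  rw [h5]
  refine mul_le_mul_of_nonneg_left ?_ (Nat.cast_nonneg _)
  refine le_trans ?_ hA
  exact Finset.sum_le_sum_of_subset_of_nonneg (Finset.filter_subset _ _)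
    fun _ _ _ => sq_nonneg _

/-- numbers -/
lemma num1 {e : ℝ} (he : 0 < e) (he2 : e ≤ 1 / 8) :
    (1 + e / 40) * ((1 + 2 * (e / 40)) / (1 / 2 - e) + (1 + e / 40) + e / 40) + e / 40 ≤
      3 + 9 * e := by
  have h1 : (1 + 2 * (e / 40)) / (1 / 2 - e) ≤ (1 + 2 * (e / 40)) * (2 + 11 / 2 * e) := by
    rw [div_le_iff₀ (by linarith)]
    have : 1 ≤ (2 + 11 / 2 * e) * (1 / 2 - e) := by nlinarith
    nlinarith
  have h2 : (1 + 2 * (e / 40)) / (1 / 2 - e) + (1 + e / 40) + e / 40 ≤ 3 + 6 * e := by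
    refine le_trans (add_le_add_left (add_le_add_left h1 _) _) ?_
    nlinarith
  have h3 := mul_le_mul_of_nonneg_left h2 (show 0 ≤ 1 + e / 40 by linarith)
  nlinarith

lemma num2 {e x S2 c S1 : ℝ} (he : 0 < e) (he2 : e ≤ 1 / 8) (hc : 0 < c)
    (h1 : (1 - e) * c ≤ S1) (h2 : S1 ^ 2 ≤ x * S2) (h3 : S2 ≤ (3 + 9 * e) * c) (hx : 0 ≤ x) :
    (1 / 3 - 2 * e) * c ≤ x := by
  have h4 : ((1 - e) * c) ^ 2 ≤ S1 ^ 2 :=
    pow_le_pow_left₀ (mul_nonneg (by linarith) hc.le) h1 2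
  have h5 : ((1 - e) * c) ^ 2 ≤ x * ((3 + 9 * e) * c) :=
    h4.trans (h2.trans (mul_le_mul_of_nonneg_left h3 hx))
  have h6 : (1 - e) ^ 2 * c ≤ x * (3 + 9 * e) := by
    have h7 : c * ((1 - e) ^ 2 * c) ≤ c * (x * (3 + 9 * e)) := by nlinarith
    exact le_of_mul_le_mul_left h7 hc
  have h8 : (1 / 3 - 2 * e) * (3 + 9 * e) ≤ (1 - e) ^ 2 := by nlinarith
  have h9 : (1 / 3 - 2 * e) * c * (3 + 9 * e) ≤ x * (3 + 9 * e) := by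
    calc _ = (1 / 3 - 2 * e) * (3 + 9 * e) * c := by ring
      _ ≤ (1 - e) ^ 2 * c := mul_le_mul_of_nonneg_right h8 hc.le
      _ ≤ _ := h6
  exact le_of_mul_le_mul_right h9 (by linarith)

open Classical in
/-- **a third of the characters of conductor `𝔣`** -/
theorem cond (K : Type) [Field K] [NumberField K] [IsTotallyComplex K]
    (h2 : Module.finrank ℚ K = 2) (B ε : ℝ) (hε : 0 < ε) :
    ∃ d N₀ : ℝ, 0 < d ∧ d ≤ 1 / 8 ∧ 2 ≤ N₀ ∧ ∀ 𝔣 : Ideal (𝓞 K), 𝔣 ≠ ⊥ → 𝔣 ≠ ⊤ → N₀ ≤ nm 𝔣 →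
      nm 𝔣 ^ (1 - d / 8) ≤ ((PC 𝔣).card : ℝ) → ∀ t : ℝ, |t| ≤ B →
      (1 / 3 - ε) * ((PC 𝔣).card : ℝ) ≤ ({ψ ∈ PC 𝔣 | LL K ψ (hp t) ≠ 0}.card : ℝ) := by
  obtain ⟨e, he⟩ : ∃ e, e = min (ε / 2) (1 / 8) := ⟨_, rfl⟩
  have he0 : 0 < e := by rw [he]; exact lt_min (by linarith) (by norm_num)
  have he1 : e ≤ ε / 2 := by rw [he]; exact min_le_left _ _
  have he2 : e ≤ 1 / 8 := by rw [he]; exact min_le_right _ _
  obtain ⟨C1, hC1, hF⟩ := fm' K h2 B e he0 he2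
  obtain ⟨C2, N₁, hC2, hN₁, hS⟩ := sm' K h2 B e (e / 40) he0 he2 (by linarith)
  -- the error terms
  have hlim1 : Tendsto (fun n : ℝ => C2 / Real.log n) atTop (𝓝 0) :=
    Filter.Tendsto.div_atTop tendsto_const_nhds Real.tendsto_log_atTop
  have hpow : Tendsto (fun n : ℝ => n ^ (-(e / 8))) atTop (𝓝 0) :=
    tendsto_rpow_neg_atTop (by linarith)
  have hlim2 : Tendsto (fun n : ℝ => C2 * n ^ (-(e / 8))) atTop (𝓝 0) := by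
    simpa using hpow.const_mul C2
  have hlim3 : Tendsto (fun n : ℝ => C1 * n ^ (-(e / 8))) atTop (𝓝 0) := by
    simpa using hpow.const_mul C1
  have hev : ∀ᶠ n : ℝ in atTop, C2 / Real.log n ≤ e / 40 ∧ C2 * n ^ (-(e / 8)) ≤ e / 40 ∧
      C1 * n ^ (-(e / 8)) ≤ e := by
    refine (hlim1.eventually_le_const (by linarith)).and
      ((hlim2.eventually_le_const (by linarith)).and (hlim3.eventually_le_const he0))
  obtain ⟨N₂, hN₂⟩ := eventually_atTop.mp hev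
  refine ⟨e, max N₁ N₂, he0, he2, hN₁.trans (le_max_left _ _),
    fun 𝔣 hbot htop hN hcard t ht => ?_⟩
  obtain ⟨l1, l2, l3⟩ := hN₂ (nm 𝔣) ((le_max_right _ _).trans hN)
  have hF' := hF 𝔣 hbot htop hcard t ht
  have hS' := hS 𝔣 hbot htop ((le_max_left _ _).trans hN) hcard t ht
  have hcs := cs_count (PC 𝔣) (fun ψ => LL K ψ (hp t))
    (fun ψ => mol 𝔣 (nm 𝔣 ^ (1 / 2 - e)) t ψ) hS'
  have hn2 : 2 ≤ nm 𝔣 := hN₁.trans ((le_max_left _ _).trans hN)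
  obtain ⟨c, hc⟩ : ∃ c, c = ((PC 𝔣).card : ℝ) := ⟨_, rfl⟩
  have hc0 : 0 < c := by
    rw [hc]
    exact lt_of_lt_of_le (Real.rpow_pos_of_pos (by linarith) _) hcard
  have hcc : ((PC 𝔣).card : ℂ) = (c : ℂ) := by rw [hc]; norm_cast
  rw [hcc] at hF'
  rw [← hc] at hF' hcs ⊢
  obtain ⟨S1, hS1⟩ : ∃ S1, S1 = ∑ ψ ∈ PC 𝔣, LL K ψ (hp t) * mol 𝔣 (nm 𝔣 ^ (1 / 2 - e)) t ψ :=
    ⟨_, rfl⟩
  rw [← hS1] at hF' hcs
  have g1 : (1 - e) * c ≤ ‖S1‖ := by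
    have h3 : ‖(c : ℂ)‖ = c := by rw [Complex.norm_real, Real.norm_of_nonneg hc0.le]
    have h4 : ‖(c : ℂ)‖ ≤ ‖S1‖ + ‖S1 - (c : ℂ)‖ := by
      calc ‖(c : ℂ)‖ = ‖S1 - (S1 - (c : ℂ))‖ := by congr 1; ring
        _ ≤ _ := norm_sub_le _ _
    rw [h3] at h4
    have h5 := mul_le_mul_of_nonneg_right l3 hc0.le
    linarith
  have g3 : ((1 + e / 40) * ((1 + 2 * (e / 40)) / (1 / 2 - e) + (1 + e / 40) +
      C2 / Real.log (nm 𝔣)) + C2 * nm 𝔣 ^ (-(e / 8))) * c ≤ (3 + 9 * e) * c := by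
    refine mul_le_mul_of_nonneg_right (le_trans ?_ (num1 he0 he2)) hc0.le
    gcongr
  have g4 := num2 he0 he2 hc0 g1 hcs g3 (Nat.cast_nonneg _)
  refine le_trans ?_ g4
  exact mul_le_mul_of_nonneg_right (by linarith) hc0.le

end Pool.Agent.Y773.NV
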