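import Pool.Agent.Y773.NV.Mom2

/-! # The derivative of the main function -/

set_option autoImplicit false
set_option linter.unusedSectionVars false

open Complex MeasureTheory NumberField Filter Topology

namespace Pool.Agent.Y773.NV

section

variable {K : Type} [Field K] [NumberField K] [IsTotallyComplex K]

lemma gr_deriv {t Cg : ℝ} (hgd : DifferentiableOn ℂ (gr (e0 K) t) {w | -1 / 2 < w.re})
    (hgb : ∀ w : ℂ, -1 / 4 ≤ w.re → w.re ≤ 1 → ‖gr (e0 K) t w‖ ≤ Cg) :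
    DifferentiableAt ℂ (gr (e0 K) t) 0 ∧ ‖deriv (gr (e0 K) t) 0‖ ≤ 4 * Cg := by
  have hopen : IsOpen {w : ℂ | -1 / 2 < w.re} := isOpen_lt continuous_const Complex.continuous_re
  have hball : Metric.closedBall (0 : ℂ) (1 / 4) ⊆ {w : ℂ | -1 / 2 < w.re} := by
    intro w hw
    rw [mem_closedBall_zero_iff] at hw
    change -1 / 2 < w.re
    have := Complex.abs_re_le_norm w
    have h2 := neg_abs_le w.re
    linarith
  refine ⟨(hgd 0 (by change (-1 / 2 : ℝ) < (0 : ℂ).re; norm_num)).differentiableAt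
    (hopen.mem_nhds (by change (-1 / 2 : ℝ) < (0 : ℂ).re; norm_num)), ?_⟩
  have h := Complex.norm_deriv_le_of_forall_mem_sphere_norm_le (c := (0 : ℂ)) (R := 1 / 4)
    (f := gr (e0 K) t) (C := Cg) (by norm_num)
    ((hgd.mono hball).diffContOnCl_ball (le_refl _)) (fun z hz => by
      rw [mem_sphere_zero_iff_norm] at hz
      have := Complex.abs_re_le_norm z
      have h2 := neg_abs_le z.re
      have h3 := le_abs_self z.re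
      exact hgb z (by linarith) (by linarith))
  refine h.trans (le_of_eq ?_)
  ring

theorem dH1 {𝔣 : Ideal (𝓞 K)} (hbot : 𝔣 ≠ ⊥) {M t Cg C3 C4 δ3 ε b : ℝ} (Z : ℂ → ℂ)
    (hZd : DifferentiableOn ℂ Z {s | 1 / 2 < s.re}) (hZ1 : Z 1 = (kap 𝔣 : ℂ))
    (hZ' : ‖deriv Z 1‖ ≤ kap 𝔣 * (δ3 * Real.log (nm 𝔣) + C3))
    (hgd : DifferentiableOn ℂ (gr (e0 K) t) {w | -1 / 2 < w.re}) (hg0 : gr (e0 K) t 0 = 1)
    (hgb : ∀ w : ℂ, -1 / 4 ≤ w.re → w.re ≤ 1 → ‖gr (e0 K) t w‖ ≤ Cg)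
    (hBd : Differentiable ℂ (BB (Pr 𝔣 M) nm M)) (hG : 1 ≤ GS (Pr 𝔣 M) nm M)
    (hB0 : BB (Pr 𝔣 M) nm M 0 = ((1 / GS (Pr 𝔣 M) nm M : ℝ) : ℂ))
    (hB1 : deriv (BB (Pr 𝔣 M) nm M) 0 = (b : ℂ))
    (hb : b ≤ ((1 + ε) * Real.log M + 3 * C4) / GS (Pr 𝔣 M) nm M) (hk : 0 ≤ kap 𝔣) :
    2 * (deriv (H1f 𝔣 M t Z) 0).re ≤ kap 𝔣 / GS (Pr 𝔣 M) nm M *
      (2 * (δ3 * Real.log (nm 𝔣) + C3) + (1 + ε) * Real.log M + 3 * C4 + Real.log (RR 𝔣) +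
        4 * Cg) := by
  have hR1 : 1 ≤ RR 𝔣 := RR_pos hbot
  have hR0 : 0 < RR 𝔣 := by linarith
  obtain ⟨g1, g2⟩ := gr_deriv hgd hgb
  obtain ⟨G, hGe⟩ : ∃ G, G = GS (Pr 𝔣 M) nm M := ⟨_, rfl⟩
  rw [← hGe] at hG hB0 hb ⊢
  have hG0 : 0 < G := by linarith
  have hopen : IsOpen {s : ℂ | 1 / 2 < s.re} := isOpen_lt continuous_const Complex.continuous_re
  have hZ1d : DifferentiableAt ℂ Z 1 := (hZd 1 (by change (1 / 2 : ℝ) < (1 : ℂ).re; norm_num)).differentiableAt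
    (hopen.mem_nhds (by change (1 / 2 : ℝ) < (1 : ℂ).re; norm_num))
  have d1 : HasDerivAt (fun w : ℂ => Z (1 + 2 * w)) (deriv Z 1 * 2) 0 := by
    have h1 : HasDerivAt (fun w : ℂ => 1 + 2 * w) 2 0 := by
      have := ((hasDerivAt_id (0 : ℂ)).const_mul 2).const_add 1
      simpa using this
    have h2 : HasDerivAt Z (deriv Z 1) (1 + 2 * (0 : ℂ)) := by
      rw [mul_zero, add_zero]; exact hZ1d.hasDerivAt
    exact h2.comp (0 : ℂ) h1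
  have d2 : HasDerivAt (BB (Pr 𝔣 M) nm M) (b : ℂ) 0 := by
    rw [← hB1]; exact (hBd 0).hasDerivAt
  have d3 : HasDerivAt (fun w : ℂ => ((RR 𝔣 : ℝ) : ℂ) ^ w) ((Real.log (RR 𝔣) : ℝ) : ℂ) 0 := by
    have h1 := (hasDerivAt_id (0 : ℂ)).const_cpow (c := ((RR 𝔣 : ℝ) : ℂ))
      (Or.inl (by exact_mod_cast hR0.ne'))
    simp only [id, Complex.cpow_zero, one_mul, mul_one] at h1
    rwa [← Complex.ofReal_log hR0.le] at h1
  have d4 := g1.hasDerivAt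
  have d5 := (((d1.const_mul (1 / 2 : ℂ)).mul d2).mul d3).mul d4
  have hH : H1f 𝔣 M t Z = ((((fun w : ℂ => 1 / 2 * Z (1 + 2 * w)) * BB (Pr 𝔣 M) nm M) *
      fun w : ℂ => ((RR 𝔣 : ℝ) : ℂ) ^ w) * gr (e0 K) t) := by
    funext w
    rfl
  have d6 : deriv (H1f 𝔣 M t Z) 0 = 1 / 2 * (deriv Z 1 * 2 * ((1 / G : ℝ) : ℂ) +
      (kap 𝔣 : ℂ) * (b : ℂ) + (kap 𝔣 : ℂ) * ((1 / G : ℝ) : ℂ) * ((Real.log (RR 𝔣) : ℝ) : ℂ) +
      (kap 𝔣 : ℂ) * ((1 / G : ℝ) : ℂ) * deriv (gr (e0 K) t) 0) := by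
    rw [hH, d5.deriv]
    simp only [Pi.mul_apply, mul_zero, add_zero, Complex.cpow_zero, mul_one, hZ1, hB0, hg0]
    ring
  have e1 : (2 : ℝ) * (deriv (H1f 𝔣 M t Z) 0).re = 2 * (1 / G) * (deriv Z 1).re + kap 𝔣 * b +
      kap 𝔣 * (1 / G) * Real.log (RR 𝔣) + kap 𝔣 * (1 / G) * (deriv (gr (e0 K) t) 0).re := by
    have e2 : (2 : ℂ) * deriv (H1f 𝔣 M t Z) 0 = ((2 * (1 / G) : ℝ) : ℂ) * deriv Z 1 +
        ((kap 𝔣 * b : ℝ) : ℂ) + ((kap 𝔣 * (1 / G) * Real.log (RR 𝔣) : ℝ) : ℂ) +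
        ((kap 𝔣 * (1 / G) : ℝ) : ℂ) * deriv (gr (e0 K) t) 0 := by
      rw [d6]
      push_cast
      ring
    have e3 := congrArg Complex.re e2
    rw [add_re, add_re, add_re, re_ofReal_mul, re_ofReal_mul, ofReal_re, ofReal_re] at e3
    have e4 : ((2 : ℂ) * deriv (H1f 𝔣 M t Z) 0).re = 2 * (deriv (H1f 𝔣 M t Z) 0).re := by
      simp
    rw [e4] at e3
    exact e3
  rw [e1]
  have r1 : (deriv Z 1).re ≤ kap 𝔣 * (δ3 * Real.log (nm 𝔣) + C3) := (re_le_norm _).trans hZ'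
  have r2 : (deriv (gr (e0 K) t) 0).re ≤ 4 * Cg := (re_le_norm _).trans g2
  have hG' : 0 ≤ 1 / G := by positivity
  have r3 : 2 * (1 / G) * (deriv Z 1).re ≤ 2 * (1 / G) * (kap 𝔣 * (δ3 * Real.log (nm 𝔣) + C3)) :=
    mul_le_mul_of_nonneg_left r1 (by positivity)
  have r4 : kap 𝔣 * b ≤ kap 𝔣 * (((1 + ε) * Real.log M + 3 * C4) / G) :=
    mul_le_mul_of_nonneg_left hb hk
  have r5 : kap 𝔣 * (1 / G) * (deriv (gr (e0 K) t) 0).re ≤ kap 𝔣 * (1 / G) * (4 * Cg) :=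
    mul_le_mul_of_nonneg_left r2 (by positivity)
  calc _ ≤ 2 * (1 / G) * (kap 𝔣 * (δ3 * Real.log (nm 𝔣) + C3)) +
        kap 𝔣 * (((1 + ε) * Real.log M + 3 * C4) / G) +
        kap 𝔣 * (1 / G) * Real.log (RR 𝔣) + kap 𝔣 * (1 / G) * (4 * Cg) := by linarith
    _ = _ := by ring

end

end Pool.Agent.Y773.NV
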