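import Pool.Agent.Y773.NV.St1

/-! # Few primitive characters are invariant or self-dual -/

set_option autoImplicit false

open NumberField

namespace Pool.Agent.Y773.NV

/-- characters trivial on a set of residue classes -/
def St_RST : Prop := ∀ (K : Type) [Field K] [NumberField K] [IsTotallyComplex K]
  (𝔣 : Ideal (𝓞 K)) (S : Finset (Ideal (𝓞 K) →*₀ ℂ)) (T : Finset ((𝓞 K ⧸ 𝔣)ˣ)), 𝔣 ≠ ⊥ → 𝔣 ≠ ⊤ →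
    (∀ ψ ∈ S, Pool.Agent.Y773.G.IsPrimChar K 𝔣 ψ) →
    (∀ ψ ∈ S, ∀ u ∈ T, ∀ x : 𝓞 K, Ideal.Quotient.mk 𝔣 x = (u : 𝓞 K ⧸ 𝔣) →
      ψ (Ideal.span {x}) = 1) →
    S.card * T.card ≤ Nat.card (ClassGroup (𝓞 K)) * Nat.card (𝓞 K ⧸ 𝔣)ˣ

/-- few primitive characters are invariant under the automorphism -/
def St_INV : Prop := ∀ (K : Type) [Field K] [NumberField K] [IsTotallyComplex K]
  (s : 𝓞 K ≃+* 𝓞 K), Module.finrank ℚ K = 2 → (∀ x, s (s x) = x) → (∃ x, s x ≠ x) →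
  ∃ C : ℝ, 0 ≤ C ∧ ∀ (𝔣 : Ideal (𝓞 K)) (S : Finset (Ideal (𝓞 K) →*₀ ℂ)), 𝔣 ≠ ⊥ → 𝔣 ≠ ⊤ →
    (∀ ψ ∈ S, Pool.Agent.Y773.G.IsPrimChar K 𝔣 ψ) →
    (∀ ψ ∈ S, ∀ x : 𝓞 K, ψ (Ideal.span {s x}) = ψ (Ideal.span {x})) →
    (S.card : ℝ) ≤ C * nm 𝔣 ^ (1 / 2 : ℝ)

/-- few primitive characters are quadratic on the rational integers -/
def St_UNI : Prop := ∀ (K : Type) [Field K] [NumberField K] [IsTotallyComplex K],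
  Module.finrank ℚ K = 2 →
  ∃ C : ℝ, 0 ≤ C ∧ ∀ (𝔣 : Ideal (𝓞 K)) (S : Finset (Ideal (𝓞 K) →*₀ ℂ)), 𝔣 ≠ ⊥ → 𝔣 ≠ ⊤ →
    (∀ ψ ∈ S, Pool.Agent.Y773.G.IsPrimChar K 𝔣 ψ) →
    (∀ ψ ∈ S, ∀ n : ℕ, Nat.Coprime n (Ideal.absNorm 𝔣) →
      ψ (Ideal.span {(n : 𝓞 K)}) ^ 2 = 1) →
    (S.card : ℝ) ≤ C * nm 𝔣 ^ (7 / 8 : ℝ)

end Pool.Agent.Y773.NV
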