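import Pool.Agent.Y773.NV.Tot
import Pool.Agent.Y773.NV.St2

/-! # A third of the irreducible, non self-dual induced characters -/

set_option autoImplicit false
set_option linter.unusedSectionVars false

open Complex NumberField

namespace Pool.Agent.Y773.NV

open Pool.Agent.Y773.IQ

section

variable {K : Type} [Field K] [NumberField K]

/-- the automorphism of the ring of integers -/
noncomputable def gal (σ : K ≃ₐ[ℚ] K) : 𝓞 K ≃+* 𝓞 K :=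
  RingOfIntegers.mapRingEquiv (σ : K ≃+* K)

/-- the induced character is irreducible -/
def Irr (ψ : Ideal (𝓞 K) →*₀ ℂ) : Prop :=
  ∃ (σ : K ≃ₐ[ℚ] K) (𝔞 : Ideal (𝓞 K)), ψ (𝔞.map (gal σ)) ≠ ψ 𝔞

/-- the induced character is not self-dual -/
def Nsd (ψ : Ideal (𝓞 K) →*₀ ℂ) : Prop :=
  ∀ σ : K ≃ₐ[ℚ] K, ∃ 𝔞 : Ideal (𝓞 K), ψ (𝔞.map (gal σ)) ≠ (starRingEnd ℂ) (ψ 𝔞)

lemma map_span (σ : K ≃ₐ[ℚ] K) (x : 𝓞 K) :
    (Ideal.span {x}).map (gal σ) = Ideal.span {gal σ x} := by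
  rw [Ideal.map_span, Set.image_singleton]

lemma gal_nat (σ : K ≃ₐ[ℚ] K) (n : ℕ) : gal σ (n : 𝓞 K) = (n : 𝓞 K) := map_natCast _ _

/-- the nontrivial automorphism -/
lemma exists_invol (h2 : Module.finrank ℚ K = 2) : ∃ σ : K ≃ₐ[ℚ] K,
    (∀ x, gal σ (gal σ x) = x) ∧ ∃ x, gal σ x ≠ x := by
  have : Algebra.IsQuadraticExtension ℚ K := ⟨h2⟩
  have : IsGalois ℚ K := inferInstance
  have hc : Nat.card (K ≃ₐ[ℚ] K) = 2 := by rw [IsGalois.card_aut_eq_finrank, h2]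
  obtain ⟨σ, hσ⟩ : ∃ σ : K ≃ₐ[ℚ] K, σ ≠ 1 := by
    by_contra hcon
    push Not at hcon
    have : Subsingleton (K ≃ₐ[ℚ] K) := ⟨fun a b => by rw [hcon a, hcon b]⟩
    have := Nat.card_of_subsingleton (1 : K ≃ₐ[ℚ] K)
    omega
  have hσ2 : σ ^ 2 = 1 := by
    rw [← hc]
    exact pow_card_eq_one'
  refine ⟨σ, fun x => ?_, ?_⟩
  · apply RingOfIntegers.ext
    have h3 : (σ ^ 2) (x : K) = (x : K) := by rw [hσ2]; rfl
    rw [pow_two] at h3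
    exact h3
  · by_contra hcon
    push Not at hcon
    apply hσ
    have h3 : (σ : K →ₐ[ℚ] K) = ((1 : K ≃ₐ[ℚ] K) : K →ₐ[ℚ] K) := by
      have h4 : ∀ x : 𝓞 K, σ (x : K) = (x : K) := fun x =>
        congrArg (fun z : 𝓞 K => (z : K)) (hcon x)
      ext y
      obtain ⟨a, b, hb, hab⟩ := IsFractionRing.div_surjective (A := 𝓞 K) y
      rw [← hab]
      change σ ((a : K) / (b : K)) = (a : K) / (b : K)
      rw [map_div₀, h4, h4]
    ext y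
    exact congrArg (fun f : K →ₐ[ℚ] K => f y) h3

end

open Classical in
/-- **the theorem** -/
theorem fin (hinv : St_INV) (huni : St_UNI) (K : Type) [Field K] [NumberField K]
    [IsTotallyComplex K] (h2 : Module.finrank ℚ K = 2) (B ε : ℝ) (hε : 0 < ε) :
    ∃ X₀ : ℝ, 2 ≤ X₀ ∧ ∀ 𝔮 : Ideal (𝓞 K), 𝔮 ≠ ⊥ → X₀ ≤ (Ideal.absNorm 𝔮 : ℝ) →
      (Fam 𝔮).Finite ∧ (Fam 𝔮).Nonempty ∧ ∀ t : ℝ, |t| ≤ B →
      (1 / 3 - ε) * ((Fam 𝔮).ncard : ℝ) ≤ (({ψ ∈ Fam 𝔮 | (Irr ψ ∧ Nsd ψ) ∧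
        LL K ψ (1 / 2 + (t : ℂ) * Complex.I) ≠ 0}.ncard : ℕ) : ℝ) := by
  obtain ⟨σ, hσ1, hσ2⟩ := exists_invol h2
  obtain ⟨C1, hC1, hI⟩ := hinv K (gal σ) h2 hσ1 hσ2
  obtain ⟨C2, hC2, hU⟩ := huni K h2
  refine third K h2 (fun ψ => Irr ψ ∧ Nsd ψ) (C1 + C2) (by positivity) ?_ B ε hε
  intro 𝔡 hbot htop
  have hn : 1 ≤ nm 𝔡 := one_le_nm hbot
  have h3 := hI 𝔡 ((PC 𝔡).filter (fun ψ => ∀ x : 𝓞 K, ψ (Ideal.span {gal σ x}) = ψ (Ideal.span {x})))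
    hbot htop (fun ψ hψ => (mem_PC hbot htop).mp (Finset.mem_filter.mp hψ).1)
    (fun ψ hψ => (Finset.mem_filter.mp hψ).2)
  have h4 := hU 𝔡 ((PC 𝔡).filter (fun ψ => ∀ n : ℕ, Nat.Coprime n (Ideal.absNorm 𝔡) →
      ψ (Ideal.span {(n : 𝓞 K)}) ^ 2 = 1))
    hbot htop (fun ψ hψ => (mem_PC hbot htop).mp (Finset.mem_filter.mp hψ).1)
    (fun ψ hψ => (Finset.mem_filter.mp hψ).2)
  have h5 : nm 𝔡 ^ (1 / 2 : ℝ) ≤ nm 𝔡 ^ (7 / 8 : ℝ) :=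
    Real.rpow_le_rpow_of_exponent_le hn (by norm_num)
  have h6 := mul_le_mul_of_nonneg_left h5 hC1
  have hsub : (PC 𝔡).filter (fun ψ => ¬ (Irr ψ ∧ Nsd ψ)) ⊆
      (PC 𝔡).filter (fun ψ => ∀ x : 𝓞 K, ψ (Ideal.span {gal σ x}) = ψ (Ideal.span {x})) ∪
      (PC 𝔡).filter (fun ψ => ∀ n : ℕ, Nat.Coprime n (Ideal.absNorm 𝔡) →
        ψ (Ideal.span {(n : 𝓞 K)}) ^ 2 = 1) := by
    intro ψ hψ
    obtain ⟨k1, k2⟩ := Finset.mem_filter.mp hψ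
    have hp := (mem_PC hbot htop).mp k1
    rw [Finset.mem_union, Finset.mem_filter, Finset.mem_filter]
    by_cases hi : Irr ψ
    · right
      refine ⟨k1, fun n hn => ?_⟩
      have hs : ¬ Nsd ψ := fun h => k2 ⟨hi, h⟩
      unfold Nsd at hs
      push Not at hs
      obtain ⟨τ, hτ⟩ := hs
      have k3 := hτ (Ideal.span {(n : 𝓞 K)})
      rw [map_span, gal_nat] at k3
      have hcop : IsCoprime (Ideal.span {(n : 𝓞 K)}) 𝔡 := by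
        apply cop_of_norm
        have : Ideal.absNorm (Ideal.span {(n : 𝓞 K)}) = n ^ 2 := by
          rw [Ideal.absNorm_span_singleton]
          have h7 : (n : 𝓞 K) = algebraMap ℤ (𝓞 K) (n : ℤ) := by simp
          rw [h7, Algebra.norm_algebraMap, RingOfIntegers.rank, h2]
          simp
        rw [this]
        exact Nat.Coprime.pow_left 2 hn
      have k4 := norm_one_of_cop htop hp hcop
      have k5 : ψ (Ideal.span {(n : 𝓞 K)}) ^ 2 =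
          (starRingEnd ℂ) (ψ (Ideal.span {(n : 𝓞 K)})) * ψ (Ideal.span {(n : 𝓞 K)}) := by
        rw [← k3, pow_two]
      rw [k5, mul_comm, Complex.mul_conj, Complex.normSq_eq_norm_sq, k4]
      norm_num
    · left
      refine ⟨k1, fun x => ?_⟩
      by_contra hne
      exact hi ⟨σ, Ideal.span {x}, by rw [map_span]; exact hne⟩
  have h7 := (Finset.card_le_card hsub).trans (Finset.card_union_le _ _)
  have h8 : (((PC 𝔡).filter (fun ψ => ¬ (Irr ψ ∧ Nsd ψ))).card : ℝ) ≤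
      ((((PC 𝔡).filter (fun ψ => ∀ x : 𝓞 K, ψ (Ideal.span {gal σ x}) = ψ (Ideal.span {x}))).card :
        ℕ) : ℝ) + ((((PC 𝔡).filter (fun ψ => ∀ n : ℕ, Nat.Coprime n (Ideal.absNorm 𝔡) →
        ψ (Ideal.span {(n : 𝓞 K)}) ^ 2 = 1)).card : ℕ) : ℝ) := by exact_mod_cast h7
  have h9 : (((PC 𝔡).filter (fun ψ => ¬ (Irr ψ ∧ Nsd ψ))).card : ℝ) ≤
      (C1 + C2) * nm 𝔡 ^ (7 / 8 : ℝ) := by
    refine h8.trans ((add_le_add h3 h4).trans ?_)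
    linarith
  convert h9

end Pool.Agent.Y773.NV
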