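import Pool.Agent.Y773.NV.Der

/-! # The first moment, asymptotically -/

set_option autoImplicit false
set_option linter.unusedSectionVars false

open Complex MeasureTheory NumberField Filter Topology

namespace Pool.Agent.Y773.NV

open Pool.Agent.Y773 (LI FEd)
open Pool.Agent.Y773.IQ (LL LL_eq)

section

variable {K : Type} [Field K] [NumberField K]

/-- the norm of the different -/
noncomputable def dK (K : Type) [Field K] [NumberField K] : ℝ :=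
  (Ideal.absNorm (differentIdeal ℤ (𝓞 K)) : ℝ)

lemma dK_ge : 1 ≤ dK K := by
  unfold dK
  have h2 : Ideal.absNorm (differentIdeal ℤ (𝓞 K)) ≠ 0 := by
    rw [Ne, Ideal.absNorm_eq_zero_iff]
    exact differentIdeal_ne_bot
  exact_mod_cast Nat.one_le_iff_ne_zero.mpr h2

lemma RR_eq (𝔣 : Ideal (𝓞 K)) : RR 𝔣 = nm 𝔣 * dK K := by
  unfold RR nm dK
  push_cast
  rfl

lemma RR_pow_le {𝔣 : Ideal (𝓞 K)} (h : 𝔣 ≠ ⊥) {a : ℝ} (_ha0 : 0 ≤ a) (ha : a ≤ 1) :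
    RR 𝔣 ^ a ≤ dK K * nm 𝔣 ^ a := by
  have h1 : 1 ≤ nm 𝔣 := one_le_nm h
  have h2 := dK_ge (K := K)
  rw [RR_eq, Real.mul_rpow (by linarith) (by linarith), mul_comm]
  refine mul_le_mul_of_nonneg_right ?_ (by positivity)
  calc dK K ^ a ≤ dK K ^ (1 : ℝ) := Real.rpow_le_rpow_of_exponent_le h2 ha
    _ = dK K := Real.rpow_one _

/-- **the first moment** -/
theorem fm (hint : St_INT) (hres : St_RES) (hexp : St_EXP) (hbil : St_BIL) (hexpb : St_EXPB)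
    (hod : St_OD) (hdual : St_DUAL) (K : Type) [Field K] [NumberField K] [IsTotallyComplex K]
    (h2 : Module.finrank ℚ K = 2) (B d : ℝ) (hd : 0 < d) (hd2 : d ≤ 1 / 8) :
    ∃ C : ℝ, 0 ≤ C ∧ ∀ 𝔣 : Ideal (𝓞 K), 𝔣 ≠ ⊥ → 𝔣 ≠ ⊤ →
      nm 𝔣 ^ (1 - d / 8) ≤ ((PC 𝔣).card : ℝ) → ∀ t : ℝ, |t| ≤ B →
      ‖∑ ψ ∈ PC 𝔣, LL K ψ (hp t) * mol 𝔣 (nm 𝔣 ^ (1 / 2 - d)) t ψ - ((PC 𝔣).card : ℂ)‖ ≤
        C * nm 𝔣 ^ (-(d / 8)) * ((PC 𝔣).card : ℝ) := by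
  classical
  set δ : ℝ := d / 20 with hδd
  have hδ : 0 < δ := by rw [hδd]; positivity
  have hδ2 : δ ≤ 1 / 2 := by rw [hδd]; linarith
  obtain ⟨C1, hC1, hE⟩ := hexpb K (δ / 2) (by linarith)
  obtain ⟨C2, hC2, hO⟩ := hod K h2 (δ / 2) (by linarith)
  obtain ⟨Cd, Ad, hCd, hAd, hD⟩ := hdual (K →+* ℂ) δ hδ hδ2
  obtain ⟨B1, hB1⟩ : ∃ B1, B1 = ∑' 𝔞, Pool.Agent.Y772.DK.nr K (1 + δ) 𝔞 := ⟨_, rfl⟩
  have hB10 : 0 ≤ B1 := by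
    rw [hB1]; exact tsum_nonneg fun 𝔞 => Pool.Agent.Y772.DK.nr_nonneg K _ 𝔞
  have hdk := dK_ge (K := K)
  obtain ⟨g1, hg1⟩ : ∃ g, g = GI 1 (-1 / 4) 0 := ⟨_, rfl⟩
  obtain ⟨g2, hg2⟩ : ∃ g, g = GI 1 (1 / 2 + δ) 0 := ⟨_, rfl⟩
  obtain ⟨g3, hg3⟩ : ∃ g, g = GI 1 (-(1 / 2 + δ)) Ad := ⟨_, rfl⟩
  have g10 : 0 ≤ g1 := by rw [hg1]; exact GI_nonneg _ _ _
  have g20 : 0 ≤ g2 := by rw [hg2]; exact GI_nonneg _ _ _
  have g30 : 0 ≤ g3 := by rw [hg3]; exact GI_nonneg _ _ _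
  refine ⟨g1 + C1 * C2 * g2 + C1 * (Cd * B1 * dK K * Real.exp (Ad * B)) * g3, by positivity,
    fun 𝔣 hbot htop hcard t ht => ?_⟩
  have hn : 1 ≤ nm 𝔣 := one_le_nm hbot
  obtain ⟨n, hne⟩ : ∃ n, n = nm 𝔣 := ⟨_, rfl⟩
  have hn0 : 0 < n := by rw [hne]; linarith
  have hn1 : 1 ≤ n := by rw [hne]; exact hn
  have hM : 1 ≤ nm 𝔣 ^ (1 / 2 - d) := Real.one_le_rpow hn (by linarith)
  obtain ⟨e1, e2, -⟩ := hE 𝔣 (nm 𝔣 ^ (1 / 2 - d)) t hM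
  have hX : 1 ≤ nm 𝔣 ^ (3 / 2 : ℝ) := Real.one_le_rpow hn (by norm_num)
  have hR := RR_pow_le (K := K) hbot (a := 1 / 2 + δ) (by linarith) (by linarith)
  have key := mom1 hint hres hexp hbil hbot htop (M := nm 𝔣 ^ (1 / 2 - d)) (t := t) (δ := δ)
    (C1 := C1) (C2 := C2 * nm 𝔣 ^ (δ / 2)) (X := nm 𝔣 ^ (3 / 2 : ℝ))
    (V := Cd * B1 * RR 𝔣 ^ (1 / 2 + δ)) (Cm := C1 * (nm 𝔣 ^ (1 / 2 - d)) ^ (1 / 2 + δ / 2))
    (Ad := Ad) hM hδ hδ2 (by linarith) (by positivity) hX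
    (by
      have : 0 ≤ RR 𝔣 ^ (1 / 2 + δ) := Real.rpow_nonneg (Nat.cast_nonneg _) _
      positivity) (by positivity) hAd
    e1 (hO 𝔣 hbot htop) (fun ψ hψ => e2 ψ (PC_norm_le hbot htop hψ)) (by
      intro ψ hψ y
      obtain ⟨d1, d2, -⟩ := prim_data htop ((mem_PC hbot htop).mp hψ)
      refine hD (RR 𝔣) (e0 K) (LL K ψ) B1 (by linarith [RR_pos (K := K) hbot]) d1 (fun y => ?_) y
      have hre : (((1 + δ : ℝ) : ℂ) + (y : ℂ) * I).re = 1 + δ := by simp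
      rw [d2 _ (by rw [hre]; linarith), hB1]
      exact Pool.Agent.Y772.DK.LA_le (K := K) (a := ψ) (map_zero _) (PC_norm_le hbot htop hψ)
        (σ := 1 + δ) (by linarith) (by rw [hre]))
  rw [← hg1, ← hg2, ← hg3] at key
  rw [← hne] at key hcard ⊢
  have hR' : RR 𝔣 ^ (1 / 2 + δ) ≤ dK K * n ^ (1 / 2 + δ) := by rw [hne]; exact hR
  -- powers of `n`
  have p1 : (n ^ (3 / 2 : ℝ)) ^ (-1 / 4 : ℝ) ≤ n ^ (-(d / 8)) := by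
    rw [← Real.rpow_mul hn0.le]
    exact Real.rpow_le_rpow_of_exponent_le hn1 (by nlinarith)
  have p2 : (n ^ (1 / 2 - d)) ^ (1 / 2 + δ) * n ^ (δ / 2) * (n ^ (3 / 2 : ℝ)) ^ (1 / 2 + δ) ≤
      n ^ (-(d / 8)) * n ^ (1 - d / 8) := by
    rw [← Real.rpow_mul hn0.le, ← Real.rpow_mul hn0.le, ← Real.rpow_add hn0, ← Real.rpow_add hn0,
      ← Real.rpow_add hn0]
    refine Real.rpow_le_rpow_of_exponent_le hn1 ?_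
    rw [hδd]
    nlinarith
  have p3 : (n ^ (1 / 2 - d)) ^ (1 / 2 + δ / 2) * n ^ (1 / 2 + δ) *
      (n ^ (3 / 2 : ℝ)) ^ (-(1 / 2 + δ)) ≤ n ^ (-(d / 8)) := by
    rw [← Real.rpow_mul hn0.le, ← Real.rpow_mul hn0.le, ← Real.rpow_add hn0, ← Real.rpow_add hn0]
    refine Real.rpow_le_rpow_of_exponent_le hn1 ?_
    rw [hδd]
    nlinarith
  obtain ⟨c, hc⟩ : ∃ c, c = ((PC 𝔣).card : ℝ) := ⟨_, rfl⟩
  have hc0 : 0 ≤ c := by rw [hc]; exact Nat.cast_nonneg _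
  rw [← hc] at key hcard ⊢
  obtain ⟨q, hq⟩ : ∃ q, q = n ^ (-(d / 8)) := ⟨_, rfl⟩
  have hq0 : 0 ≤ q := by rw [hq]; positivity
  rw [← hq] at p1 p2 p3 ⊢
  have t1 : c * ((n ^ (3 / 2 : ℝ)) ^ (-1 / 4 : ℝ) * g1) ≤ g1 * q * c := by
    calc c * ((n ^ (3 / 2 : ℝ)) ^ (-1 / 4 : ℝ) * g1) ≤ c * (q * g1) := by gcongr
      _ = _ := by ring
  have t2 : C1 * (n ^ (1 / 2 - d)) ^ (1 / 2 + δ) * (C2 * n ^ (δ / 2)) *
      (n ^ (3 / 2 : ℝ)) ^ (1 / 2 + δ) * g2 ≤ C1 * C2 * g2 * q * c := by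
    calc _ = C1 * C2 * g2 * ((n ^ (1 / 2 - d)) ^ (1 / 2 + δ) * n ^ (δ / 2) *
          (n ^ (3 / 2 : ℝ)) ^ (1 / 2 + δ)) := by ring
      _ ≤ C1 * C2 * g2 * (q * n ^ (1 - d / 8)) := by gcongr
      _ ≤ C1 * C2 * g2 * (q * c) := by gcongr
      _ = _ := by ring
  have hexp1 : Real.exp (Ad * |t|) ≤ Real.exp (Ad * B) :=
    Real.exp_le_exp.mpr (mul_le_mul_of_nonneg_left ht hAd)
  have hR0 : 0 ≤ RR 𝔣 ^ (1 / 2 + δ) := Real.rpow_nonneg (Nat.cast_nonneg _) _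
  have t3 : c * (C1 * (n ^ (1 / 2 - d)) ^ (1 / 2 + δ / 2) * (Cd * B1 * RR 𝔣 ^ (1 / 2 + δ) *
      Real.exp (Ad * |t|) * (n ^ (3 / 2 : ℝ)) ^ (-(1 / 2 + δ)) * g3)) ≤
      C1 * (Cd * B1 * dK K * Real.exp (Ad * B)) * g3 * q * c := by
    calc _ ≤ c * (C1 * (n ^ (1 / 2 - d)) ^ (1 / 2 + δ / 2) * (Cd * B1 * (dK K * n ^ (1 / 2 + δ)) *
          Real.exp (Ad * B) * (n ^ (3 / 2 : ℝ)) ^ (-(1 / 2 + δ)) * g3)) := by gcongr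
      _ = C1 * (Cd * B1 * dK K * Real.exp (Ad * B)) * g3 * c * ((n ^ (1 / 2 - d)) ^ (1 / 2 + δ / 2) *
          n ^ (1 / 2 + δ) * (n ^ (3 / 2 : ℝ)) ^ (-(1 / 2 + δ))) := by ring
      _ ≤ C1 * (Cd * B1 * dK K * Real.exp (Ad * B)) * g3 * c * q := by gcongr
      _ = _ := by ring
  have hpi : 1 ≤ 2 * Real.pi := by
    have := Real.pi_gt_three
    linarith
  obtain ⟨S, hS⟩ : ∃ S, S = ‖∑ ψ ∈ PC 𝔣, LL K ψ (hp t) * mol 𝔣 (n ^ (1 / 2 - d)) t ψ -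
      ((PC 𝔣).card : ℂ)‖ := ⟨_, rfl⟩
  have hS0 : 0 ≤ S := by rw [hS]; exact norm_nonneg _
  rw [← hS] at key ⊢
  have : S ≤ 2 * Real.pi * S := by nlinarith
  calc S ≤ _ := this
    _ ≤ _ := key
    _ ≤ g1 * q * c + C1 * C2 * g2 * q * c + C1 * (Cd * B1 * dK K * Real.exp (Ad * B)) * g3 * q * c := by
        linarith
    _ = _ := by ring

end

end Pool.Agent.Y773.NV
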