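import Pool.Agent.Y773.NV.Zb
import Pool.Agent.Y773.IQ.Asm

/-! # The data of one primitive character -/

set_option autoImplicit false
set_option linter.unusedSectionVars false

open Complex MeasureTheory NumberField Filter Topology

namespace Pool.Agent.Y773.NV

open Pool.Agent.Y773 (LI FEd)

open Pool.Agent.Y767 (eq_of_LI)
open Pool.Agent.Y773.IQ (LL LL_eq)

section

variable {K : Type} [Field K] [NumberField K]

/-- `R = N𝔣 · N(different)` -/
noncomputable def RR (𝔣 : Ideal (𝓞 K)) : ℝ :=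
  ((Ideal.absNorm 𝔣 * Ideal.absNorm (differentIdeal ℤ (𝓞 K)) : ℕ) : ℝ)

variable (K) in
/-- the exponents of the gamma factors of a totally complex field -/
noncomputable def e0 : (K →+* ℂ) → ℕ := G.ex (fun _ => 0)

lemma e0_le (φ : K →+* ℂ) : e0 K φ ≤ 1 := G.ex_le (fun _ => zero_le_one) φ

lemma ex_eq [IsTotallyComplex K] (e : InfinitePlace K → ℕ) : G.ex e = e0 K := by
  classical
  funext φ
  unfold e0 G.ex
  have h : ¬ (InfinitePlace.mk φ).IsReal := by
    rw [InfinitePlace.not_isReal_iff_isComplex]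
    exact IsTotallyComplex.isComplex _
  rw [if_neg h, if_neg h]

theorem prim_data [IsTotallyComplex K] {𝔣 : Ideal (𝓞 K)} (htop : 𝔣 ≠ ⊤) {ψ : Ideal (𝓞 K) →*₀ ℂ}
    (h : Pool.Agent.Y773.G.IsPrimChar K 𝔣 ψ) : FEd (RR 𝔣) (e0 K) (LL K ψ) ∧
      (∀ s : ℂ, 1 < s.re → LL K ψ s = LI ψ s) ∧
      ∃ C A : ℝ, Grow (LL K ψ) (-1 / 2) (3 / 2) C A := by
  have hSig := Pool.Agent.Y772.G.t_sig
  obtain ⟨e, he⟩ := h.isModChar hSig htop
  obtain ⟨F, hFE, hFL⟩ := Pool.Agent.Y773.G.fe_prim h he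
  obtain ⟨H, hH, hHL, M, hM, hst⟩ := G.LI_mero he
  have hF := hFE.diff
  rw [LL_eq K hF hFL]
  rw [ex_eq e] at hFE
  refine ⟨hFE, hFL, ?_⟩
  have heq : H = fun s => (s - 1) * F s := by
    refine eq_of_LI hH ((differentiable_id.sub_const 1).mul hF) fun s hs => ?_
    rw [hHL s hs, ← hFL s hs]
  have hcomp : IsCompact ((Set.Icc (-1 / 2 : ℝ) (3 / 2)) ×ℂ (Set.Icc (-2 : ℝ) 2)) :=
    isCompact_Icc.reProdIm isCompact_Icc
  obtain ⟨C1, hC1⟩ := hcomp.exists_bound_of_continuousOn (f := F) hF.continuous.continuousOn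
  refine ⟨|C1| + 4 * M, Fintype.card (K →+* ℂ) * Real.pi + 1, fun s h1 h2 => ?_⟩
  set A : ℝ := Fintype.card (K →+* ℂ) * Real.pi + 1 with hA
  have hA0 : 1 ≤ A := by
    have : (0 : ℝ) ≤ Fintype.card (K →+* ℂ) * Real.pi := by positivity
    linarith
  have hE1 : 1 ≤ Real.exp (A * |s.im|) := Real.one_le_exp (by positivity)
  rcases le_or_gt |s.im| 2 with h3 | h3
  · have h4 := hC1 s (Complex.mem_reProdIm.mpr ⟨⟨h1, h2⟩, abs_le.mp h3⟩)
    have h5 := le_abs_self C1
    calc ‖F s‖ ≤ (|C1| + 4 * M) * 1 := by linarith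
      _ ≤ _ := mul_le_mul_of_nonneg_left hE1 (by positivity)
  · have h5 := hst s h1 h2 h3.le
    rw [heq] at h5
    simp only [norm_mul] at h5
    have h6 : 2 ≤ ‖s - 1‖ := by
      have := Complex.abs_im_le_norm (s - 1)
      simp at this
      linarith
    have hs1 : ‖s‖ ≤ 2 + |s.im| := by
      refine (Complex.norm_le_abs_re_add_abs_im s).trans ?_
      have : |s.re| ≤ 2 := by
        rw [abs_le]; constructor <;> linarith
      linarith
    have h7 : ‖s‖ + 2 ≤ 4 * Real.exp |s.im| := by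
      have := Real.add_one_le_exp |s.im|
      have := abs_nonneg s.im
      nlinarith
    have h8 : 2 * ‖F s‖ ≤ M * (4 * Real.exp |s.im|) *
        Real.exp (Fintype.card (K →+* ℂ) * Real.pi * |s.im|) := by
      calc 2 * ‖F s‖ ≤ ‖s - 1‖ * ‖F s‖ := mul_le_mul_of_nonneg_right h6 (norm_nonneg _)
        _ ≤ _ := h5
        _ ≤ _ := by gcongr
    have h10 : M * (4 * Real.exp |s.im|) * Real.exp (Fintype.card (K →+* ℂ) * Real.pi * |s.im|) =
        4 * M * Real.exp (A * |s.im|) := by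
      rw [hA, add_mul, Real.exp_add, one_mul]
      ring
    rw [h10] at h8
    have h11 := norm_nonneg (F s)
    have h12 : 0 ≤ |C1| * Real.exp (A * |s.im|) := by positivity
    nlinarith

end

end Pool.Agent.Y773.NV
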