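import Pool.Agent.Y773.NV.Sm

/-! # The lower bound for `G` -/

set_option autoImplicit false
set_option linter.unusedSectionVars false

open Complex MeasureTheory NumberField Filter Topology

namespace Pool.Agent.Y773.NV

lemma prod_nonneg' {K : Type} [Field K] [NumberField K] (𝔣 : Ideal (𝓞 K)) :
    0 ≤ ∏ᶠ 𝔭 ∈ {𝔭 : Ideal (𝓞 K) | Prime 𝔭 ∧ 𝔭 ∣ 𝔣}, (1 - 1 / nm 𝔭) := by
  refine finprod_mem_induction (fun z : ℝ => 0 ≤ z) zero_le_one (fun _ _ h1 h2 => mul_nonneg h1 h2)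
    fun 𝔭 h𝔭 => ?_
  have h2 : 2 ≤ nm 𝔭 := by
    unfold nm
    exact_mod_cast Pool.Agent.Y773.AB.norm_prime_ge h𝔭.1
  have : 1 / nm 𝔭 ≤ 1 := by
    rw [div_le_one (by linarith)]; linarith
  linarith

theorem t_kap (hh : St_HAR) (hs : St_SMO) : St_KAP := by
  intro K _ _ ε hε
  obtain ⟨M₀, hM₀, h⟩ := hh K ε hε
  refine ⟨M₀, hM₀, fun M 𝔣 hM h𝔣 => ?_⟩
  have h1 := h M hM
  have h2 := hs K M 𝔣 (by linarith) h𝔣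
  have h3 := prod_nonneg' 𝔣
  unfold kap
  obtain ⟨P, hP⟩ : ∃ P, P = ∏ᶠ 𝔭 ∈ {𝔭 : Ideal (𝓞 K) | Prime 𝔭 ∧ 𝔭 ∣ 𝔣}, (1 - 1 / nm 𝔭) := ⟨_, rfl⟩
  rw [← hP] at h2 h3 ⊢
  have h4 := mul_le_mul_of_nonneg_left h1 h3
  have h5 := mul_le_mul_of_nonneg_left h2 (show 0 ≤ 1 + ε by linarith)
  calc _ = P * (NumberField.dedekindZeta_residue K * Real.log M) := by ring
    _ ≤ _ := h4
    _ = (1 + ε) * (P * ∑ 𝔞 ∈ IdM K M, (nm 𝔞)⁻¹) := by ring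
    _ ≤ _ := h5

end Pool.Agent.Y773.NV
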