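import Pool.Agent.Y773.NV.Tools
import Pool.Agent.Y773.NV.Bil2

/-! # The sums over the characters on the line of absolute convergence -/

set_option autoImplicit false
set_option linter.unusedSectionVars false

open Complex MeasureTheory NumberField Filter Topology

namespace Pool.Agent.Y773.NV

open Pool.Agent.Y773 (LI FEd)

section

variable {K : Type} [Field K] [NumberField K] [IsTotallyComplex K]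

lemma PC_norm_le {𝔣 : Ideal (𝓞 K)} (hbot : 𝔣 ≠ ⊥) (htop : 𝔣 ≠ ⊤)
    {ψ : Ideal (𝓞 K) →*₀ ℂ} (hψ : ψ ∈ PC 𝔣) (𝔞 : Ideal (𝓞 K)) : ‖ψ 𝔞‖ ≤ 1 := by
  classical
  rw [norm_PC hbot htop hψ]
  split_ifs <;> norm_num

/-- the bound for the coefficients in the form needed -/
lemma coef_le {𝔣 : Ideal (𝓞 K)} {M t δ C1 : ℝ}
    (hb : ∀ (s : ℂ) (𝔲 : Ideal (𝓞 K)), 1 / 2 ≤ s.re → 𝔲 ≠ ⊥ →
      ‖aC 𝔣 M t s 𝔲‖ ≤ C1 * M ^ (s.re - 1 / 2) * nm 𝔲 ^ (δ / 2 - s.re)) (hδ : 0 < δ)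
    {s : ℂ} (hs : s.re = 1 + δ) {𝔲 : Ideal (𝓞 K)} (h𝔲 : 𝔲 ≠ ⊥) :
    ‖aC 𝔣 M t s 𝔲‖ ≤ C1 * M ^ (1 / 2 + δ) * nm 𝔲 ^ (-1 - δ / 2) := by
  have h := hb s 𝔲 (by rw [hs]; linarith) h𝔲
  rw [hs] at h
  have e1 : 1 + δ - 1 / 2 = 1 / 2 + δ := by ring
  have e2 : δ / 2 - (1 + δ) = -1 - δ / 2 := by ring
  rwa [e1, e2] at h

theorem line1 (hexp : St_EXP) (hbil : St_BIL) {𝔣 : Ideal (𝓞 K)} (hbot : 𝔣 ≠ ⊥) (htop : 𝔣 ≠ ⊤)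
    {M t δ C1 C2 : ℝ} (hM : 1 ≤ M) (hδ : 0 < δ) (hC1 : 0 ≤ C1) (hC2 : 0 ≤ C2)
    (hb : ∀ (s : ℂ) (𝔲 : Ideal (𝓞 K)), 1 / 2 ≤ s.re → 𝔲 ≠ ⊥ →
      ‖aC 𝔣 M t s 𝔲‖ ≤ C1 * M ^ (s.re - 1 / 2) * nm 𝔲 ^ (δ / 2 - s.re))
    (hod : ∀ S : Finset (Ideal (𝓞 K) × Ideal (𝓞 K)), (∀ p ∈ S, p.1 ≠ ⊥ ∧ p.2 ≠ ⊥ ∧
      IsCoprime p.1 𝔣 ∧ IsCoprime p.2 𝔣 ∧ p.1 ≠ p.2) →
      ∑ p ∈ S, ‖WW 𝔣 p.1 p.2‖ * (nm p.1 * nm p.2) ^ (-1 - δ / 2) ≤ C2)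
    {w : ℂ} (hw : w.re = 1 / 2 + δ) :
    ‖∑ ψ ∈ PC 𝔣, LI ψ (hp t + w) * mol 𝔣 M t ψ - ((PC 𝔣).card : ℂ)‖ ≤
      C1 * M ^ (1 / 2 + δ) * C2 := by
  classical
  obtain ⟨h1, h2⟩ := hexp K 𝔣 M t hM
  have hs : (hp t + w).re = 1 + δ := by rw [add_re, hp_re, hw]; ring
  have h := bil_K hbil hbot htop (η := δ / 2) (by linarith) hC2 hod (aC 𝔣 M t (hp t + w))
    (fun 𝔲 => if 𝔲 = ⊤ then 1 else 0) (Ca := C1 * M ^ (1 / 2 + δ)) (Cb := 1) (by positivity)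
    zero_le_one (fun 𝔲 h𝔲 => coef_le hb hδ hs h𝔲) (fun 𝔲 h𝔲 => by
      rw [one_mul]
      split_ifs with h3
      · rw [h3]
        unfold nm
        simp
      · rw [norm_zero]
        exact Real.rpow_nonneg (Nat.cast_nonneg _) _)
  have e1 : ∀ ψ ∈ PC 𝔣, (∑' 𝔲, ψ 𝔲 * aC 𝔣 M t (hp t + w) 𝔲) *
      (starRingEnd ℂ) (∑' 𝔲 : Ideal (𝓞 K), ψ 𝔲 * (if 𝔲 = ⊤ then (1 : ℂ) else 0)) =
      LI ψ (hp t + w) * mol 𝔣 M t ψ := by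
    intro ψ hψ
    rw [← h2 ψ _ (PC_norm_le hbot htop hψ) (by rw [hs]; linarith)]
    rw [tsum_eq_single ⊤ (fun 𝔲 h3 => by rw [if_neg h3, mul_zero]), if_pos rfl, mul_one]
    have : ψ (⊤ : Ideal (𝓞 K)) = 1 := by rw [← Ideal.one_eq_top, map_one]
    rw [this, map_one, mul_one]
  rw [Finset.sum_congr rfl e1] at h
  have e2 : ∑' 𝔲 : Ideal (𝓞 K), (if 𝔲 ≠ ⊥ ∧ IsCoprime 𝔲 𝔣 then
      aC 𝔣 M t (hp t + w) 𝔲 * (starRingEnd ℂ) (if 𝔲 = ⊤ then (1 : ℂ) else 0) else 0) = 1 := by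
    rw [tsum_eq_single ⊤ (fun 𝔲 h3 => by rw [if_neg h3, map_zero, mul_zero, ite_self])]
    rw [if_pos ⟨top_ne_bot, by rw [← Ideal.one_eq_top]; exact isCoprime_one_left⟩, if_pos rfl, map_one, mul_one,
      h1]
  rw [e2, mul_one, mul_one] at h
  exact h

theorem line2 (hexp : St_EXP) (hbil : St_BIL) (hdiag : St_DIAG) {𝔣 : Ideal (𝓞 K)} (hbot : 𝔣 ≠ ⊥)
    (htop : 𝔣 ≠ ⊤)
    {M t δ C1 C2 : ℝ} (hM : 1 ≤ M) (hδ : 0 < δ) (hC1 : 0 ≤ C1) (hC2 : 0 ≤ C2)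
    (hb : ∀ (s : ℂ) (𝔲 : Ideal (𝓞 K)), 1 / 2 ≤ s.re → 𝔲 ≠ ⊥ →
      ‖aC 𝔣 M t s 𝔲‖ ≤ C1 * M ^ (s.re - 1 / 2) * nm 𝔲 ^ (δ / 2 - s.re))
    (hod : ∀ S : Finset (Ideal (𝓞 K) × Ideal (𝓞 K)), (∀ p ∈ S, p.1 ≠ ⊥ ∧ p.2 ≠ ⊥ ∧
      IsCoprime p.1 𝔣 ∧ IsCoprime p.2 𝔣 ∧ p.1 ≠ p.2) →
      ∑ p ∈ S, ‖WW 𝔣 p.1 p.2‖ * (nm p.1 * nm p.2) ^ (-1 - δ / 2) ≤ C2)
    {w : ℂ} (hw : w.re = 1 / 2 + δ) :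
    ‖∑ ψ ∈ PC 𝔣, (LI ψ (hp t + w) * mol 𝔣 M t ψ) *
        (starRingEnd ℂ) (LI ψ (hp t + (starRingEnd ℂ) w) * mol 𝔣 M t ψ) -
      ((PC 𝔣).card : ℂ) * (LI (ch 𝔣) (1 + 2 * w) * BB (Pr 𝔣 M) nm M w)‖ ≤
      C1 * M ^ (1 / 2 + δ) * (C1 * M ^ (1 / 2 + δ)) * C2 := by
  classical
  obtain ⟨h1, h2⟩ := hexp K 𝔣 M t hM
  have hs : (hp t + w).re = 1 + δ := by rw [add_re, hp_re, hw]; ring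
  have hs' : (hp t + (starRingEnd ℂ) w).re = 1 + δ := by rw [add_re, hp_re, conj_re, hw]; ring
  have h := bil_K hbil hbot htop (η := δ / 2) (by linarith) hC2 hod (aC 𝔣 M t (hp t + w))
    (aC 𝔣 M t (hp t + (starRingEnd ℂ) w)) (Ca := C1 * M ^ (1 / 2 + δ))
    (Cb := C1 * M ^ (1 / 2 + δ)) (by positivity)
    (by positivity) (fun 𝔲 h𝔲 => coef_le hb hδ hs h𝔲) (fun 𝔲 h𝔲 => coef_le hb hδ hs' h𝔲)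
  have e1 : ∀ ψ ∈ PC 𝔣, (∑' 𝔲, ψ 𝔲 * aC 𝔣 M t (hp t + w) 𝔲) *
      (starRingEnd ℂ) (∑' 𝔲 : Ideal (𝓞 K), ψ 𝔲 * aC 𝔣 M t (hp t + (starRingEnd ℂ) w) 𝔲) =
      (LI ψ (hp t + w) * mol 𝔣 M t ψ) *
        (starRingEnd ℂ) (LI ψ (hp t + (starRingEnd ℂ) w) * mol 𝔣 M t ψ) := by
    intro ψ hψ
    rw [← h2 ψ _ (PC_norm_le hbot htop hψ) (by rw [hs]; linarith),
      ← h2 ψ _ (PC_norm_le hbot htop hψ) (by rw [hs']; linarith)]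
  rw [Finset.sum_congr rfl e1, hdiag K 𝔣 M t w hbot hM (by rw [hw]; linarith)] at h
  exact h

end

end Pool.Agent.Y773.NV
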