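import Pool.Agent.Y773.NV.Line

/-! # The first moment -/

set_option autoImplicit false
set_option linter.unusedSectionVars false

open Complex MeasureTheory NumberField Filter Topology

namespace Pool.Agent.Y773.NV

open Pool.Agent.Y773 (LI FEd)
open Pool.Agent.Y773.IQ (LL LL_eq)

section

variable {K : Type} [Field K] [NumberField K] [IsTotallyComplex K]

lemma Ik_int (hint : St_INT) {k : ℕ} {H : ℂ → ℂ} {c C A : ℝ} (hc : c ≠ 0) (hC : 0 ≤ C)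
    (hcont : Continuous (fun v : ℝ => H (pt c v)))
    (hb : ∀ v : ℝ, ‖H (pt c v)‖ ≤ C * Real.exp (A * |v|)) : Integrable (Ik k H c) :=
  (hint k H c C A hc hC hcont hb).1

/-- **the first moment, explicit** -/
theorem mom1 (hint : St_INT) (hres : St_RES) (hexp : St_EXP) (hbil : St_BIL)
    {𝔣 : Ideal (𝓞 K)} (hbot : 𝔣 ≠ ⊥) (htop : 𝔣 ≠ ⊤)
    {M t δ C1 C2 X V Cm : ℝ} {Ad : ℝ} (hM : 1 ≤ M) (hδ : 0 < δ) (hδ2 : δ ≤ 1 / 2) (hC1 : 0 ≤ C1)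
    (hC2 : 0 ≤ C2) (hX : 1 ≤ X) (hV : 0 ≤ V) (hCm : 0 ≤ Cm) (hAd : 0 ≤ Ad)
    (hb : ∀ (s : ℂ) (𝔲 : Ideal (𝓞 K)), 1 / 2 ≤ s.re → 𝔲 ≠ ⊥ →
      ‖aC 𝔣 M t s 𝔲‖ ≤ C1 * M ^ (s.re - 1 / 2) * nm 𝔲 ^ (δ / 2 - s.re))
    (hod : ∀ S : Finset (Ideal (𝓞 K) × Ideal (𝓞 K)), (∀ p ∈ S, p.1 ≠ ⊥ ∧ p.2 ≠ ⊥ ∧
      IsCoprime p.1 𝔣 ∧ IsCoprime p.2 𝔣 ∧ p.1 ≠ p.2) →
      ∑ p ∈ S, ‖WW 𝔣 p.1 p.2‖ * (nm p.1 * nm p.2) ^ (-1 - δ / 2) ≤ C2)
    (hmol : ∀ ψ ∈ PC 𝔣, ‖mol 𝔣 M t ψ‖ ≤ Cm)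
    (hdual : ∀ ψ ∈ PC 𝔣, ∀ y : ℝ, ‖LL K ψ ((-δ : ℝ) + (y : ℂ) * I)‖ ≤ V * Real.exp (Ad * |y|)) :
    2 * Real.pi * ‖∑ ψ ∈ PC 𝔣, LL K ψ (hp t) * mol 𝔣 M t ψ - ((PC 𝔣).card : ℂ)‖ ≤
      ((PC 𝔣).card : ℝ) * (X ^ (-1 / 4 : ℝ) * GI 1 (-1 / 4) 0) +
      C1 * M ^ (1 / 2 + δ) * C2 * X ^ (1 / 2 + δ) * GI 1 (1 / 2 + δ) 0 +
      ((PC 𝔣).card : ℝ) * (Cm * (V * Real.exp (Ad * |t|) * X ^ (-(1 / 2 + δ)) *
        GI 1 (-(1 / 2 + δ)) Ad)) := by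
  classical
  have hX0 : 0 < X := by linarith
  set c : ℝ := 1 / 2 + δ with hc
  have hc0 : 0 < c := by rw [hc]; linarith
  have hc1 : c ≤ 1 := by rw [hc]; linarith
  have hdata := fun ψ (hψ : ψ ∈ PC 𝔣) => prim_data htop ((mem_PC hbot htop).mp hψ)
  have hXc := differentiable_cpow hX0
  -- bounds for the power
  have hXr : ∀ w : ℂ, w.re ≤ c → ‖(X : ℂ) ^ w‖ ≤ X ^ c := fun w hw => by
    rw [norm_cpow_real hX0]
    exact Real.rpow_le_rpow_of_exponent_le hX hw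
  -- the residue formula for one character
  have hone : ∀ ψ ∈ PC 𝔣, Integrable (Ik 1 (fun w => LL K ψ (hp t + w) * (X : ℂ) ^ w) c) ∧
      JJ 1 (fun w => LL K ψ (hp t + w) * (X : ℂ) ^ w) c -
        JJ 1 (fun w => LL K ψ (hp t + w) * (X : ℂ) ^ w) (-c) = 2 * Real.pi * LL K ψ (hp t) := by
    intro ψ hψ
    obtain ⟨d1, d2, C, A, d3⟩ := hdata ψ hψ
    have hL : Differentiable ℂ (fun w : ℂ => LL K ψ (hp t + w) * (X : ℂ) ^ w) :=
      (d1.diff.comp ((differentiable_const _).add differentiable_id)).mul hXc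
    have hg : Grow (fun w => LL K ψ (hp t + w) * (X : ℂ) ^ w) (-c) c
        (C * Real.exp (|A| * |t|) * X ^ c) |A| := by
      intro w h1 h2
      have h3 := d3.shift t (w := w) (by linarith) (by linarith)
      have h0 : 0 ≤ C := (d3.nonneg (by norm_num)).1
      rw [norm_mul]
      calc _ ≤ (C * Real.exp (|A| * |t|) * Real.exp (|A| * |w.im|)) * X ^ c :=
            mul_le_mul h3 (hXr w h2) (norm_nonneg _) (by positivity)
        _ = _ := by ring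
    have h0 : 0 ≤ C := (d3.nonneg (by norm_num)).1
    refine ⟨Ik_int hint hc0.ne' (C := C * Real.exp (|A| * |t|) * X ^ c) (A := |A|)
      (by positivity) (hL.continuous.comp (pt_cont c)) (fun v => ?_), ?_⟩
    · have := hg (pt c v) (by rw [pt_re]; linarith) (by rw [pt_re])
      rwa [pt_im] at this
    · have h4 := (hres (-2) 2 (-c) c _ _ _ (by linarith) (by linarith) hc0 (by linarith)
        hL.differentiableOn hg).1
      rw [h4, add_zero, Complex.cpow_zero, mul_one]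
  -- the left line for one character
  have hleft : ∀ ψ ∈ PC 𝔣, ‖JJ 1 (fun w => LL K ψ (hp t + w) * (X : ℂ) ^ w) (-c)‖ ≤
      V * Real.exp (Ad * |t|) * X ^ (-c) * GI 1 (-c) Ad := by
    intro ψ hψ
    obtain ⟨d1, d2, C, A, d3⟩ := hdata ψ hψ
    have hL : Differentiable ℂ (fun w : ℂ => LL K ψ (hp t + w) * (X : ℂ) ^ w) :=
      (d1.diff.comp ((differentiable_const _).add differentiable_id)).mul hXc
    refine (hint 1 _ (-c) (V * Real.exp (Ad * |t|) * X ^ (-c)) Ad (by linarith) (by positivity)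
      (hL.continuous.comp (pt_cont (-c))) (fun v => ?_)).2
    rw [norm_mul, norm_cpow_real hX0, pt_re]
    have h1 : hp t + pt (-c) v = ((-δ : ℝ) : ℂ) + ((t + v : ℝ) : ℂ) * I := by
      unfold hp pt
      rw [hc]
      push_cast
      ring
    rw [h1]
    have h2 := hdual ψ hψ (t + v)
    have h3 : Real.exp (Ad * |t + v|) ≤ Real.exp (Ad * |t|) * Real.exp (Ad * |v|) := by
      rw [← Real.exp_add, ← mul_add]
      exact Real.exp_le_exp.mpr (mul_le_mul_of_nonneg_left (abs_add_le _ _) hAd)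
    calc _ ≤ (V * (Real.exp (Ad * |t|) * Real.exp (Ad * |v|))) * X ^ (-c) := by
          refine mul_le_mul_of_nonneg_right (h2.trans (mul_le_mul_of_nonneg_left h3 hV)) (by positivity)
      _ = _ := by ring
  -- the power alone
  have hpow : JJ 1 (fun w => (X : ℂ) ^ w) c - JJ 1 (fun w => (X : ℂ) ^ w) (-1 / 4) =
      2 * Real.pi := by
    have h4 := (hres (-2) 2 (-1 / 4) c (X ^ c) 0 _ (by norm_num) (by norm_num) hc0 (by linarith)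
      hXc.differentiableOn (by
        intro w h1 h2
        rw [zero_mul, Real.exp_zero, mul_one]
        exact hXr w h2)).1
    rw [h4, Complex.cpow_zero, mul_one]
  have hpowl : ‖JJ 1 (fun w => (X : ℂ) ^ w) (-1 / 4)‖ ≤ X ^ (-1 / 4 : ℝ) * GI 1 (-1 / 4) 0 := by
    refine (hint 1 _ (-1 / 4) (X ^ (-1 / 4 : ℝ)) 0 (by norm_num) (by positivity)
      (hXc.continuous.comp (pt_cont _)) (fun v => ?_)).2
    rw [norm_cpow_real hX0, pt_re, zero_mul, Real.exp_zero, mul_one]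
  have hpowi : Integrable (Ik 1 (fun w => (X : ℂ) ^ w) c) :=
    Ik_int hint hc0.ne' (C := X ^ c) (A := 0) (by positivity)
      (hXc.continuous.comp (pt_cont c)) (fun v => by
        rw [zero_mul, Real.exp_zero, mul_one]
        exact hXr _ (by rw [pt_re]))
  -- the sum
  obtain ⟨G, hG⟩ : ∃ G : ℂ → ℂ, ∀ w, G w = ∑ ψ ∈ PC 𝔣, LL K ψ (hp t + w) * mol 𝔣 M t ψ -
      ((PC 𝔣).card : ℂ) := ⟨_, fun _ => rfl⟩
  have hGd : Differentiable ℂ G := by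
    have : G = fun w => ∑ ψ ∈ PC 𝔣, LL K ψ (hp t + w) * mol 𝔣 M t ψ - ((PC 𝔣).card : ℂ) :=
      funext hG
    rw [this]
    refine Differentiable.sub_const ?_ _
    refine Differentiable.fun_sum fun ψ hψ => ?_
    obtain ⟨d1, -⟩ := hdata ψ hψ
    exact (d1.diff.comp ((differentiable_const _).add differentiable_id)).mul_const _
  have hGb : ∀ v : ℝ, ‖G (pt c v)‖ ≤ C1 * M ^ (1 / 2 + δ) * C2 := by
    intro v
    rw [hG]
    have h1 := line1 hexp hbil hbot htop (t := t) hM hδ hC1 hC2 hb hod (w := pt c v) (pt_re c v)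
    have h2 : ∀ ψ ∈ PC 𝔣, LL K ψ (hp t + pt c v) * mol 𝔣 M t ψ =
        LI ψ (hp t + pt c v) * mol 𝔣 M t ψ := by
      intro ψ hψ
      obtain ⟨-, d2, -⟩ := hdata ψ hψ
      rw [d2 _ (by rw [add_re, hp_re, pt_re, hc]; linarith)]
    rw [Finset.sum_congr rfl h2]
    exact h1
  have hGX : ‖JJ 1 (fun w => G w * (X : ℂ) ^ w) c‖ ≤
      C1 * M ^ (1 / 2 + δ) * C2 * X ^ c * GI 1 c 0 := by
    refine (hint 1 (fun w => G w * (X : ℂ) ^ w) c (C1 * M ^ (1 / 2 + δ) * C2 * X ^ c) 0 hc0.ne'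
      (by positivity) ((hGd.mul hXc).continuous.comp (pt_cont c)) (fun v => ?_)).2
    rw [norm_mul, zero_mul, Real.exp_zero, mul_one]
    exact mul_le_mul (hGb v) (hXr _ (by rw [pt_re])) (norm_nonneg _) (by positivity)
  have hGXi : Integrable (Ik 1 (fun w => G w * (X : ℂ) ^ w) c) := by
    refine Ik_int hint hc0.ne' (C := C1 * M ^ (1 / 2 + δ) * C2 * X ^ c) (A := 0) (by positivity)
      ((hGd.mul hXc).continuous.comp (pt_cont c)) (fun v => ?_)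
    rw [norm_mul, zero_mul, Real.exp_zero, mul_one]
    exact mul_le_mul (hGb v) (hXr _ (by rw [pt_re])) (norm_nonneg _) (by positivity)
  have hsum : ∑ ψ ∈ PC 𝔣, mol 𝔣 M t ψ * JJ 1 (fun w => LL K ψ (hp t + w) * (X : ℂ) ^ w) c =
      JJ 1 (fun w => G w * (X : ℂ) ^ w) c +
        ((PC 𝔣).card : ℂ) * JJ 1 (fun w => (X : ℂ) ^ w) c := by
    have e1 : ∑ ψ ∈ PC 𝔣, mol 𝔣 M t ψ * JJ 1 (fun w => LL K ψ (hp t + w) * (X : ℂ) ^ w) c =
        JJ 1 (fun w => ∑ ψ ∈ PC 𝔣, mol 𝔣 M t ψ * (LL K ψ (hp t + w) * (X : ℂ) ^ w)) c := by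
      rw [JJ_sum (PC 𝔣) (fun ψ w => mol 𝔣 M t ψ * (LL K ψ (hp t + w) * (X : ℂ) ^ w))
        (fun ψ hψ => Ik_cmul _ (hone ψ hψ).1)]
      exact Finset.sum_congr rfl fun ψ _ => (JJ_cmul _).symm
    rw [e1, ← JJ_cmul, ← JJ_add hGXi (Ik_cmul _ hpowi)]
    refine JJ_congr fun v => ?_
    rw [hG, sub_mul, Finset.sum_mul]
    have : ∀ ψ ∈ PC 𝔣, mol 𝔣 M t ψ * (LL K ψ (hp t + pt c v) * (X : ℂ) ^ (pt c v)) =
        LL K ψ (hp t + pt c v) * mol 𝔣 M t ψ * (X : ℂ) ^ (pt c v) := fun ψ _ => by ring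
    rw [Finset.sum_congr rfl this]
    ring
  -- the identity
  have hid : 2 * Real.pi * (∑ ψ ∈ PC 𝔣, LL K ψ (hp t) * mol 𝔣 M t ψ - ((PC 𝔣).card : ℂ)) =
      ((PC 𝔣).card : ℂ) * JJ 1 (fun w => (X : ℂ) ^ w) (-1 / 4) +
      JJ 1 (fun w => G w * (X : ℂ) ^ w) c -
      ∑ ψ ∈ PC 𝔣, mol 𝔣 M t ψ * JJ 1 (fun w => LL K ψ (hp t + w) * (X : ℂ) ^ w) (-c) := by
    have e1 : 2 * (Real.pi : ℂ) * ∑ ψ ∈ PC 𝔣, LL K ψ (hp t) * mol 𝔣 M t ψ =
        ∑ ψ ∈ PC 𝔣, mol 𝔣 M t ψ * JJ 1 (fun w => LL K ψ (hp t + w) * (X : ℂ) ^ w) c -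
        ∑ ψ ∈ PC 𝔣, mol 𝔣 M t ψ * JJ 1 (fun w => LL K ψ (hp t + w) * (X : ℂ) ^ w) (-c) := by
      rw [← Finset.sum_sub_distrib, Finset.mul_sum]
      refine Finset.sum_congr rfl fun ψ hψ => ?_
      have := (hone ψ hψ).2
      rw [← mul_sub, this]
      ring
    have e2 : JJ 1 (fun w => (X : ℂ) ^ w) c = JJ 1 (fun w => (X : ℂ) ^ w) (-1 / 4) +
        2 * Real.pi := by
      rw [← hpow]; ring
    rw [mul_sub, e1, hsum, e2]
    ring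
  have hnorm : 2 * Real.pi * ‖∑ ψ ∈ PC 𝔣, LL K ψ (hp t) * mol 𝔣 M t ψ - ((PC 𝔣).card : ℂ)‖ =
      ‖2 * (Real.pi : ℂ) * (∑ ψ ∈ PC 𝔣, LL K ψ (hp t) * mol 𝔣 M t ψ - ((PC 𝔣).card : ℂ))‖ := by
    rw [norm_mul, norm_mul, Complex.norm_real, Real.norm_of_nonneg Real.pi_pos.le]
    norm_num
  rw [hnorm, hid]
  refine (norm_sub_le _ _).trans (add_le_add ((norm_add_le _ _).trans (add_le_add ?_ hGX)) ?_)
  · rw [norm_mul, Complex.norm_natCast]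
    exact mul_le_mul_of_nonneg_left hpowl (Nat.cast_nonneg _)
  · refine (norm_sum_le _ _).trans ?_
    have : ∀ ψ ∈ PC 𝔣, ‖mol 𝔣 M t ψ * JJ 1 (fun w => LL K ψ (hp t + w) * (X : ℂ) ^ w) (-c)‖ ≤
        Cm * (V * Real.exp (Ad * |t|) * X ^ (-c) * GI 1 (-c) Ad) := by
      intro ψ hψ
      rw [norm_mul]
      exact mul_le_mul (hmol ψ hψ) (hleft ψ hψ) (norm_nonneg _) hCm
    refine (Finset.sum_le_sum this).trans ?_
    rw [Finset.sum_const, nsmul_eq_mul]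

end

end Pool.Agent.Y773.NV
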