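import Pool.Agent.Y773.NV.Mom1

/-! # The second moment -/

set_option autoImplicit false
set_option linter.unusedSectionVars false

open Complex MeasureTheory NumberField Filter Topology

namespace Pool.Agent.Y773.NV

open Pool.Agent.Y773 (LI FEd)
open Pool.Agent.Y773.IQ (LL LL_eq)

section

variable {ι : Type}

lemma nA_pos {P : Finset ι} {N : ι → ℝ} (hN : ∀ p ∈ P, 2 ≤ N p) {A : Finset ι} (hA : A ⊆ P) :
    0 < nA N A := Finset.prod_pos fun p hp => by have := hN p (hA hp); linarith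

lemma SM_sub {P : Finset ι} {N : ι → ℝ} {M : ℝ} {A : Finset ι} (h : A ∈ SM P N M) :
    A ⊆ P ∧ nA N A ≤ M := by
  classical
  unfold SM at h
  obtain ⟨h1, h2⟩ := Finset.mem_filter.mp h
  exact ⟨Finset.mem_powerset.mp h1, h2⟩

/-- `B` is bounded on vertical strips -/
lemma BB_bdd {P : Finset ι} {N : ι → ℝ} (hN : ∀ p ∈ P, 2 ≤ N p) (M l r : ℝ) :
    ∃ CB : ℝ, 0 ≤ CB ∧ ∀ w : ℂ, l ≤ w.re → w.re ≤ r → ‖BB P N M w‖ ≤ CB := by
  classical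
  obtain ⟨f, hf⟩ : ∃ f : ℝ → ℝ, ∀ x, f x = ∑ A ∈ SM P N M, ∑ B ∈ SM P N M,
      |bS P N M A * bS P N M B| * (nA N A * nA N B) ^ x * (nA N (A ∪ B)) ^ (-1 - 2 * x) :=
    ⟨_, fun _ => rfl⟩
  have hfc : Continuous f := by
    have : f = fun x => ∑ A ∈ SM P N M, ∑ B ∈ SM P N M,
      |bS P N M A * bS P N M B| * (nA N A * nA N B) ^ x * (nA N (A ∪ B)) ^ (-1 - 2 * x) := funext hf
    rw [this]
    refine continuous_finsetSum _ fun A hA => continuous_finsetSum _ fun B hB => ?_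
    have h1 := nA_pos hN (SM_sub hA).1
    have h2 := nA_pos hN (SM_sub hB).1
    have h3 := nA_pos hN (Finset.union_subset (SM_sub hA).1 (SM_sub hB).1)
    refine (continuous_const.mul ?_).mul ?_
    · exact Continuous.rpow continuous_const continuous_id (fun _ => Or.inl (by positivity))
    · exact Continuous.rpow continuous_const (by fun_prop) (fun _ => Or.inl h3.ne')
  obtain ⟨C, hC⟩ := (isCompact_Icc (a := l) (b := r)).exists_bound_of_continuousOn hfc.continuousOn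
  refine ⟨|C|, abs_nonneg _, fun w h1 h2 => ?_⟩
  refine le_trans ?_ ((le_abs_self _).trans ((hC w.re ⟨h1, h2⟩).trans (le_abs_self C)))
  rw [hf]
  unfold BB
  refine (norm_sum_le _ _).trans (Finset.sum_le_sum fun A hA => (norm_sum_le _ _).trans
    (Finset.sum_le_sum fun B hB => ?_))
  have h1 := nA_pos hN (SM_sub hA).1
  have h2 := nA_pos hN (SM_sub hB).1
  have h3 := nA_pos hN (Finset.union_subset (SM_sub hA).1 (SM_sub hB).1)
  rw [norm_mul, norm_mul, Complex.norm_real, Real.norm_eq_abs, norm_cpow_real (by positivity),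
    norm_cpow_real (by convert h3)]
  apply le_of_eq
  congr 2
  simp

end

section

variable {K : Type} [Field K] [NumberField K] [IsTotallyComplex K]

lemma nm_prime {𝔭 : Ideal (𝓞 K)} (h : Prime 𝔭) : 2 ≤ nm 𝔭 := by
  unfold nm
  exact_mod_cast Pool.Agent.Y773.AB.norm_prime_ge h

lemma nm_Pr {𝔣 : Ideal (𝓞 K)} {M : ℝ} : ∀ 𝔭 ∈ Pr 𝔣 M, 2 ≤ nm 𝔭 := fun _ h =>
  nm_prime (mem_Pr.mp h).1

lemma RR_pos {𝔣 : Ideal (𝓞 K)} (h : 𝔣 ≠ ⊥) : 1 ≤ RR 𝔣 := by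
  unfold RR
  have h1 : Ideal.absNorm 𝔣 ≠ 0 := by rwa [Ne, Ideal.absNorm_eq_zero_iff]
  have h2 : Ideal.absNorm (differentIdeal ℤ (𝓞 K)) ≠ 0 := by
    rw [Ne, Ideal.absNorm_eq_zero_iff]
    exact differentIdeal_ne_bot
  exact_mod_cast Nat.one_le_iff_ne_zero.mpr (mul_ne_zero h1 h2)

/-- the function whose derivative at `0` gives the main term -/
noncomputable def H1f (𝔣 : Ideal (𝓞 K)) (M t : ℝ) (Z : ℂ → ℂ) (w : ℂ) : ℂ :=
  1 / 2 * Z (1 + 2 * w) * BB (Pr 𝔣 M) nm M w * ((RR 𝔣 : ℝ) : ℂ) ^ w * gr (e0 K) t w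

/-- **the second moment, explicit** -/
theorem mom2 (hint : St_INT) (hres : St_RES) (hafe : St_AFE) (hexp : St_EXP) (hbil : St_BIL)
    (hdiag : St_DIAG) {𝔣 : Ideal (𝓞 K)} (hbot : 𝔣 ≠ ⊥) (htop : 𝔣 ≠ ⊤)
    {M t δ C1 C2 C3 A3 Cg CB : ℝ} (hM : 1 ≤ M) (hδ : 0 < δ) (hδ2 : δ ≤ 1 / 2) (hC1 : 0 ≤ C1)
    (hC2 : 0 ≤ C2) (hC3 : 0 ≤ C3) (hCg : 0 ≤ Cg) (_hA3 : 0 ≤ A3)
    (hb : ∀ (s : ℂ) (𝔲 : Ideal (𝓞 K)), 1 / 2 ≤ s.re → 𝔲 ≠ ⊥ →
      ‖aC 𝔣 M t s 𝔲‖ ≤ C1 * M ^ (s.re - 1 / 2) * nm 𝔲 ^ (δ / 2 - s.re))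
    (hod : ∀ S : Finset (Ideal (𝓞 K) × Ideal (𝓞 K)), (∀ p ∈ S, p.1 ≠ ⊥ ∧ p.2 ≠ ⊥ ∧
      IsCoprime p.1 𝔣 ∧ IsCoprime p.2 𝔣 ∧ p.1 ≠ p.2) →
      ∑ p ∈ S, ‖WW 𝔣 p.1 p.2‖ * (nm p.1 * nm p.2) ^ (-1 - δ / 2) ≤ C2)
    (Z : ℂ → ℂ) (hZd : DifferentiableOn ℂ Z {s | 1 / 2 < s.re})
    (hZL : ∀ s : ℂ, 1 < s.re → Z s = (s - 1) * LI (ch 𝔣) s)
    (hZb : ∀ s : ℂ, 3 / 4 ≤ s.re → s.re ≤ 3 → ‖Z s‖ ≤ C3 * Real.exp (A3 * |s.im|))
    (hgd : DifferentiableOn ℂ (gr (e0 K) t) {w | -1 / 2 < w.re})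
    (hgb : ∀ w : ℂ, -1 / 4 ≤ w.re → w.re ≤ 1 → ‖gr (e0 K) t w‖ ≤ Cg)
    (hBd : Differentiable ℂ (BB (Pr 𝔣 M) nm M))
    (hBl : ∀ w : ℂ, w.re = -1 / 8 → ‖BB (Pr 𝔣 M) nm M w‖ ≤ CB) :
    Real.pi * ∑ ψ ∈ PC 𝔣, ‖LL K ψ (hp t) * mol 𝔣 M t ψ‖ ^ 2 ≤
      ((PC 𝔣).card : ℝ) * (2 * Real.pi * (deriv (H1f 𝔣 M t Z) 0).re +
        C3 * CB * RR 𝔣 ^ (-1 / 8 : ℝ) * Cg * GI 2 (-1 / 8) (2 * A3)) +
      C1 * M ^ (1 / 2 + δ) * (C1 * M ^ (1 / 2 + δ)) * C2 * RR 𝔣 ^ (1 / 2 + δ) * Cg *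
        GI 1 (1 / 2 + δ) 0 := by
  classical
  have hR1 : 1 ≤ RR 𝔣 := RR_pos hbot
  have hR0 : 0 < RR 𝔣 := by linarith
  set c : ℝ := 1 / 2 + δ with hc
  have hc0 : 0 < c := by rw [hc]; linarith
  have hc1 : c ≤ 1 := by rw [hc]; linarith
  have hdata := fun ψ (hψ : ψ ∈ PC 𝔣) => prim_data htop ((mem_PC hbot htop).mp hψ)
  have hXc := differentiable_cpow hR0
  obtain ⟨CBs, hCBs0, hCBs⟩ := BB_bdd (P := Pr 𝔣 M) (N := nm) nm_Pr M (-1 / 8) c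
  have hCB0 : 0 ≤ CB := (norm_nonneg _).trans (hBl (pt (-1 / 8) 0) (pt_re _ _))
  -- continuity on lines
  have hgc : ∀ a : ℝ, -1 / 2 < a → Continuous (fun v : ℝ => gr (e0 K) t (pt a v)) := by
    intro a ha
    have h1 : ContinuousOn (gr (e0 K) t) {w | -1 / 2 < w.re} := hgd.continuousOn
    exact h1.comp_continuous (pt_cont a) (fun v => by
      change -1 / 2 < (pt a v).re
      rw [pt_re]; exact ha)
  have hZc : ∀ a : ℝ, -1 / 4 < a → Continuous (fun v : ℝ => Z (1 + 2 * pt a v)) := by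
    intro a ha
    have h1 : ContinuousOn Z {s | 1 / 2 < s.re} := hZd.continuousOn
    refine h1.comp_continuous (f := fun v : ℝ => 1 + 2 * pt a v)
      (continuous_const.add (continuous_const.mul (pt_cont a))) (fun v => ?_)
    change 1 / 2 < (1 + 2 * pt a v).re
    have : (1 + 2 * pt a v).re = 1 + 2 * a := by simp [pt_re]
    rw [this]; linarith
  -- the main function
  have hHb : ∀ w : ℂ, -1 / 8 ≤ w.re → w.re ≤ c → ∀ CB' : ℝ, ‖BB (Pr 𝔣 M) nm M w‖ ≤ CB' →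
      ‖H1f 𝔣 M t Z w‖ ≤ C3 * CB' * RR 𝔣 ^ w.re * Cg * Real.exp (2 * A3 * |w.im|) := by
    intro w h1 h2 CB' h3
    unfold H1f
    have hre : (1 + 2 * w).re = 1 + 2 * w.re := by simp
    have him : (1 + 2 * w).im = 2 * w.im := by simp
    have h4 := hZb (1 + 2 * w) (by rw [hre]; linarith) (by rw [hre]; linarith)
    rw [him, abs_mul, abs_two] at h4
    have h5 := hgb w (by linarith) (by linarith)
    have h6 : 0 ≤ CB' := (norm_nonneg _).trans h3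
    rw [norm_mul, norm_mul, norm_mul, norm_mul, norm_cpow_real hR0]
    have h7 : ‖(1 / 2 : ℂ)‖ = 1 / 2 := by norm_num
    rw [h7]
    calc 1 / 2 * ‖Z (1 + 2 * w)‖ * ‖BB (Pr 𝔣 M) nm M w‖ * RR 𝔣 ^ w.re * ‖gr (e0 K) t w‖
        ≤ 1 * (C3 * Real.exp (A3 * (2 * |w.im|))) * CB' * RR 𝔣 ^ w.re * Cg := by
          gcongr
          norm_num
      _ = _ := by
          rw [show 2 * A3 * |w.im| = A3 * (2 * |w.im|) by ring]
          ring
  have hHd : DifferentiableOn ℂ (H1f 𝔣 M t Z) (strip (-1 / 4) 2) := by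
    unfold H1f
    have d1 : DifferentiableOn ℂ (fun w : ℂ => Z (1 + 2 * w)) (strip (-1 / 4) 2) := by
      refine hZd.comp (by fun_prop) (fun w hw => ?_)
      change 1 / 2 < (1 + 2 * w).re
      have hre : (1 + 2 * w).re = 1 + 2 * w.re := by simp
      rw [hre]
      have := hw.1
      linarith
    have d2 : DifferentiableOn ℂ (gr (e0 K) t) (strip (-1 / 4) 2) := by
      refine hgd.mono fun w hw => ?_
      change -1 / 2 < w.re
      have := hw.1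
      linarith
    exact (((d1.const_mul _).mul hBd.differentiableOn).mul hXc.differentiableOn).mul d2
  have hHg : Grow (H1f 𝔣 M t Z) (-1 / 8) c (C3 * CBs * RR 𝔣 ^ c * Cg) (2 * A3) := by
    intro w h1 h2
    refine (hHb w h1 h2 CBs (hCBs w h1 h2)).trans ?_
    have : RR 𝔣 ^ w.re ≤ RR 𝔣 ^ c := Real.rpow_le_rpow_of_exponent_le hR1 h2
    gcongr
  have hmain := (hres (-1 / 4) 2 (-1 / 8) c _ _ _ (by norm_num) (by norm_num) hc0 (by linarith)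
    hHd hHg).2
  have hHc : ∀ a : ℝ, -1 / 4 < a → Continuous (fun v : ℝ => H1f 𝔣 M t Z (pt a v)) := by
    intro a ha
    unfold H1f
    exact (((continuous_const.mul (hZc a ha)).mul (hBd.continuous.comp (pt_cont a))).mul
      (hXc.continuous.comp (pt_cont a))).mul (hgc a (by linarith))
  have hleft : ‖JJ 2 (H1f 𝔣 M t Z) (-1 / 8)‖ ≤
      C3 * CB * RR 𝔣 ^ (-1 / 8 : ℝ) * Cg * GI 2 (-1 / 8) (2 * A3) := by
    refine (hint 2 _ (-1 / 8) _ (2 * A3) (by norm_num) (by positivity) (hHc _ (by norm_num))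
      (fun v => ?_)).2
    have h1 := hHb (pt (-1 / 8) v) (by rw [pt_re]) (by rw [pt_re]; linarith) CB (hBl _ (pt_re _ _))
    rwa [pt_re, pt_im] at h1
  have hHi : Integrable (Ik 2 (H1f 𝔣 M t Z) c) := by
    refine Ik_int hint hc0.ne' (C := C3 * CBs * RR 𝔣 ^ c * Cg) (A := 2 * A3) (by positivity)
      (hHc c (by linarith)) (fun v => ?_)
    have := hHg (pt c v) (by rw [pt_re]; linarith) (by rw [pt_re])
    rwa [pt_im] at this
  -- one character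
  obtain ⟨U, hU⟩ : ∃ U : (Ideal (𝓞 K) →*₀ ℂ) → ℂ → ℂ, ∀ ψ w, U ψ w = LL K ψ (hp t + w) *
      (starRingEnd ℂ) (LL K ψ (hp t + (starRingEnd ℂ) w)) * ((RR 𝔣 : ℝ) : ℂ) ^ w *
      gr (e0 K) t w := ⟨_, fun _ _ => rfl⟩
  have hcc : ∀ ψ ∈ PC 𝔣, Continuous (fun v : ℝ =>
      (starRingEnd ℂ) (LL K ψ (hp t + (starRingEnd ℂ) (pt c v)))) := by
    intro ψ hψ
    obtain ⟨d1, -⟩ := hdata ψ hψ
    exact Complex.continuous_conj.comp (d1.diff.continuous.comp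
      (continuous_const.add (Complex.continuous_conj.comp (pt_cont c))))
  have hlc : ∀ ψ ∈ PC 𝔣, Continuous (fun v : ℝ => LL K ψ (hp t + pt c v)) := by
    intro ψ hψ
    obtain ⟨d1, -⟩ := hdata ψ hψ
    exact d1.diff.continuous.comp (continuous_const.add (pt_cont c))
  have hone : ∀ ψ ∈ PC 𝔣, Integrable (Ik 1 (U ψ) c) ∧ Real.pi * (LL K ψ (hp t) *
      (starRingEnd ℂ) (LL K ψ (hp t))) = JJ 1 (U ψ) c := by
    intro ψ hψ
    obtain ⟨d1, d2, C, A, d3⟩ := hdata ψ hψ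
    have h0 : 0 ≤ C := (d3.nonneg (by norm_num)).1
    have hUe : U ψ = fun w => LL K ψ (hp t + w) *
      (starRingEnd ℂ) (LL K ψ (hp t + (starRingEnd ℂ) w)) * ((RR 𝔣 : ℝ) : ℂ) ^ w *
      gr (e0 K) t w := funext (hU ψ)
    constructor
    · refine Ik_int hint hc0.ne' (C := (C * Real.exp (|A| * |t|)) * (C * Real.exp (|A| * |t|)) *
        RR 𝔣 ^ c * Cg) (A := 2 * |A|) (by positivity) ?_ (fun v => ?_)
      · rw [hUe]
        exact (((hlc ψ hψ).mul (hcc ψ hψ)).mul (hXc.continuous.comp (pt_cont c))).mul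
          (hgc c (by linarith))
      · rw [hU]
        have h3 := d3.shift t (w := pt c v) (by rw [pt_re]; linarith) (by rw [pt_re]; linarith)
        have h4 := d3.shift t (w := (starRingEnd ℂ) (pt c v)) (by rw [conj_re, pt_re]; linarith)
          (by rw [conj_re, pt_re]; linarith)
        rw [conj_im, abs_neg] at h4
        rw [pt_im] at h3 h4
        rw [norm_mul, norm_mul, norm_mul, RCLike.norm_conj, norm_cpow_real hR0, pt_re]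
        have h5 := hgb (pt c v) (by rw [pt_re]; linarith) (by rw [pt_re]; linarith)
        calc _ ≤ (C * Real.exp (|A| * |t|) * Real.exp (|A| * |v|)) *
              (C * Real.exp (|A| * |t|) * Real.exp (|A| * |v|)) * RR 𝔣 ^ c * Cg := by
              gcongr
          _ = _ := by
              rw [show 2 * |A| * |v| = |A| * |v| + |A| * |v| by ring, Real.exp_add]
              ring
    · rw [hUe]
      exact hafe (K →+* ℂ) (RR 𝔣) (e0 K) (LL K ψ) hR0 d1 ⟨C, A, d3⟩ t c hc0 hc1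
  -- the off-diagonal function
  obtain ⟨G, hG⟩ : ∃ G : ℂ → ℂ, ∀ w, G w = (∑ ψ ∈ PC 𝔣, (LL K ψ (hp t + w) * mol 𝔣 M t ψ) *
        (starRingEnd ℂ) (LL K ψ (hp t + (starRingEnd ℂ) w) * mol 𝔣 M t ψ)) -
      ((PC 𝔣).card : ℂ) * (Z (1 + 2 * w) / (2 * w) * BB (Pr 𝔣 M) nm M w) := ⟨_, fun _ => rfl⟩
  have hGb : ∀ v : ℝ, ‖G (pt c v)‖ ≤ C1 * M ^ (1 / 2 + δ) * (C1 * M ^ (1 / 2 + δ)) * C2 := by
    intro v
    rw [hG]
    have h1 := line2 hexp hbil hdiag hbot htop (t := t) hM hδ hC1 hC2 hb hod (w := pt c v)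
      (pt_re c v)
    have h2 : ∀ ψ ∈ PC 𝔣, (LL K ψ (hp t + pt c v) * mol 𝔣 M t ψ) *
        (starRingEnd ℂ) (LL K ψ (hp t + (starRingEnd ℂ) (pt c v)) * mol 𝔣 M t ψ) =
        (LI ψ (hp t + pt c v) * mol 𝔣 M t ψ) *
        (starRingEnd ℂ) (LI ψ (hp t + (starRingEnd ℂ) (pt c v)) * mol 𝔣 M t ψ) := by
      intro ψ hψ
      obtain ⟨-, d2, -⟩ := hdata ψ hψ
      rw [d2 _ (by rw [add_re, hp_re, pt_re, hc]; linarith),
        d2 _ (by rw [add_re, hp_re, conj_re, pt_re, hc]; linarith)]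
    have h3 : Z (1 + 2 * pt c v) / (2 * pt c v) = LI (ch 𝔣) (1 + 2 * pt c v) := by
      rw [hZL _ (by
        have : (1 + 2 * pt c v).re = 1 + 2 * c := by simp [pt_re]
        rw [this]; linarith)]
      have := pt_ne (v := v) hc0.ne'
      field_simp
      ring
    rw [Finset.sum_congr rfl h2, h3]
    exact h1
  have hGc : Continuous (fun v : ℝ => G (pt c v)) := by
    have : G = fun w => (∑ ψ ∈ PC 𝔣, (LL K ψ (hp t + w) * mol 𝔣 M t ψ) *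
        (starRingEnd ℂ) (LL K ψ (hp t + (starRingEnd ℂ) w) * mol 𝔣 M t ψ)) -
      ((PC 𝔣).card : ℂ) * (Z (1 + 2 * w) / (2 * w) * BB (Pr 𝔣 M) nm M w) := funext hG
    rw [this]
    refine Continuous.sub (continuous_finsetSum _ fun ψ hψ => ?_) ?_
    · refine ((hlc ψ hψ).mul continuous_const).mul ?_
      simp only [map_mul]
      exact (hcc ψ hψ).mul continuous_const
    · refine continuous_const.mul (Continuous.mul ?_ (hBd.continuous.comp (pt_cont c)))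
      exact (hZc c (by linarith)).div (continuous_const.mul (pt_cont c))
        (fun v => mul_ne_zero two_ne_zero (pt_ne hc0.ne'))
  obtain ⟨GR, hGR⟩ : ∃ GR : ℂ → ℂ, ∀ w, GR w = G w * ((RR 𝔣 : ℝ) : ℂ) ^ w * gr (e0 K) t w :=
    ⟨_, fun _ => rfl⟩
  have hGRc : Continuous (fun v : ℝ => GR (pt c v)) := by
    have : GR = fun w => G w * ((RR 𝔣 : ℝ) : ℂ) ^ w * gr (e0 K) t w := funext hGR
    rw [this]
    exact (hGc.mul (hXc.continuous.comp (pt_cont c))).mul (hgc c (by linarith))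
  have hGRb : ∀ v : ℝ, ‖GR (pt c v)‖ ≤
      C1 * M ^ (1 / 2 + δ) * (C1 * M ^ (1 / 2 + δ)) * C2 * RR 𝔣 ^ c * Cg *
        Real.exp (0 * |v|) := by
    intro v
    rw [hGR, norm_mul, norm_mul, norm_cpow_real hR0, pt_re, zero_mul, Real.exp_zero, mul_one]
    have h5 := hgb (pt c v) (by rw [pt_re]; linarith) (by rw [pt_re]; linarith)
    have h6 := hGb v
    gcongr
  have hGRi : Integrable (Ik 1 GR c) := Ik_int hint hc0.ne' (by positivity) hGRc hGRb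
  have hGRn := (hint 1 GR c _ 0 hc0.ne' (by positivity) hGRc hGRb).2
  -- the identity
  have hid : (Real.pi : ℂ) * ∑ ψ ∈ PC 𝔣, (LL K ψ (hp t) * mol 𝔣 M t ψ) *
      (starRingEnd ℂ) (LL K ψ (hp t) * mol 𝔣 M t ψ) =
      JJ 1 GR c + ((PC 𝔣).card : ℂ) * JJ 2 (H1f 𝔣 M t Z) c := by
    have e1 : (Real.pi : ℂ) * ∑ ψ ∈ PC 𝔣, (LL K ψ (hp t) * mol 𝔣 M t ψ) *
      (starRingEnd ℂ) (LL K ψ (hp t) * mol 𝔣 M t ψ) =
      JJ 1 (fun w => ∑ ψ ∈ PC 𝔣, (mol 𝔣 M t ψ * (starRingEnd ℂ) (mol 𝔣 M t ψ)) * U ψ w) c := by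
      rw [JJ_sum (PC 𝔣) (fun ψ w => (mol 𝔣 M t ψ * (starRingEnd ℂ) (mol 𝔣 M t ψ)) * U ψ w)
        (fun ψ hψ => Ik_cmul _ (hone ψ hψ).1), Finset.mul_sum]
      refine Finset.sum_congr rfl fun ψ hψ => ?_
      rw [JJ_cmul, ← (hone ψ hψ).2, map_mul]
      ring
    have e2 : Integrable (Ik 1 (fun w => ((PC 𝔣).card : ℂ) * (H1f 𝔣 M t Z w / w)) c) := by
      refine Ik_cmul _ (hHi.congr (Eventually.of_forall fun v => ?_))
      simp only [Ik]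
      have := pt_ne (v := v) hc0.ne'
      field_simp
    have e3 : JJ 1 (fun w => H1f 𝔣 M t Z w / w) c = JJ 2 (H1f 𝔣 M t Z) c := by
      unfold JJ
      refine integral_congr_ae (Eventually.of_forall fun v => ?_)
      have := pt_ne (v := v) hc0.ne'
      field_simp
    rw [e1, ← e3, ← JJ_cmul, ← JJ_add hGRi e2]
    refine JJ_congr fun v => ?_
    rw [hGR, hG, sub_mul, sub_mul, Finset.sum_mul, Finset.sum_mul]
    have e4 : ∀ ψ ∈ PC 𝔣, (mol 𝔣 M t ψ * (starRingEnd ℂ) (mol 𝔣 M t ψ)) * U ψ (pt c v) =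
        (LL K ψ (hp t + pt c v) * mol 𝔣 M t ψ) *
        (starRingEnd ℂ) (LL K ψ (hp t + (starRingEnd ℂ) (pt c v)) * mol 𝔣 M t ψ) *
        ((RR 𝔣 : ℝ) : ℂ) ^ (pt c v) * gr (e0 K) t (pt c v) := by
      intro ψ _
      rw [hU, map_mul]
      ring
    rw [Finset.sum_congr rfl e4]
    have e5 : ((PC 𝔣).card : ℂ) * (Z (1 + 2 * pt c v) / (2 * pt c v) * BB (Pr 𝔣 M) nm M (pt c v)) *
        ((RR 𝔣 : ℝ) : ℂ) ^ (pt c v) * gr (e0 K) t (pt c v) =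
        ((PC 𝔣).card : ℂ) * (H1f 𝔣 M t Z (pt c v) / pt c v) := by
      unfold H1f
      have := pt_ne (v := v) hc0.ne'
      field_simp
    rw [e5]
    ring
  -- conclusion
  have hreal : (Real.pi : ℂ) * ∑ ψ ∈ PC 𝔣, (LL K ψ (hp t) * mol 𝔣 M t ψ) *
      (starRingEnd ℂ) (LL K ψ (hp t) * mol 𝔣 M t ψ) =
      ((Real.pi * ∑ ψ ∈ PC 𝔣, ‖LL K ψ (hp t) * mol 𝔣 M t ψ‖ ^ 2 : ℝ) : ℂ) := by
    push_cast
    congr 1
    refine Finset.sum_congr rfl fun ψ _ => ?_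
    rw [Complex.mul_conj, Complex.normSq_eq_norm_sq]
    push_cast
    rw [norm_mul]
  rw [hreal] at hid
  have hJ2 : JJ 2 (H1f 𝔣 M t Z) c = 2 * Real.pi * deriv (H1f 𝔣 M t Z) 0 +
      JJ 2 (H1f 𝔣 M t Z) (-1 / 8) := by
    rw [← hmain]; ring
  rw [hJ2] at hid
  have hre := congrArg Complex.re hid
  rw [ofReal_re, add_re] at hre
  rw [hre]
  have r1 : (JJ 1 GR c).re ≤ C1 * M ^ (1 / 2 + δ) * (C1 * M ^ (1 / 2 + δ)) * C2 * RR 𝔣 ^ c * Cg *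
        GI 1 c 0 := (re_le_norm _).trans hGRn
  have r2 : (((PC 𝔣).card : ℂ) * (2 * Real.pi * deriv (H1f 𝔣 M t Z) 0 +
      JJ 2 (H1f 𝔣 M t Z) (-1 / 8))).re = ((PC 𝔣).card : ℝ) *
      (2 * Real.pi * (deriv (H1f 𝔣 M t Z) 0).re + (JJ 2 (H1f 𝔣 M t Z) (-1 / 8)).re) := by
    have e6 : (((PC 𝔣).card : ℂ)) = (((PC 𝔣).card : ℝ) : ℂ) := by push_cast; rfl
    have e7 : (2 * (Real.pi : ℂ)) = ((2 * Real.pi : ℝ) : ℂ) := by push_cast; rfl
    rw [e6, re_ofReal_mul, add_re, e7, re_ofReal_mul]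
  rw [r2]
  have r3 : (JJ 2 (H1f 𝔣 M t Z) (-1 / 8)).re ≤ C3 * CB * RR 𝔣 ^ (-1 / 8 : ℝ) * Cg *
      GI 2 (-1 / 8) (2 * A3) := (re_le_norm _).trans hleft
  have r4 : (0 : ℝ) ≤ ((PC 𝔣).card : ℝ) := Nat.cast_nonneg _
  have r5 := mul_le_mul_of_nonneg_left (add_le_add_right r3
    (2 * Real.pi * (deriv (H1f 𝔣 M t Z) 0).re)) r4
  linarith

end

end Pool.Agent.Y773.NV
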