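import Pool.Agent.Y773.NV.Fm

/-! # The second moment, asymptotically -/

set_option autoImplicit false
set_option linter.unusedSectionVars false

open Complex MeasureTheory NumberField Filter Topology

namespace Pool.Agent.Y773.NV

open Pool.Agent.Y773 (LI FEd)
open Pool.Agent.Y773.IQ (LL LL_eq)

lemma sm_p1 {n M d δZ : ℝ} (hn : 1 ≤ n) (hd : 0 < d) (hd2 : d ≤ 1 / 8) (hδZ : δZ ≤ d / 20)
    (hMe : M = n ^ (1 / 2 - d)) :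
    n ^ δZ * (M ^ (1 / 4 : ℝ) * M ^ (d / 20 / 2)) * n ^ (-1 / 8 : ℝ) ≤ n ^ (-(d / 8)) := by
  have hn0 : 0 < n := by linarith
  rw [hMe, ← Real.rpow_mul hn0.le, ← Real.rpow_mul hn0.le, ← Real.rpow_add hn0,
    ← Real.rpow_add hn0, ← Real.rpow_add hn0]
  refine Real.rpow_le_rpow_of_exponent_le hn ?_
  nlinarith

lemma sm_p2 {n M d : ℝ} (hn : 1 ≤ n) (hd : 0 < d) (hd2 : d ≤ 1 / 8)
    (hMe : M = n ^ (1 / 2 - d)) :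
    M ^ (1 / 2 + d / 20) * M ^ (1 / 2 + d / 20) * n ^ (d / 20 / 2) * n ^ (1 / 2 + d / 20) ≤
      n ^ (-(d / 8)) * n ^ (1 - d / 8) := by
  have hn0 : 0 < n := by linarith
  rw [hMe, ← Real.rpow_mul hn0.le, ← Real.rpow_add hn0, ← Real.rpow_add hn0,
    ← Real.rpow_add hn0, ← Real.rpow_add hn0]
  refine Real.rpow_le_rpow_of_exponent_le hn ?_
  nlinarith

lemma sm_t1 {C1 C3 Cg g4 x1 x2 x3 R8 y8 q : ℝ} (hC1 : 0 ≤ C1) (hC3 : 0 ≤ C3) (hCg : 0 ≤ Cg)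
    (hg4 : 0 ≤ g4) (hx1 : 0 ≤ x1) (hx2 : 0 ≤ x2) (hx3 : 0 ≤ x3)
    (hR : R8 ≤ y8) (hp : x1 * (x2 * x3) * y8 ≤ q) :
    C3 * x1 * (x2 * (C1 * x3)) * R8 * Cg * g4 ≤ C3 * C1 * Cg * g4 * q := by
  have h1 : 0 ≤ C3 * C1 * Cg * g4 := by positivity
  have h2 : x1 * (x2 * x3) * R8 ≤ q := (mul_le_mul_of_nonneg_left hR (by positivity)).trans hp
  have h3 := mul_le_mul_of_nonneg_left h2 h1
  calc _ = C3 * C1 * Cg * g4 * (x1 * (x2 * x3) * R8) := by ring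
    _ ≤ _ := h3

lemma sm_t2 {C1 C2 dk Cg g2 x1 x2 x3 R y q z c : ℝ} (hC1 : 0 ≤ C1) (hC2 : 0 ≤ C2) (hCg : 0 ≤ Cg)
    (hg2 : 0 ≤ g2) (hdk : 0 ≤ dk) (hx1 : 0 ≤ x1) (hx2 : 0 ≤ x2) (hx3 : 0 ≤ x3) (hq : 0 ≤ q)
    (hR : R ≤ dk * y) (hp : x1 * x2 * x3 * y ≤ q * z) (hz : z ≤ c) :
    C1 * x1 * (C1 * x2) * (C2 * x3) * R * Cg * g2 ≤ C1 * C1 * C2 * dk * Cg * g2 * q * c := by
  have h1 : 0 ≤ C1 * C1 * C2 * dk * Cg * g2 := by positivity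
  have h2 : x1 * x2 * x3 * y ≤ q * c := hp.trans (mul_le_mul_of_nonneg_left hz hq)
  have h3 := mul_le_mul_of_nonneg_left h2 h1
  have h4 : C1 * x1 * (C1 * x2) * (C2 * x3) * Cg * g2 * R ≤
      C1 * x1 * (C1 * x2) * (C2 * x3) * Cg * g2 * (dk * y) :=
    mul_le_mul_of_nonneg_left hR (by positivity)
  calc _ = C1 * x1 * (C1 * x2) * (C2 * x3) * Cg * g2 * R := by ring
    _ ≤ _ := h4
    _ = C1 * C1 * C2 * dk * Cg * g2 * (x1 * x2 * x3 * y) := by ring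
    _ ≤ _ := h3
    _ = _ := by ring

lemma sm_t3 {D kG τ θ l lM lR lk δZ C3 C4 Cg Ea : ℝ} (hτ : 0 < τ) (hθ : 0 < θ) (hl : 0 < l)
    (hlM : lM = θ * l) (hlR : lR = l + lk) (hlk : 0 ≤ lk) (hδ0 : 0 ≤ δZ) (hδ : δZ ≤ τ)
    (hC3 : 0 ≤ C3) (hC4 : 0 ≤ C4) (hCg : 0 ≤ Cg) (hkG : kG ≤ (1 + τ) / lM)
    (hEa : Ea = 2 * C3 + 3 * C4 + lk + 4 * Cg)
    (hder : 2 * D ≤ kG * (2 * (δZ * l + C3) + (1 + τ) * lM + 3 * C4 + lR + 4 * Cg)) :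
    2 * D ≤ (1 + τ) * ((1 + 2 * τ) / θ + (1 + τ) + (Ea / θ) / l) := by
  subst hlM hlR hEa
  have h3 : 0 ≤ 2 * (δZ * l + C3) + (1 + τ) * (θ * l) + 3 * C4 + (l + lk) + 4 * Cg := by positivity
  refine hder.trans ((mul_le_mul_of_nonneg_right hkG h3).trans ?_)
  have h5 : 2 * (δZ * l + C3) + (1 + τ) * (θ * l) + 3 * C4 + (l + lk) + 4 * Cg ≤
      ((1 + 2 * τ) + (1 + τ) * θ) * l + (2 * C3 + 3 * C4 + lk + 4 * Cg) := by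
    have := mul_le_mul_of_nonneg_right hδ hl.le
    linarith
  calc _ ≤ (1 + τ) / (θ * l) * (((1 + 2 * τ) + (1 + τ) * θ) * l +
        (2 * C3 + 3 * C4 + lk + 4 * Cg)) := mul_le_mul_of_nonneg_left h5 (by positivity)
    _ = _ := by
        field_simp

lemma sm_fin {p S c D X Y Ea' Eb q l T1 T2 V W : ℝ} (hp : 1 ≤ p) (hc : 0 ≤ c) (hq : 0 ≤ q)
    (hl : 0 < l) (hEa : 0 ≤ Ea') (hEb : Eb = X + Y) (hX : 0 ≤ X) (hY : 0 ≤ Y) (hV : 0 ≤ V)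
    (hT1 : T1 ≤ X * q) (hT2 : T2 ≤ Y * q * c) (hD : 2 * D ≤ V * (W + Ea' / l))
    (key : p * S ≤ c * (2 * p * D + T1) + T2) :
    S ≤ (V * (W + (Ea' + Eb) / l) + (Ea' + Eb) * q) * c := by
  have hEb0 : 0 ≤ Eb := by rw [hEb]; positivity
  have h1 : p * S ≤ p * (c * (2 * D)) + Eb * q * c := by
    have h2 := mul_le_mul_of_nonneg_left hT1 hc
    rw [hEb]
    linarith
  have h3 : 0 ≤ Eb * q * c := by positivity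
  have h4 : p * S ≤ p * (c * (2 * D) + Eb * q * c) := by
    have := mul_le_mul_of_nonneg_right hp h3
    linarith
  have h5 : S ≤ c * (2 * D) + Eb * q * c := le_of_mul_le_mul_left h4 (by linarith)
  have h6 : Ea' / l ≤ (Ea' + Eb) / l := div_le_div_of_nonneg_right (by linarith) hl.le
  have h7 : 2 * D ≤ V * (W + (Ea' + Eb) / l) :=
    hD.trans (mul_le_mul_of_nonneg_left (by linarith) hV)
  have h8 := mul_le_mul_of_nonneg_left h7 hc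
  have h9 : Eb * q * c ≤ (Ea' + Eb) * q * c :=
    mul_le_mul_of_nonneg_right (mul_le_mul_of_nonneg_right (by linarith) hq) hc
  linarith

section

variable {K : Type} [Field K] [NumberField K]

lemma kap_nonneg (𝔣 : Ideal (𝓞 K)) : 0 ≤ kap 𝔣 := by
  unfold kap
  refine mul_nonneg (NumberField.dedekindZeta_residue_pos K).le ?_
  refine finprod_mem_induction (fun z : ℝ => 0 ≤ z) zero_le_one (fun _ _ h1 h2 => mul_nonneg h1 h2)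
    fun 𝔭 h𝔭 => ?_
  have h2 : 2 ≤ nm 𝔭 := by
    unfold nm
    exact_mod_cast Pool.Agent.Y773.AB.norm_prime_ge h𝔭.1
  have : 1 / nm 𝔭 ≤ 1 := by
    rw [div_le_one (by linarith)]; linarith
  linarith

/-- **the second moment** -/
theorem sm (hint : St_INT) (hres : St_RES) (hafe : St_AFE) (hexp : St_EXP) (hbil : St_BIL)
    (hexpb : St_EXPB) (hdiag : St_DIAG) (hsel : St_SEL) (hsel2 : St_SEL2) (hgam : St_GAM)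
    (hkap : St_KAP) (hmer : St_MER) (hzeta : St_ZETA)
    (hod : St_OD) (K : Type) [Field K] [NumberField K] [IsTotallyComplex K]
    (h2 : Module.finrank ℚ K = 2) (B d τ : ℝ) (hd : 0 < d) (hd2 : d ≤ 1 / 8) (hτ : 0 < τ) :
    ∃ C N₀ : ℝ, 0 ≤ C ∧ 2 ≤ N₀ ∧ ∀ 𝔣 : Ideal (𝓞 K), 𝔣 ≠ ⊥ → 𝔣 ≠ ⊤ → N₀ ≤ nm 𝔣 →
      nm 𝔣 ^ (1 - d / 8) ≤ ((PC 𝔣).card : ℝ) → ∀ t : ℝ, |t| ≤ B →
      ∑ ψ ∈ PC 𝔣, ‖LL K ψ (hp t) * mol 𝔣 (nm 𝔣 ^ (1 / 2 - d)) t ψ‖ ^ 2 ≤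
        ((1 + τ) * ((1 + 2 * τ) / (1 / 2 - d) + (1 + τ) + C / Real.log (nm 𝔣)) +
          C * nm 𝔣 ^ (-(d / 8))) * ((PC 𝔣).card : ℝ) := by
  classical
  obtain ⟨δ, hδd⟩ : ∃ δ, δ = d / 20 := ⟨_, rfl⟩
  have hδ : 0 < δ := by rw [hδd]; positivity
  have hδ2 : δ ≤ 1 / 2 := by rw [hδd]; linarith
  obtain ⟨θ, hθ⟩ : ∃ θ, θ = 1 / 2 - d := ⟨_, rfl⟩
  rw [← hθ]
  have hθ0 : 0 < θ := by rw [hθ]; linarith
  obtain ⟨δZ, hδZ⟩ : ∃ δZ, δZ = min τ δ := ⟨_, rfl⟩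
  have hδZ0 : 0 < δZ := by rw [hδZ]; exact lt_min hτ hδ
  have hδZ1 : δZ ≤ τ := by rw [hδZ]; exact min_le_left _ _
  have hδZ2 : δZ ≤ δ := by rw [hδZ]; exact min_le_right _ _
  obtain ⟨C1, hC1, hE⟩ := hexpb K (δ / 2) (by linarith)
  obtain ⟨C2, hC2, hO⟩ := hod K h2 (δ / 2) (by linarith)
  obtain ⟨A3, hA3, hZ⟩ := hzeta K
  obtain ⟨C3, hC3, hZ'⟩ := hZ δZ hδZ0
  obtain ⟨C4, hC4, hMer⟩ := hmer K τ hτ
  obtain ⟨Cg, hCg, hG⟩ := hgam (K →+* ℂ) (max B 0) (le_max_right _ _)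
  obtain ⟨M₀, hM₀, hK⟩ := hkap K τ hτ
  have hdk := dK_ge (K := K)
  obtain ⟨g2, hg2⟩ : ∃ g, g = GI 1 (1 / 2 + δ) 0 := ⟨_, rfl⟩
  obtain ⟨g4, hg4⟩ : ∃ g, g = GI 2 (-1 / 8) (2 * A3) := ⟨_, rfl⟩
  have g20 : 0 ≤ g2 := by rw [hg2]; exact GI_nonneg _ _ _
  have g40 : 0 ≤ g4 := by rw [hg4]; exact GI_nonneg _ _ _
  obtain ⟨Ea, hEa⟩ : ∃ E, E = 2 * C3 + 3 * C4 + Real.log (dK K) + 4 * Cg := ⟨_, rfl⟩
  have hEa0 : 0 ≤ Ea := by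
    have := Real.log_nonneg hdk
    rw [hEa]; positivity
  obtain ⟨Eb, hEb⟩ : ∃ E, E = C3 * C1 * Cg * g4 + C1 * C1 * C2 * dK K * Cg * g2 := ⟨_, rfl⟩
  have hEb0 : 0 ≤ Eb := by rw [hEb]; positivity
  refine ⟨Ea / θ + Eb, max 2 (M₀ ^ (1 / θ)), by positivity, le_max_left _ _,
    fun 𝔣 hbot htop hN hcard t ht => ?_⟩
  have hn : 1 ≤ nm 𝔣 := one_le_nm hbot
  have hn2 : 2 ≤ nm 𝔣 := (le_max_left _ _).trans hN
  have hn0 : 0 < nm 𝔣 := by linarith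
  have hlog : 0 < Real.log (nm 𝔣) := Real.log_pos (by linarith)
  obtain ⟨M, hMe⟩ : ∃ M, M = nm 𝔣 ^ θ := ⟨_, rfl⟩
  rw [← hMe]
  have hM : 1 ≤ M := by rw [hMe]; exact Real.one_le_rpow hn hθ0.le
  have hlogM : Real.log M = θ * Real.log (nm 𝔣) := by rw [hMe, Real.log_rpow hn0]
  have hlogM0 : 0 < Real.log M := by rw [hlogM]; positivity
  have hMM : M₀ ≤ M := by
    have h3 : M₀ ^ (1 / θ) ≤ nm 𝔣 := (le_max_right _ _).trans hN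
    have h4 : (M₀ ^ (1 / θ)) ^ θ ≤ nm 𝔣 ^ θ :=
      Real.rpow_le_rpow (Real.rpow_nonneg (by linarith) _) h3 hθ0.le
    rw [← Real.rpow_mul (by linarith), one_div, inv_mul_cancel₀ hθ0.ne', Real.rpow_one] at h4
    rw [hMe]; exact h4
  obtain ⟨e1, -, e3⟩ := hE 𝔣 M t hM
  obtain ⟨Z, z1, z2, z3, z4, z5⟩ := hZ' 𝔣 hbot
  obtain ⟨s1, -, -, s4, s5, s6⟩ := hsel (Ideal (𝓞 K)) (Pr 𝔣 M) nm M nm_Pr hM
  obtain ⟨m1, m2⟩ := hMer (Pr 𝔣 M) (fun 𝔭 h => (mem_Pr.mp h).1)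
  obtain ⟨b, hb1, hb2⟩ := s6 τ C4 hτ.le hC4 (fun z hz => by
    convert m1 z hz using 2) m2
  obtain ⟨q1, q2, q3⟩ := hG (e0 K) t e0_le (ht.trans (le_max_left _ _))
  have hkn := kap_nonneg 𝔣
  have hkG : kap 𝔣 / GS (Pr 𝔣 M) nm M ≤ (1 + τ) / Real.log M := by
    rw [div_le_div_iff₀ (by linarith) hlogM0]
    exact hK M 𝔣 hMM hbot
  have hder := dH1 (C3 := C3) (δ3 := δZ) hbot Z z1 z4 z5 q1 q2 q3 s4 s1 s5 hb1 hb2 hkn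
  have hBl : ∀ w : ℂ, w.re = -1 / 8 → ‖BB (Pr 𝔣 M) nm M w‖ ≤
      M ^ (1 / 4 : ℝ) * (C1 * M ^ (δ / 2)) := by
    intro w hw
    have h3 := hsel2 (Ideal (𝓞 K)) (Pr 𝔣 M) nm M nm_Pr hM w (by rw [hw]; norm_num)
      (by rw [hw]; norm_num)
    have h4 : -2 * w.re = 1 / 4 := by rw [hw]; norm_num
    rw [h4] at h3
    exact h3.trans (mul_le_mul_of_nonneg_left e3 (by positivity))
  have key := mom2 hint hres hafe hexp hbil hdiag hbot htop (M := M) (t := t) (δ := δ)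
    (C1 := C1) (C2 := C2 * nm 𝔣 ^ (δ / 2)) (C3 := C3 * nm 𝔣 ^ δZ) (A3 := A3) (Cg := Cg)
    (CB := M ^ (1 / 4 : ℝ) * (C1 * M ^ (δ / 2))) hM hδ hδ2 (by linarith) (by positivity)
    (by positivity) (by linarith) hA3 e1 (hO 𝔣 hbot htop) Z z1 z2 z3 q1 q3 s4 hBl
  rw [← hg2, ← hg4] at key
  have hR := RR_pow_le (K := K) hbot (a := 1 / 2 + δ) (by linarith) (by linarith)
  have hR8 : RR 𝔣 ^ (-1 / 8 : ℝ) ≤ nm 𝔣 ^ (-1 / 8 : ℝ) := by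
    refine Real.rpow_le_rpow_of_nonpos hn0 ?_ (by norm_num)
    rw [RR_eq]
    nlinarith
  have hR80 : 0 ≤ RR 𝔣 ^ (-1 / 8 : ℝ) := Real.rpow_nonneg (Nat.cast_nonneg _) _
  have hR0 : 0 ≤ RR 𝔣 ^ (1 / 2 + δ) := Real.rpow_nonneg (Nat.cast_nonneg _) _
  have hlogR : Real.log (RR 𝔣) = Real.log (nm 𝔣) + Real.log (dK K) := by
    rw [RR_eq, Real.log_mul hn0.ne' (by linarith)]
  obtain ⟨n, hne⟩ : ∃ n, n = nm 𝔣 := ⟨_, rfl⟩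
  rw [← hne] at hn hn0 hn2 hlog hMe hlogM hcard hR hR8 hlogR key hder ⊢
  rw [hθ] at hMe
  have p1 := sm_p1 hn hd hd2 (hδd ▸ hδZ2) hMe
  have p2 := sm_p2 hn hd hd2 hMe
  rw [← hδd] at p1 p2
  obtain ⟨c, hc⟩ : ∃ c, c = ((PC 𝔣).card : ℝ) := ⟨_, rfl⟩
  have hc0 : 0 ≤ c := by rw [hc]; exact Nat.cast_nonneg _
  rw [← hc] at key hcard ⊢
  obtain ⟨q, hq⟩ : ∃ q, q = n ^ (-(d / 8)) := ⟨_, rfl⟩
  have hq0 : 0 ≤ q := by rw [hq]; positivity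
  rw [← hq] at p1 p2 ⊢
  have hM0 : 0 ≤ M := by linarith
  have t1 := sm_t1 (C1 := C1) (C3 := C3) (Cg := Cg) (g4 := g4) (by linarith) (by linarith)
    (by linarith) g40 (Real.rpow_nonneg hn0.le _) (Real.rpow_nonneg hM0 _)
    (Real.rpow_nonneg hM0 _) hR8 p1
  have t2 := sm_t2 (C1 := C1) (C2 := C2) (dk := dK K) (Cg := Cg) (g2 := g2) (by linarith)
    (by linarith) (by linarith) g20 (by linarith) (Real.rpow_nonneg hM0 _)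
    (Real.rpow_nonneg hM0 _) (Real.rpow_nonneg hn0.le _) hq0 hR p2 hcard
  have t3 := sm_t3 (θ := θ) hτ hθ0 hlog hlogM hlogR (Real.log_nonneg hdk) hδZ0.le hδZ1
    (by linarith) hC4 (by linarith) hkG hEa hder
  have hpi : 1 ≤ Real.pi := by
    have := Real.pi_gt_three
    linarith
  have hX0 : 0 ≤ C3 * C1 * Cg * g4 := by positivity
  have hY0 : 0 ≤ C1 * C1 * C2 * dK K * Cg * g2 := by positivity
  have hEaθ : 0 ≤ Ea / θ := by positivity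
  exact sm_fin hpi hc0 hq0 hlog hEaθ hEb hX0 hY0 (by linarith) t1 t2 t3 key

end

end Pool.Agent.Y773.NV
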