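import Pool.Agent.Y773.NV.St0
import Pool.Agent.Y773.HG.Defs

/-!
# Non-vanishing of L(1/2+it, ψ) for a third of the ray class characters modulo 𝔮: statements, part 1

Owner helper773.
-/

set_option autoImplicit false

open Complex MeasureTheory NumberField

namespace Pool.Agent.Y773.NV

open Pool.Agent.Y773 (LI FEd GG)


/-! ## gamma factors and the functional equation -/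

section gamma

variable {ι : Type} [Fintype ι]

/-- `γ(s) = ∏ Γ_ℝ(s + e_i)`, so that `GG R e s = R^(s/2) γ(s)` -/
noncomputable def gm (e : ι → ℕ) (s : ℂ) : ℂ := ∏ i, Complex.Gammaℝ (s + e i)

/-- the point `1/2 + it` -/
noncomputable def hp (t : ℝ) : ℂ := 1 / 2 + (t : ℂ) * I

/-- `γ(1/2+it+w) conj(γ(1/2+it+conj w)) / |γ(1/2+it)|²` -/
noncomputable def gr (e : ι → ℕ) (t : ℝ) (w : ℂ) : ℂ :=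
  gm e (hp t + w) * (starRingEnd ℂ) (gm e (hp t + (starRingEnd ℂ) w)) /
    (gm e (hp t) * (starRingEnd ℂ) (gm e (hp t)))

end gamma

/-- the gamma ratio -/
def St_GAM : Prop := ∀ (ι : Type) [Fintype ι] (B : ℝ), 0 ≤ B → ∃ C : ℝ, 1 ≤ C ∧
  ∀ (e : ι → ℕ) (t : ℝ), (∀ i, e i ≤ 1) → |t| ≤ B →
    DifferentiableOn ℂ (gr e t) {w | -1 / 2 < w.re} ∧ gr e t 0 = 1 ∧
    ∀ w : ℂ, -1 / 4 ≤ w.re → w.re ≤ 1 → ‖gr e t w‖ ≤ C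

/-- the symmetric formula for `|F(1/2+it)|²` -/
def St_AFE : Prop := ∀ (ι : Type) [Fintype ι] (R : ℝ) (e : ι → ℕ) (F : ℂ → ℂ), 0 < R → FEd R e F →
  (∃ C A : ℝ, Grow F (-1 / 2) (3 / 2) C A) → ∀ t c : ℝ, 0 < c → c ≤ 1 →
  Real.pi * (F (hp t) * (starRingEnd ℂ) (F (hp t))) =
    JJ 1 (fun w => F (hp t + w) * (starRingEnd ℂ) (F (hp t + (starRingEnd ℂ) w)) *
      (R : ℂ) ^ w * gr e t w) c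

/-- `F` on the line `Re s = -δ` -/
def St_DUAL : Prop := ∀ (ι : Type) [Fintype ι] (δ : ℝ), 0 < δ → δ ≤ 1 / 2 →
  ∃ C A : ℝ, 1 ≤ C ∧ 0 ≤ A ∧ ∀ (R : ℝ) (e : ι → ℕ) (F : ℂ → ℂ) (B : ℝ), 0 < R → FEd R e F →
    (∀ y : ℝ, ‖F ((1 + δ : ℝ) + (y : ℂ) * I)‖ ≤ B) →
    ∀ y : ℝ, ‖F ((-δ : ℝ) + (y : ℂ) * I)‖ ≤ C * B * R ^ (1 / 2 + δ) * Real.exp (A * |y|)

/-! ## ideals -/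

section ideals

variable {K : Type} [Field K] [NumberField K]

/-- the norm as a real number -/
noncomputable def nm (𝔞 : Ideal (𝓞 K)) : ℝ := (Ideal.absNorm 𝔞 : ℝ)

open Classical in
/-- the trivial character modulo `𝔣` (`𝔣 = ⊤` is allowed) -/
noncomputable def ch (𝔣 : Ideal (𝓞 K)) : Ideal (𝓞 K) →*₀ ℂ where
  toFun 𝔞 := if 𝔞 ≠ ⊥ ∧ IsCoprime 𝔞 𝔣 then 1 else 0
  map_zero' := by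
    rw [if_neg]
    exact fun h => h.1 Ideal.zero_eq_bot
  map_one' := by
    rw [if_pos]
    exact ⟨by rw [Ideal.one_eq_top]; exact top_ne_bot, isCoprime_one_left⟩
  map_mul' 𝔞 𝔟 := by
    by_cases h1 : 𝔞 ≠ ⊥ ∧ IsCoprime 𝔞 𝔣
    · by_cases h2 : 𝔟 ≠ ⊥ ∧ IsCoprime 𝔟 𝔣
      · rw [if_pos h1, if_pos h2, if_pos ⟨mul_ne_zero h1.1 h2.1, h1.2.mul_left h2.2⟩, mul_one]
      · rw [if_neg h2, mul_zero, if_neg]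
        intro h
        exact h2 ⟨fun h3 => h.1 (by rw [h3, Ideal.mul_bot]), (IsCoprime.mul_left_iff.mp h.2).2⟩
    · rw [if_neg h1, zero_mul, if_neg]
      intro h
      exact h1 ⟨fun h3 => h.1 (by rw [h3, Ideal.bot_mul]), (IsCoprime.mul_left_iff.mp h.2).1⟩

open Classical in
/-- the prime ideals of norm `≤ M` not dividing `𝔣` -/
noncomputable def Pr (𝔣 : Ideal (𝓞 K)) (M : ℝ) : Finset (Ideal (𝓞 K)) :=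
  if h : {𝔭 : Ideal (𝓞 K) | Prime 𝔭 ∧ ¬ 𝔭 ∣ 𝔣 ∧ nm 𝔭 ≤ M}.Finite then h.toFinset else ∅

lemma mem_Pr {𝔣 𝔭 : Ideal (𝓞 K)} {M : ℝ} : 𝔭 ∈ Pr 𝔣 M ↔ Prime 𝔭 ∧ ¬ 𝔭 ∣ 𝔣 ∧ nm 𝔭 ≤ M := by
  have h : {𝔭 : Ideal (𝓞 K) | Prime 𝔭 ∧ ¬ 𝔭 ∣ 𝔣 ∧ nm 𝔭 ≤ M}.Finite := by
    refine (Ideal.finite_setOfPred_absNorm_le (S := 𝓞 K) ⌊M⌋₊).subset ?_
    rintro 𝔭 ⟨-, -, h⟩
    exact Nat.le_floor h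
  unfold Pr
  rw [dif_pos h, Set.Finite.mem_toFinset]
  rfl

open Classical in
/-- the divisors of `𝔣` -/
noncomputable def dvs (𝔣 : Ideal (𝓞 K)) : Finset (Ideal (𝓞 K)) :=
  if h : {𝔢 : Ideal (𝓞 K) | 𝔢 ∣ 𝔣}.Finite then h.toFinset else ∅

lemma mem_dvs {𝔣 𝔢 : Ideal (𝓞 K)} (h𝔣 : 𝔣 ≠ ⊥) : 𝔢 ∈ dvs 𝔣 ↔ 𝔢 ∣ 𝔣 := by
  have h : {𝔢 : Ideal (𝓞 K) | 𝔢 ∣ 𝔣}.Finite := by
    refine (Ideal.finite_setOfPred_absNorm_le (S := 𝓞 K) (Ideal.absNorm 𝔣)).subset ?_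
    intro 𝔢 h
    have h0 : Ideal.absNorm 𝔣 ≠ 0 := by rwa [Ne, Ideal.absNorm_eq_zero_iff]
    exact Nat.le_of_dvd (Nat.pos_of_ne_zero h0)
      (Ideal.absNorm_dvd_absNorm_of_le (Ideal.dvd_iff_le.mp h))
  unfold dvs
  rw [dif_pos h, Set.Finite.mem_toFinset]
  rfl

open Classical in
/-- the primitive characters of conductor `𝔣` -/
noncomputable def PC (𝔣 : Ideal (𝓞 K)) : Finset (Ideal (𝓞 K) →*₀ ℂ) :=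
  if h : {ψ : Ideal (𝓞 K) →*₀ ℂ | Pool.Agent.Y773.G.IsPrimChar K 𝔣 ψ}.Finite then h.toFinset else ∅

/-- `∏_{𝔭 ∣ 𝔣} (1 - 1/N𝔭)` times the residue of the Dedekind zeta function -/
noncomputable def kap (𝔣 : Ideal (𝓞 K)) : ℝ := NumberField.dedekindZeta_residue K *
  ∏ᶠ 𝔭 ∈ {𝔭 : Ideal (𝓞 K) | Prime 𝔭 ∧ 𝔭 ∣ 𝔣}, (1 - 1 / nm 𝔭)

/-- `𝔲` and `𝔳` are in the same ray class modulo `𝔢` (same ideal class for `𝔢 = ⊤`) -/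
def Rel (𝔢 𝔲 𝔳 : Ideal (𝓞 K)) : Prop := ∃ x y : 𝓞 K, x ≠ 0 ∧ y ≠ 0 ∧ x - 1 ∈ 𝔢 ∧ y - 1 ∈ 𝔢 ∧
  𝔲 * Ideal.span {x} = 𝔳 * Ideal.span {y}

/-- `W(𝔲, 𝔳) = ∑_{ψ primitive of conductor 𝔣} ψ(𝔲) conj(ψ(𝔳))` -/
noncomputable def WW (𝔣 𝔲 𝔳 : Ideal (𝓞 K)) : ℂ := ∑ ψ ∈ PC 𝔣, ψ 𝔲 * (starRingEnd ℂ) (ψ 𝔳)

/-- the product of a finite set of ideals -/
noncomputable def idl (A : Finset (Ideal (𝓞 K))) : Ideal (𝓞 K) := ∏ 𝔭 ∈ A, 𝔭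

/-- the mollifier -/
noncomputable def mol (𝔣 : Ideal (𝓞 K)) (M t : ℝ) (ψ : Ideal (𝓞 K) →*₀ ℂ) : ℂ :=
  ∑ A ∈ SM (Pr 𝔣 M) nm M, (bS (Pr 𝔣 M) nm M A : ℂ) * ψ (idl A) * ((nA nm A : ℝ) : ℂ) ^ (-(hp t))

open Classical in
/-- the coefficients of `L(s, ψ)` times the mollifier -/
noncomputable def aC (𝔣 : Ideal (𝓞 K)) (M t : ℝ) (s : ℂ) (𝔲 : Ideal (𝓞 K)) : ℂ :=
  ∑ A ∈ (SM (Pr 𝔣 M) nm M).filter (fun A => idl A ∣ 𝔲),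
    (bS (Pr 𝔣 M) nm M A : ℂ) * ((nA nm A : ℝ) : ℂ) ^ (s - hp t) * ((nm 𝔲 : ℝ) : ℂ) ^ (-s)

end ideals

open Classical in
/-- orthogonality for the primitive characters of conductor `𝔣` -/
def St_ORT : Prop := ∀ (K : Type) [Field K] [NumberField K] [IsTotallyComplex K]
  (𝔣 𝔲 𝔳 : Ideal (𝓞 K)), 𝔣 ≠ ⊥ → 𝔣 ≠ ⊤ → IsCoprime 𝔲 𝔣 → IsCoprime 𝔳 𝔣 →
    ‖WW 𝔣 𝔲 𝔳‖ ≤ Nat.card (ClassGroup (𝓞 K)) * ∑ 𝔢 ∈ dvs 𝔣, (if Rel 𝔢 𝔲 𝔳 then nm 𝔢 else 0)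

/-- the number of the ideals in a ray class, and their separation -/
def St_CNT : Prop := ∀ (K : Type) [Field K] [NumberField K] [IsTotallyComplex K],
  Module.finrank ℚ K = 2 → ∃ C : ℝ, 1 ≤ C ∧ ∀ 𝔢 : Ideal (𝓞 K), 𝔢 ≠ ⊥ →
    (∀ (𝔳 : Ideal (𝓞 K)) (x : ℝ) (S : Finset (Ideal (𝓞 K))), 𝔳 ≠ ⊥ → 0 ≤ x →
      (∀ 𝔲 ∈ S, 𝔲 ≠ ⊥ ∧ nm 𝔲 ≤ x ∧ Rel 𝔢 𝔲 𝔳) → (S.card : ℝ) ≤ C * (1 + x / nm 𝔢)) ∧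
    ∀ (𝔲 𝔳 : Ideal (𝓞 K)) (x : ℝ), 𝔲 ≠ ⊥ → 𝔳 ≠ ⊥ → 𝔲 ≠ 𝔳 → nm 𝔲 ≤ x → nm 𝔳 ≤ x → Rel 𝔢 𝔲 𝔳 →
      nm 𝔢 ≤ C * x

/-- divisor bound and convergence (both are in the library) -/
def St_DIV : Prop := ∀ (K : Type) [Field K] [NumberField K] (δ : ℝ), 0 < δ → ∃ C : ℝ, 1 ≤ C ∧
  (∀ 𝔣 : Ideal (𝓞 K), 𝔣 ≠ ⊥ → ((dvs 𝔣).card : ℝ) ≤ C * nm 𝔣 ^ δ) ∧
  ∀ S : Finset (Ideal (𝓞 K)), (∀ 𝔞 ∈ S, 𝔞 ≠ ⊥) → ∑ 𝔞 ∈ S, nm 𝔞 ^ (-1 - δ) ≤ C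

/-- the off-diagonal terms -/
def St_OD : Prop := ∀ (K : Type) [Field K] [NumberField K] [IsTotallyComplex K],
  Module.finrank ℚ K = 2 → ∀ δ : ℝ, 0 < δ → ∃ C : ℝ, 1 ≤ C ∧ ∀ 𝔣 : Ideal (𝓞 K), 𝔣 ≠ ⊥ → 𝔣 ≠ ⊤ →
    ∀ S : Finset (Ideal (𝓞 K) × Ideal (𝓞 K)), (∀ p ∈ S, p.1 ≠ ⊥ ∧ p.2 ≠ ⊥ ∧ IsCoprime p.1 𝔣 ∧
      IsCoprime p.2 𝔣 ∧ p.1 ≠ p.2) →
      ∑ p ∈ S, ‖WW 𝔣 p.1 p.2‖ * (nm p.1 * nm p.2) ^ (-1 - δ) ≤ C * nm 𝔣 ^ δ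

/-- Mertens' upper bound for the prime ideals (weak form) -/
def St_MER : Prop := ∀ (K : Type) [Field K] [NumberField K] (ε : ℝ), 0 < ε → ∃ C : ℝ, 0 ≤ C ∧
  ∀ S : Finset (Ideal (𝓞 K)), (∀ 𝔭 ∈ S, Prime 𝔭) →
    (∀ z : ℝ, 1 ≤ z → ∑ 𝔭 ∈ S.filter (fun 𝔭 => nm 𝔭 ≤ z), Real.log (nm 𝔭) / (nm 𝔭 - 1) ≤
      (1 + ε) * Real.log z + C) ∧
    ∑ 𝔭 ∈ S, Real.log (nm 𝔭) / (nm 𝔭 - 1) ^ 2 ≤ C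

/-- lower bound for `G`, uniform in `𝔣` -/
def St_KAP : Prop := ∀ (K : Type) [Field K] [NumberField K] (ε : ℝ), 0 < ε → ∃ M₀ : ℝ, 2 ≤ M₀ ∧
  ∀ (M : ℝ) (𝔣 : Ideal (𝓞 K)), M₀ ≤ M → 𝔣 ≠ ⊥ →
    kap 𝔣 * Real.log M ≤ (1 + ε) * GS (Pr 𝔣 M) nm M

/-- the function `(s - 1) ζ_𝔣(s)` -/
def St_ZETA : Prop := ∀ (K : Type) [Field K] [NumberField K], ∃ A : ℝ, 0 ≤ A ∧
  ∀ δ : ℝ, 0 < δ → ∃ C : ℝ, 1 ≤ C ∧ ∀ 𝔣 : Ideal (𝓞 K), 𝔣 ≠ ⊥ → ∃ Z : ℂ → ℂ,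
    DifferentiableOn ℂ Z {s | 1 / 2 < s.re} ∧
    (∀ s : ℂ, 1 < s.re → Z s = (s - 1) * LI (ch 𝔣) s) ∧
    (∀ s : ℂ, 3 / 4 ≤ s.re → s.re ≤ 3 → ‖Z s‖ ≤ C * nm 𝔣 ^ δ * Real.exp (A * |s.im|)) ∧
    Z 1 = (kap 𝔣 : ℂ) ∧ ‖deriv Z 1‖ ≤ kap 𝔣 * (δ * Real.log (nm 𝔣) + C)

/-- the product of `L(s, ψ)` and the mollifier -/
def St_EXP : Prop := ∀ (K : Type) [Field K] [NumberField K] (𝔣 : Ideal (𝓞 K)) (M t : ℝ),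
  1 ≤ M → (∀ s : ℂ, aC 𝔣 M t s ⊤ = 1) ∧
  ∀ (ψ : Ideal (𝓞 K) →*₀ ℂ) (s : ℂ), (∀ 𝔞, ‖ψ 𝔞‖ ≤ 1) → 1 < s.re →
    LI ψ s * mol 𝔣 M t ψ = ∑' 𝔲 : Ideal (𝓞 K), ψ 𝔲 * aC 𝔣 M t s 𝔲

/-- bounds for the coefficients and for the mollifier -/
def St_EXPB : Prop := ∀ (K : Type) [Field K] [NumberField K] (η : ℝ), 0 < η → ∃ C : ℝ, 1 ≤ C ∧
  ∀ (𝔣 : Ideal (𝓞 K)) (M t : ℝ), 1 ≤ M →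
    (∀ (s : ℂ) (𝔲 : Ideal (𝓞 K)), 1 / 2 ≤ s.re → 𝔲 ≠ ⊥ →
      ‖aC 𝔣 M t s 𝔲‖ ≤ C * M ^ (s.re - 1 / 2) * nm 𝔲 ^ (η - s.re)) ∧
    (∀ ψ : Ideal (𝓞 K) →*₀ ℂ, (∀ 𝔞, ‖ψ 𝔞‖ ≤ 1) → ‖mol 𝔣 M t ψ‖ ≤ C * M ^ (1 / 2 + η)) ∧
    ∑ U ∈ SM (Pr 𝔣 M) nm (M ^ 2), 12 ^ U.card / nA nm U ≤ C * M ^ η

open Classical in
/-- the diagonal -/
def St_DIAG : Prop := ∀ (K : Type) [Field K] [NumberField K] (𝔣 : Ideal (𝓞 K)) (M t : ℝ) (w : ℂ),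
  𝔣 ≠ ⊥ → 1 ≤ M → 1 / 2 < w.re →
    ∑' 𝔲 : Ideal (𝓞 K), (if 𝔲 ≠ ⊥ ∧ IsCoprime 𝔲 𝔣 then
      aC 𝔣 M t (hp t + w) 𝔲 * (starRingEnd ℂ) (aC 𝔣 M t (hp t + (starRingEnd ℂ) w) 𝔲) else 0) =
    LI (ch 𝔣) (1 + 2 * w) * BB (Pr 𝔣 M) nm M w

section more

variable {K : Type} [Field K] [NumberField K]

variable (K) in
open Classical in
/-- the nonzero ideals of norm `≤ M` -/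
noncomputable def IdM (M : ℝ) : Finset (Ideal (𝓞 K)) :=
  if h : {𝔞 : Ideal (𝓞 K) | 𝔞 ≠ ⊥ ∧ nm 𝔞 ≤ M}.Finite then h.toFinset else ∅

lemma mem_IdM {𝔞 : Ideal (𝓞 K)} {M : ℝ} : 𝔞 ∈ IdM K M ↔ 𝔞 ≠ ⊥ ∧ nm 𝔞 ≤ M := by
  have h : {𝔞 : Ideal (𝓞 K) | 𝔞 ≠ ⊥ ∧ nm 𝔞 ≤ M}.Finite := by
    refine (Ideal.finite_setOfPred_absNorm_le (S := 𝓞 K) ⌊M⌋₊).subset ?_
    rintro 𝔞 ⟨-, h⟩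
    exact Nat.le_floor h
  unfold IdM
  rw [dif_pos h, Set.Finite.mem_toFinset]
  rfl

end more

/-- the harmonic sum over the ideals -/
def St_HAR : Prop := ∀ (K : Type) [Field K] [NumberField K] (ε : ℝ), 0 < ε → ∃ M₀ : ℝ, 2 ≤ M₀ ∧
  ∀ M : ℝ, M₀ ≤ M → NumberField.dedekindZeta_residue K * Real.log M ≤
    (1 + ε) * ∑ 𝔞 ∈ IdM K M, (nm 𝔞)⁻¹

/-- splitting off the primes dividing `𝔣` -/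
def St_SMO : Prop := ∀ (K : Type) [Field K] [NumberField K] (M : ℝ) (𝔣 : Ideal (𝓞 K)), 1 ≤ M →
  𝔣 ≠ ⊥ → (∏ᶠ 𝔭 ∈ {𝔭 : Ideal (𝓞 K) | Prime 𝔭 ∧ 𝔭 ∣ 𝔣}, (1 - 1 / nm 𝔭)) *
    ∑ 𝔞 ∈ IdM K M, (nm 𝔞)⁻¹ ≤ GS (Pr 𝔣 M) nm M

/-- the Euler factors at the primes dividing `𝔣` -/
def St_LIR : Prop := ∀ (K : Type) [Field K] [NumberField K] (𝔣 : Ideal (𝓞 K)) (s : ℂ), 𝔣 ≠ ⊥ →
  1 < s.re → LI (ch 𝔣) s = LI (ch (⊤ : Ideal (𝓞 K))) s *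
    ∏ᶠ 𝔭 ∈ {𝔭 : Ideal (𝓞 K) | Prime 𝔭 ∧ 𝔭 ∣ 𝔣}, (1 - ((nm 𝔭 : ℝ) : ℂ) ^ (-s))

/-- the function `(s - 1) ζ_K(s)` -/
def St_ZB : Prop := ∀ (K : Type) [Field K] [NumberField K], ∃ (A C : ℝ) (Z : ℂ → ℂ), 0 ≤ A ∧ 1 ≤ C ∧
  DifferentiableOn ℂ Z {s | 1 / 2 < s.re} ∧
  (∀ s : ℂ, 1 < s.re → Z s = (s - 1) * LI (ch (⊤ : Ideal (𝓞 K))) s) ∧
  (∀ s : ℂ, 3 / 4 ≤ s.re → s.re ≤ 3 → ‖Z s‖ ≤ C * Real.exp (A * |s.im|)) ∧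
  Z 1 = ((NumberField.dedekindZeta_residue K : ℝ) : ℂ) ∧ 0 < NumberField.dedekindZeta_residue K

end Pool.Agent.Y773.NV
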