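import Pool.Agent.Y773.NV.St1

/-! # Linearity of the line integrals -/

set_option autoImplicit false

open Complex MeasureTheory NumberField Filter Topology

namespace Pool.Agent.Y773.NV

/-- the integrand -/
noncomputable def Ik (k : ℕ) (H : ℂ → ℂ) (c : ℝ) (v : ℝ) : ℂ :=
  H (pt c v) * cexp (pt c v ^ 2) / pt c v ^ k

lemma pt_re (c v : ℝ) : (pt c v).re = c := by
  unfold pt; simp

lemma pt_im (c v : ℝ) : (pt c v).im = v := by
  unfold pt; simp

lemma pt_ne {c v : ℝ} (hc : c ≠ 0) : pt c v ≠ 0 := by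
  intro h
  have := congrArg Complex.re h
  rw [pt_re] at this
  exact hc (by simpa using this)

lemma pt_cont (c : ℝ) : Continuous (fun v : ℝ => pt c v) := by
  unfold pt
  fun_prop

lemma JJ_eq (k : ℕ) (H : ℂ → ℂ) (c : ℝ) : JJ k H c = ∫ v : ℝ, Ik k H c v := rfl

lemma JJ_congr {k : ℕ} {H H' : ℂ → ℂ} {c : ℝ} (h : ∀ v : ℝ, H (pt c v) = H' (pt c v)) :
    JJ k H c = JJ k H' c := by
  unfold JJ
  refine integral_congr_ae (Eventually.of_forall fun v => ?_)
  simp only [h v]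

lemma JJ_add {k : ℕ} {H H' : ℂ → ℂ} {c : ℝ} (h : Integrable (Ik k H c))
    (h' : Integrable (Ik k H' c)) : JJ k (fun w => H w + H' w) c = JJ k H c + JJ k H' c := by
  rw [JJ_eq, JJ_eq, JJ_eq, ← integral_add h h']
  refine integral_congr_ae (Eventually.of_forall fun v => ?_)
  simp only [Ik]
  ring

lemma JJ_cmul {k : ℕ} {H : ℂ → ℂ} {c : ℝ} (a : ℂ) : JJ k (fun w => a * H w) c = a * JJ k H c := by
  rw [JJ_eq, JJ_eq, ← integral_const_mul]
  refine integral_congr_ae (Eventually.of_forall fun v => ?_)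
  simp only [Ik]
  ring

lemma JJ_sum {α : Type} {k : ℕ} {c : ℝ} (S : Finset α) (H : α → ℂ → ℂ)
    (h : ∀ x ∈ S, Integrable (Ik k (H x) c)) :
    JJ k (fun w => ∑ x ∈ S, H x w) c = ∑ x ∈ S, JJ k (H x) c := by
  have h1 : ∀ x, JJ k (H x) c = ∫ v : ℝ, Ik k (H x) c v := fun x => rfl
  simp only [h1]
  rw [← integral_finsetSum S h, JJ_eq]
  refine integral_congr_ae (Eventually.of_forall fun v => ?_)
  simp only [Ik, Finset.sum_mul, Finset.sum_div]

lemma Ik_cmul {k : ℕ} {H : ℂ → ℂ} {c : ℝ} (a : ℂ) (h : Integrable (Ik k H c)) :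
    Integrable (Ik k (fun w => a * H w) c) := by
  refine (h.const_mul a).congr (Eventually.of_forall fun v => ?_)
  simp only [Ik]
  ring

lemma norm_cpow_real {X : ℝ} (hX : 0 < X) (w : ℂ) : ‖(X : ℂ) ^ w‖ = X ^ w.re :=
  Complex.norm_cpow_eq_rpow_re_of_pos hX w

lemma hp_re (t : ℝ) : (hp t).re = 1 / 2 := by
  unfold hp; simp

lemma hp_im (t : ℝ) : (hp t).im = t := by
  unfold hp; simp

lemma GI_nonneg (k : ℕ) (c A : ℝ) : 0 ≤ GI k c A := by
  unfold GI
  exact integral_nonneg fun v => by positivity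

/-- growth constants may be taken nonnegative -/
lemma Grow.nonneg {H : ℂ → ℂ} {a b C A : ℝ} (hab : a ≤ b) (h : Grow H a b C A) :
    0 ≤ C ∧ Grow H a b C |A| := by
  have h0 : 0 ≤ C := by
    have h1 := (norm_nonneg _).trans (h (a : ℂ) (by simp) (by simpa using hab))
    have h2 : 0 < Real.exp (A * |(a : ℂ).im|) := Real.exp_pos _
    exact nonneg_of_mul_nonneg_left h1 h2
  refine ⟨h0, fun w h1 h2 => (h w h1 h2).trans (mul_le_mul_of_nonneg_left ?_ h0)⟩
  exact Real.exp_le_exp.mpr (mul_le_mul_of_nonneg_right (le_abs_self A) (abs_nonneg _))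

/-- growth of a shifted function -/
lemma Grow.shift {H : ℂ → ℂ} {C A : ℝ} (hG : Grow H (-1 / 2) (3 / 2) C A) (t : ℝ) {w : ℂ}
    (h1 : -1 ≤ w.re) (h2 : w.re ≤ 1) :
    ‖H (hp t + w)‖ ≤ C * Real.exp (|A| * |t|) * Real.exp (|A| * |w.im|) := by
  obtain ⟨h0, hG'⟩ := hG.nonneg (by norm_num)
  refine (hG' (hp t + w) ?_ ?_).trans ?_
  · rw [add_re, hp_re]; linarith
  · rw [add_re, hp_re]; linarith
  · rw [mul_assoc, ← Real.exp_add, ← mul_add]
    refine mul_le_mul_of_nonneg_left (Real.exp_le_exp.mpr ?_) h0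
    refine mul_le_mul_of_nonneg_left ?_ (abs_nonneg _)
    rw [add_im, hp_im]
    exact abs_add_le _ _

/-- the powers -/
lemma differentiable_cpow {X : ℝ} (hX : 0 < X) : Differentiable ℂ (fun w : ℂ => (X : ℂ) ^ w) := by
  intro w
  exact differentiableAt_id.const_cpow (Or.inl (by exact_mod_cast hX.ne'))

end Pool.Agent.Y773.NV
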