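import Pool.Agent.Y773.NV.Cond
import Pool.Agent.Y773.IQ.Num

/-! # A third of the ray class characters -/

set_option autoImplicit false
set_option linter.unusedSectionVars false

open Complex MeasureTheory NumberField Filter Topology

namespace Pool.Agent.Y773.NV

open Pool.Agent.Y773 (LI FEd)
open Pool.Agent.Y773.IQ

section

variable {K : Type} [Field K] [NumberField K] [IsTotallyComplex K]

open Classical in
/-- the fibres of the conductor -/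
lemma fib {𝔮 : Ideal (𝓞 K)} (hbot : 𝔮 ≠ ⊥) (S : Finset (Ideal (𝓞 K) →*₀ ℂ))
    (hS : ∀ ψ, ψ ∈ S ↔ ψ ∈ Fam 𝔮) {𝔡 : Ideal (𝓞 K)} (hd : 𝔡 ∈ S.image (cd 𝔮)) :
    𝔡 ∣ 𝔮 ∧ 𝔡 ≠ ⊥ ∧ 𝔡 ≠ ⊤ ∧ S.filter (fun ψ => cd 𝔮 ψ = 𝔡) = PC 𝔡 := by
  obtain ⟨φ, hφ, rfl⟩ := Finset.mem_image.mp hd
  obtain ⟨h1, h2, h3⟩ := cd_spec ((hS φ).mp hφ)
  refine ⟨h1, h3.ne_bot, h2, ?_⟩
  ext ψ
  rw [mem_PC h3.ne_bot h2, Finset.mem_filter, hS]
  constructor
  · rintro ⟨h4, h5⟩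
    have := (cd_spec h4).2.2
    rwa [h5] at this
  · intro h4
    have h5 : ψ ∈ Fam 𝔮 := ⟨cd 𝔮 φ, h1, h2, h4⟩
    obtain ⟨h6, h7, h8⟩ := cd_spec h5
    refine ⟨h5, le_antisymm ?_ ?_⟩
    · exact cond_le (fun x => tpos_all x) hbot h4 h8 h1 h6 h2 h7 (fun _ _ => rfl)
    · exact cond_le (fun x => tpos_all x) hbot h8 h4 h6 h1 h7 h2 (fun _ _ => rfl)

end

open Classical in
/-- **a third of the ray class characters modulo `𝔮`** -/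
theorem third (K : Type) [Field K] [NumberField K] [IsTotallyComplex K]
    (h2 : Module.finrank ℚ K = 2) (Q : (Ideal (𝓞 K) →*₀ ℂ) → Prop) (C₁ : ℝ) (hC₁ : 0 ≤ C₁)
    (hQ : ∀ 𝔡 : Ideal (𝓞 K), 𝔡 ≠ ⊥ → 𝔡 ≠ ⊤ →
      (((PC 𝔡).filter (fun ψ => ¬ Q ψ)).card : ℝ) ≤ C₁ * nm 𝔡 ^ (7 / 8 : ℝ))
    (B ε : ℝ) (hε : 0 < ε) :
    ∃ X₀ : ℝ, 2 ≤ X₀ ∧ ∀ 𝔮 : Ideal (𝓞 K), 𝔮 ≠ ⊥ → X₀ ≤ (Ideal.absNorm 𝔮 : ℝ) →
      (Fam 𝔮).Finite ∧ (Fam 𝔮).Nonempty ∧ ∀ t : ℝ, |t| ≤ B →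
      (1 / 3 - ε) * ((Fam 𝔮).ncard : ℝ) ≤
        (({ψ ∈ Fam 𝔮 | Q ψ ∧ LL K ψ (1 / 2 + (t : ℂ) * Complex.I) ≠ 0}.ncard : ℕ) : ℝ) := by
  obtain ⟨d, N₀, hd, hd2, hN₀, hcond⟩ := cond K h2 B (ε / 2) (by linarith)
  obtain ⟨C, hC, hdiv⟩ := divisor_bound K (ε := d / 32) (by positivity)
  obtain ⟨c, N1, hc, hN1, hbig⟩ := fam_big' K h2 (ε := d / 32) (by positivity) (by linarith)
  obtain ⟨h, hh⟩ : ∃ h : ℝ, h = Nat.card (ClassGroup (𝓞 K)) := ⟨_, rfl⟩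
  have hh0 : 0 ≤ h := by rw [hh]; exact Nat.cast_nonneg _
  obtain ⟨N2, hN2, hX⟩ := exists_ge (d / 16) (2 * C * (1 + N₀ * h + C₁) / (ε * c)) (by positivity)
  refine ⟨max 2 (max N1 N2), le_max_left _ _, fun 𝔮 hbot hN => ?_⟩
  have hNN : (2 : ℝ) ≤ (Ideal.absNorm 𝔮 : ℝ) := (le_max_left _ _).trans hN
  have htop : 𝔮 ≠ ⊤ := by
    rintro rfl
    rw [Ideal.absNorm_top] at hNN
    norm_num at hNN
  have k1 := hbig 𝔮 hbot htop (((le_max_left _ _).trans (le_max_right _ _)).trans hN)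
  have k2 := hX _ (((le_max_right _ _).trans (le_max_right _ _)).trans hN)
  have hfin := (Fam_finite hbot htop (fun x => tpos_all x)).1
  have hpos : 0 < ((Fam 𝔮).ncard : ℝ) :=
    lt_of_lt_of_le (mul_pos hc (Real.rpow_pos_of_pos (by linarith) _)) k1
  have hne : (Fam 𝔮).Nonempty := by
    rw [← Set.ncard_pos hfin]
    exact_mod_cast hpos
  refine ⟨hfin, hne, fun t ht => ?_⟩
  obtain ⟨S, hSd⟩ : ∃ S : Finset (Ideal (𝓞 K) →*₀ ℂ), S = hfin.toFinset := ⟨_, rfl⟩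
  have hS : ∀ ψ, ψ ∈ S ↔ ψ ∈ Fam 𝔮 := fun ψ => by rw [hSd, Set.Finite.mem_toFinset]
  have hSc : ((Fam 𝔮).ncard : ℝ) = (S.card : ℝ) := by
    have : (Fam 𝔮) = (S : Set _) := by
      ext ψ; rw [Finset.mem_coe, hS]
    rw [this, Set.ncard_coe_finset]
  have hSv : (({ψ ∈ Fam 𝔮 | Q ψ ∧ LL K ψ (1 / 2 + (t : ℂ) * Complex.I) ≠ 0}.ncard : ℕ) : ℝ) =
      ((S.filter (fun ψ => Q ψ ∧ LL K ψ (hp t) ≠ 0)).card : ℝ) := by
    have : {ψ ∈ Fam 𝔮 | Q ψ ∧ LL K ψ (1 / 2 + (t : ℂ) * Complex.I) ≠ 0} =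
        ((S.filter (fun ψ => Q ψ ∧ LL K ψ (hp t) ≠ 0) : Finset _) : Set _) := by
      ext ψ
      rw [Finset.mem_coe, Finset.mem_filter, hS]
      rfl
    rw [this, Set.ncard_coe_finset]
  rw [hSc] at k1 hpos
  rw [hSc, hSv]
  obtain ⟨N, hNd⟩ : ∃ N : ℝ, N = (Ideal.absNorm 𝔮 : ℝ) := ⟨_, rfl⟩
  rw [← hNd] at k1 k2 hNN
  have hNp : 0 < N := by linarith
  obtain ⟨b, hb⟩ : ∃ b : ℝ, b = N ^ (1 - d / 8) + N₀ * h + C₁ * N ^ (7 / 8 : ℝ) :=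
    ⟨_, rfl⟩
  have hb0 : 0 ≤ b := by
    have := Real.rpow_nonneg hNp.le (1 - d / 8)
    have := Real.rpow_nonneg hNp.le (7 / 8 : ℝ)
    rw [hb]; positivity
  -- the fibres
  have hf : ∀ 𝔡 ∈ S.image (cd 𝔮), (1 / 3 - ε / 2) * ((S.filter (fun ψ => cd 𝔮 ψ = 𝔡)).card : ℝ) ≤
      (((S.filter (fun ψ => Q ψ ∧ LL K ψ (hp t) ≠ 0)).filter (fun ψ => cd 𝔮 ψ = 𝔡)).card : ℝ) +
        b := by
    intro 𝔡 h𝔡
    obtain ⟨f1, f2, f3, f4⟩ := fib hbot S hS h𝔡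
    have f5 : (S.filter (fun ψ => Q ψ ∧ LL K ψ (hp t) ≠ 0)).filter (fun ψ => cd 𝔮 ψ = 𝔡) =
        (PC 𝔡).filter (fun ψ => Q ψ ∧ LL K ψ (hp t) ≠ 0) := by
      rw [Finset.filter_filter, ← f4, Finset.filter_filter]
      refine Finset.filter_congr fun ψ _ => ?_
      exact and_comm
    rw [f5, f4]
    have f6 : (((PC 𝔡).filter (fun ψ => LL K ψ (hp t) ≠ 0)).card : ℝ) ≤
        (((PC 𝔡).filter (fun ψ => Q ψ ∧ LL K ψ (hp t) ≠ 0)).card : ℝ) +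
        (((PC 𝔡).filter (fun ψ => ¬ Q ψ)).card : ℝ) := by
      have h1 : (PC 𝔡).filter (fun ψ => LL K ψ (hp t) ≠ 0) ⊆
          (PC 𝔡).filter (fun ψ => Q ψ ∧ LL K ψ (hp t) ≠ 0) ∪
          (PC 𝔡).filter (fun ψ => ¬ Q ψ) := by
        intro ψ hψ
        obtain ⟨h3, h4⟩ := Finset.mem_filter.mp hψ
        rw [Finset.mem_union, Finset.mem_filter, Finset.mem_filter]
        by_cases h5 : Q ψ
        · exact Or.inl ⟨h3, h5, h4⟩
        · exact Or.inr ⟨h3, h5⟩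
      exact_mod_cast (Finset.card_le_card h1).trans (Finset.card_union_le _ _)
    have f7 := hQ 𝔡 f2 f3
    have hle : nm 𝔡 ≤ N := by
      rw [hNd]
      unfold nm
      have h0 : Ideal.absNorm 𝔮 ≠ 0 := by rwa [Ne, Ideal.absNorm_eq_zero_iff]
      exact_mod_cast Nat.le_of_dvd (Nat.pos_of_ne_zero h0)
        (Ideal.absNorm_dvd_absNorm_of_le (Ideal.dvd_iff_le.mp f1))
    have hc0 : (0 : ℝ) ≤ ((PC 𝔡).card : ℝ) := Nat.cast_nonneg _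
    have hv0 : (0 : ℝ) ≤ (((PC 𝔡).filter (fun ψ => Q ψ ∧ LL K ψ (hp t) ≠ 0)).card : ℝ) :=
      Nat.cast_nonneg _
    have hd1 : 0 ≤ nm 𝔡 := by unfold nm; exact Nat.cast_nonneg _
    have f8 : C₁ * nm 𝔡 ^ (7 / 8 : ℝ) ≤ C₁ * N ^ (7 / 8 : ℝ) :=
      mul_le_mul_of_nonneg_left (Real.rpow_le_rpow hd1 hle (by norm_num)) hC₁
    have f9 : 0 ≤ C₁ * N ^ (7 / 8 : ℝ) := mul_nonneg hC₁ (Real.rpow_nonneg hNp.le _)
    have f10 := Real.rpow_nonneg hNp.le (1 - d / 8)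
    have f11 : 0 ≤ N₀ * h := by positivity
    by_cases g1 : N₀ ≤ nm 𝔡
    · by_cases g2 : nm 𝔡 ^ (1 - d / 8) ≤ ((PC 𝔡).card : ℝ)
      · have := hcond 𝔡 f2 f3 g1 g2 t ht
        rw [hb]
        linarith
      · have g3 : ((PC 𝔡).card : ℝ) ≤ b := by
          have g4 : nm 𝔡 ^ (1 - d / 8) ≤ N ^ (1 - d / 8) :=
            Real.rpow_le_rpow (by linarith) hle (by linarith)
          have : 0 ≤ N₀ * h := by positivity
          rw [hb]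
          push Not at g2
          linarith
        nlinarith
    · have g3 : ((PC 𝔡).card : ℝ) ≤ b := by
        obtain ⟨h8, h9⟩ := prim_card f2 f3 (fun x => tpos_all x)
        have h10 : (PC 𝔡).card ≤ Ideal.absNorm 𝔡 * Nat.card (ClassGroup (𝓞 K)) := by
          refine le_trans ?_ h9
          rw [Set.ncard_eq_toFinset_card _ h8]
          refine Finset.card_le_card fun ψ' hψ' => ?_
          rw [Set.Finite.mem_toFinset]
          exact (mem_PC f2 f3).mp hψ'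
        have h11 : ((PC 𝔡).card : ℝ) ≤ nm 𝔡 * h := by
          rw [hh]; unfold nm; exact_mod_cast h10
        have h12 : nm 𝔡 * h ≤ N₀ * h := mul_le_mul_of_nonneg_right (not_le.mp g1).le hh0
        have := Real.rpow_nonneg hNp.le (1 - d / 8)
        rw [hb]
        linarith
      nlinarith
  have hsum := Finset.sum_le_sum hf
  rw [← Finset.mul_sum, Finset.sum_add_distrib, Finset.sum_const, nsmul_eq_mul] at hsum
  have e1 : ∑ 𝔡 ∈ S.image (cd 𝔮), ((S.filter (fun ψ => cd 𝔮 ψ = 𝔡)).card : ℝ) = (S.card : ℝ) := by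
    have := Finset.card_eq_sum_card_image (cd 𝔮) S
    exact_mod_cast this.symm
  have e2 : ∑ 𝔡 ∈ S.image (cd 𝔮),
      (((S.filter (fun ψ => Q ψ ∧ LL K ψ (hp t) ≠ 0)).filter (fun ψ => cd 𝔮 ψ = 𝔡)).card : ℝ) =
      ((S.filter (fun ψ => Q ψ ∧ LL K ψ (hp t) ≠ 0)).card : ℝ) := by
    have := Finset.card_eq_sum_card_fiberwise (f := cd 𝔮)
      (s := S.filter (fun ψ => Q ψ ∧ LL K ψ (hp t) ≠ 0)) (t := S.image (cd 𝔮)) (fun ψ hψ =>
        Finset.mem_coe.mpr (Finset.mem_image_of_mem _ (Finset.mem_filter.mp hψ).1))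
    exact_mod_cast this.symm
  rw [e1, e2] at hsum
  have e3 : ((S.image (cd 𝔮)).card : ℝ) ≤ C * N ^ (d / 32) := by
    have v1 := hdiv 𝔮 hbot
    rw [← hNd] at v1
    refine le_trans ?_ v1
    have h3 : (S.image (cd 𝔮)).card ≤ (dv 𝔮).ncard := by
      rw [Set.ncard_eq_toFinset_card _ (dv_finite hbot)]
      refine Finset.card_le_card fun 𝔡 h𝔡 => ?_
      obtain ⟨ψ, hψ, rfl⟩ := Finset.mem_image.mp h𝔡
      rw [Set.Finite.mem_toFinset]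
      exact (cd_spec ((hS ψ).mp hψ)).1
    exact_mod_cast h3
  have e4 : ((S.image (cd 𝔮)).card : ℝ) * b ≤ ε / 2 * (S.card : ℝ) := by
    have v0 : 1 ≤ N ^ (1 - d / 8) := Real.one_le_rpow (by linarith) (by linarith)
    have v1 : b ≤ (1 + N₀ * h + C₁) * N ^ (1 - d / 8) := by
      have w1 : 0 ≤ N₀ * h := by positivity
      have w2 : N ^ (7 / 8 : ℝ) ≤ N ^ (1 - d / 8) :=
        Real.rpow_le_rpow_of_exponent_le (by linarith) (by linarith)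
      have w3 := mul_le_mul_of_nonneg_left w2 hC₁
      have w4 := mul_le_mul_of_nonneg_left v0 w1
      rw [hb]
      linarith
    have v2 : N ^ (d / 32) * N ^ (1 - d / 8) * N ^ (d / 16) = N ^ (1 - d / 32) := by
      rw [← Real.rpow_add hNp, ← Real.rpow_add hNp]
      congr 1; ring
    rw [div_le_iff₀ (by positivity)] at k2
    have v3 : 0 < N ^ (d / 32) * N ^ (1 - d / 8) :=
      mul_pos (Real.rpow_pos_of_pos hNp _) (Real.rpow_pos_of_pos hNp _)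
    have v4 : 0 ≤ N ^ (d / 32) := Real.rpow_nonneg hNp.le _
    calc ((S.image (cd 𝔮)).card : ℝ) * b
        ≤ (C * N ^ (d / 32)) * ((1 + N₀ * h + C₁) * N ^ (1 - d / 8)) :=
          mul_le_mul e3 v1 hb0 (by positivity)
      _ = (N ^ (d / 32) * N ^ (1 - d / 8)) * (C * (1 + N₀ * h + C₁)) := by ring
      _ ≤ (N ^ (d / 32) * N ^ (1 - d / 8)) * (N ^ (d / 16) * (ε * c) / 2) := by
          refine mul_le_mul_of_nonneg_left ?_ v3.le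
          linarith
      _ = ε / 2 * (c * (N ^ (d / 32) * N ^ (1 - d / 8) * N ^ (d / 16))) := by ring
      _ ≤ ε / 2 * (S.card : ℝ) := by
          rw [v2]
          exact mul_le_mul_of_nonneg_left k1 (by positivity)
  nlinarith

end Pool.Agent.Y773.NV
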